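import Mathlib
import Pool.Agent.W569.FM.Stmts

set_option autoImplicit false
set_option linter.unusedSectionVars false

/-!
# The `ℓ`-adic cyclotomic character on Frobenius elements
-/

namespace Pool.Agent.Y115.Chi

open NumberField Pool.Agent.W569.FM

variable (F : Type) [Field F] (ℓ : ℕ) [hℓ : Fact ℓ.Prime]

/-- the `ℓ`-adic cyclotomic character of the absolute Galois group of `F` -/
noncomputable def chi : GF F →* ℤ_[ℓ]ˣ :=
  (cyclotomicCharacter (AlgebraicClosure F) ℓ).comp
    (MulSemiringAction.toRingAut Gal(AlgebraicClosure F/F) (AlgebraicClosure F))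

theorem continuous_chi : Continuous (chi F ℓ) :=
  cyclotomicCharacter.continuous ℓ F (AlgebraicClosure F)

variable {F ℓ}

/-- roots of unity of order dividing `l` which are congruent modulo a prime not containing `l`
are equal -/
lemma root_eq {P : Ideal (OO F)} {l : ℕ} (hlP : (l : OO F) ∉ P) {x y : OO F}
    (hx : x ^ l = 1) (hy : y ^ l = 1) (h : x - y ∈ P) (hl : l ≠ 0) : x = y := by
  set u := x * y ^ (l - 1) with hu
  have hyy : y * y ^ (l - 1) = 1 := by rw [← pow_succ', Nat.sub_add_cancel (by omega), hy]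
  have hul : u ^ l = 1 := by
    rw [hu, mul_pow, hx, one_mul, ← pow_mul, mul_comm, pow_mul, hy, one_pow]
  have hu1 : u - 1 ∈ P := by
    have : u - 1 = y ^ (l - 1) * (x - y) := by rw [hu, ← hyy]; ring
    rw [this]
    exact P.mul_mem_left _ h
  have hgeom : (u - 1) * ∑ i ∈ Finset.range l, u ^ i = 0 := by
    rw [mul_geom_sum, hul, sub_self]
  rcases mul_eq_zero.1 hgeom with h1 | h1
  · have h2 : u = 1 := sub_eq_zero.1 h1
    have h3 : x * (y * y ^ (l - 1)) = y * u := by rw [hu]; ring
    rw [hyy, h2, mul_one, mul_one] at h3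
    exact h3
  · exfalso
    apply hlP
    have h2 : (l : OO F) = -∑ i ∈ Finset.range l, (u ^ i - 1) := by
      rw [Finset.sum_sub_distrib, h1]
      simp
    rw [h2]
    apply P.neg_mem
    apply P.sum_mem
    intro i _
    exact P.mem_of_dvd (by simpa using sub_dvd_pow_sub_pow u 1 i) hu1

/-- the cyclotomic character of a Frobenius element -/
theorem chi_frob [CharZero F] {q : ℕ} {P : Ideal (OO F)} (hP : P.IsPrime)
    (hl : (ℓ : OO F) ∉ P) {σ : GF F} (hσ : FrobAt q P σ) : ((chi F ℓ σ : ℤ_[ℓ]ˣ) : ℤ_[ℓ]) = q := by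
  have : CharZero (AlgebraicClosure F) := charZero_of_injective_algebraMap
    (algebraMap F (AlgebraicClosure F)).injective
  refine PadicInt.ext_of_toZModPow.mp fun n ↦ ?_
  have h1 : ((chi F ℓ σ : ℤ_[ℓ]ˣ) : ℤ_[ℓ]).toZModPow n =
    (modularCyclotomicCharacter _ (HasEnoughRootsOfUnity.natCard_rootsOfUnity
      (AlgebraicClosure F) (ℓ ^ n)) (MulSemiringAction.toRingAut Gal(AlgebraicClosure F/F)
        (AlgebraicClosure F) σ)).val := cyclotomicCharacter.toZModPow ℓ _
  rw [h1, map_natCast]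
  symm
  apply modularCyclotomicCharacter.unique
  intro t ht
  rw [mem_rootsOfUnity] at ht
  have ht1 : (t : AlgebraicClosure F) ^ (ℓ ^ n) = 1 := by
    rw [← Units.val_pow_eq_pow_val, ht, Units.val_one]
  have hpos : 0 < ℓ ^ n := pow_pos hℓ.out.pos n
  have hint : IsIntegral ℤ (t : AlgebraicClosure F) :=
    IsIntegral.of_pow hpos (by rw [ht1]; exact isIntegral_one)
  set x : OO F := ⟨t, hint⟩ with hx
  have hx1 : x ^ (ℓ ^ n) = 1 := RingOfIntegers.ext ht1
  have h2 : σ • x = x ^ q := by
    refine root_eq (P := P) (l := ℓ ^ n) ?_ ?_ ?_ (hσ x) hpos.ne'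
    · intro h
      apply hl
      rw [Nat.cast_pow] at h
      exact hP.mem_of_pow_mem n h
    · rw [← smul_pow', hx1, smul_one]
    · rw [← pow_mul, mul_comm, pow_mul, hx1, one_pow]
  have h3 : σ (t : AlgebraicClosure F) = (t : AlgebraicClosure F) ^ q :=
    congrArg (fun z : OO F => (z : AlgebraicClosure F)) h2
  show σ (t : AlgebraicClosure F) = _
  rw [h3, ZMod.val_natCast]
  conv_lhs => rw [← Nat.div_add_mod q (ℓ ^ n), pow_add, pow_mul, ht1, one_pow, one_mul]

end Pool.Agent.Y115.Chi
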