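import Mathlib
import Pool.Agent.W245.PB.PE

set_option autoImplicit false
set_option linter.unusedSectionVars false

/-!
# The logarithm near `1` in a complete ultrametric field
-/

namespace Pool.Agent.Y115.Lg

open Filter Topology Pool.Agent.W245.PB

variable (p : ℕ) [hp : Fact p.Prime] {E : Type*} [NormedField E] [CompleteSpace E]
  [IsUltrametricDist E] [NormedAlgebra ℚ_[p] E] [CharZero E]

theorem exists_log {u : E} (hu : ‖u - 1‖ * (p : ℝ) ^ 3 ≤ 1) :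
    ∃ l : E, ‖l‖ * (p : ℝ) ^ 3 ≤ 1 ∧ pe l = u := by
  have hp2 : (2 : ℝ) ≤ p := by exact_mod_cast hp.out.two_le
  have hp0 : (0 : ℝ) < p := by linarith
  have hpi : (p : ℝ)⁻¹ ≤ 1 := inv_le_one_of_one_le₀ (by linarith)
  have hpi1 : (p : ℝ)⁻¹ < 1 := inv_lt_one_of_one_lt₀ (by linarith)
  have hpE : (p : E) ≠ 0 := Nat.cast_ne_zero.2 hp.out.ne_zero
  have hpn : ∀ n : ℕ, ‖(p : E) ^ n‖ = (p : ℝ)⁻¹ ^ n := fun n => by rw [norm_pow, norm_p p]
  have hu1 := norm_pow_p_iter p hu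
  have hu1' : ∀ n : ℕ, ‖u ^ (p ^ n) - 1‖ ≤ 1 := by
    intro n
    rw [hu1]
    have h1 : ‖u - 1‖ ≤ 1 := by
      refine le_trans ?_ hu
      calc ‖u - 1‖ = ‖u - 1‖ * 1 := (mul_one _).symm
        _ ≤ ‖u - 1‖ * (p : ℝ) ^ 3 := by gcongr; exact one_le_pow₀ (by linarith)
    exact mul_le_one₀ h1 (by positivity) (pow_le_one₀ (by positivity) hpi)
  set y : ℕ → E := fun n => (u ^ (p ^ n) - 1) / (p : E) ^ n with hy
  set D : ℝ := p * ‖u - 1‖ ^ 2 with hD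
  have hD0 : 0 ≤ D := by rw [hD]; positivity
  have hstep : ∀ n, ‖y (n + 1) - y n‖ ≤ D * (p : ℝ)⁻¹ ^ n := by
    intro n
    obtain ⟨s, hs, h⟩ := binom_two (u ^ (p ^ n) - 1) (hu1' n) p
    rw [show (1 : E) + (u ^ (p ^ n) - 1) = u ^ (p ^ n) by ring, ← pow_mul, ← pow_succ] at h
    have h1 : y (n + 1) - y n = (u ^ (p ^ n) - 1) ^ 2 * s / (p : E) ^ (n + 1) := by
      rw [hy]
      simp only
      rw [h, pow_succ]
      field_simp
      ring
    rw [h1, norm_div, norm_mul, norm_pow, hu1, hpn]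
    have hpn0 : (0 : ℝ) < (p : ℝ)⁻¹ ^ n := by positivity
    rw [div_le_iff₀ (by positivity), hD]
    calc (‖u - 1‖ * (p : ℝ)⁻¹ ^ n) ^ 2 * ‖s‖ ≤ (‖u - 1‖ * (p : ℝ)⁻¹ ^ n) ^ 2 * 1 := by gcongr
      _ = (p * (p : ℝ)⁻¹) * ‖u - 1‖ ^ 2 * (p : ℝ)⁻¹ ^ n * (p : ℝ)⁻¹ ^ n := by
          rw [mul_inv_cancel₀ hp0.ne']
          ring
      _ = p * ‖u - 1‖ ^ 2 * (p : ℝ)⁻¹ ^ n * (p : ℝ)⁻¹ ^ (n + 1) := by
          rw [pow_succ]
          ring
  have hdiff : ∀ n m : ℕ, n ≤ m → ‖y m - y n‖ ≤ D * (p : ℝ)⁻¹ ^ n := by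
    intro n m hnm
    induction m, hnm using Nat.le_induction with
    | base => rw [sub_self, norm_zero]; positivity
    | succ m hm ih =>
      rw [show y (m + 1) - y n = (y (m + 1) - y m) + (y m - y n) by ring]
      refine (IsUltrametricDist.norm_add_le_max _ _).trans (max_le ((hstep m).trans ?_) ih)
      exact mul_le_mul_of_nonneg_left (pow_le_pow_of_le_one (by positivity) hpi hm) hD0
  have hcau : CauchySeq y := by
    apply cauchySeq_of_le_geometric (p : ℝ)⁻¹ D hpi1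
    intro n
    rw [dist_comm, dist_eq_norm]
    exact hstep n
  obtain ⟨l, hl⟩ := cauchySeq_tendsto_of_complete hcau
  have hlim : ∀ n, ‖l - y n‖ ≤ D * (p : ℝ)⁻¹ ^ n := by
    intro n
    have h1 : Tendsto (fun m => ‖y m - y n‖) atTop (𝓝 ‖l - y n‖) := (hl.sub_const _).norm
    exact le_of_tendsto h1 (eventually_atTop.2 ⟨n, fun m hm => hdiff n m hm⟩)
  have hl2 : ∀ n : ℕ, ‖(p : E) ^ n * l - (u ^ (p ^ n) - 1)‖ ≤ p * ‖u ^ (p ^ n) - 1‖ ^ 2 := by
    intro n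
    have h1 : (p : E) ^ n * l - (u ^ (p ^ n) - 1) = (p : E) ^ n * (l - y n) := by
      rw [hy]
      simp only
      field_simp
    rw [h1, norm_mul, hpn, hu1]
    calc (p : ℝ)⁻¹ ^ n * ‖l - y n‖ ≤ (p : ℝ)⁻¹ ^ n * (D * (p : ℝ)⁻¹ ^ n) := by
          gcongr
          exact hlim n
      _ = p * (‖u - 1‖ * (p : ℝ)⁻¹ ^ n) ^ 2 := by rw [hD]; ring
  refine ⟨l, ?_, pe_log p hu hl2⟩
  have h0 := hl2 0
  simp only [pow_zero, one_mul, pow_one] at h0
  have h1 : l = (l - (u - 1)) + (u - 1) := by ring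
  have h2 : ‖l‖ ≤ ‖u - 1‖ := by
    rw [h1]
    refine (IsUltrametricDist.norm_add_le_max _ _).trans (max_le (h0.trans (pe_small p hu)) le_rfl)
  exact le_trans (by gcongr) hu

open Classical in
/-- The logarithm near `1`. -/
noncomputable def lg (u : E) : E :=
  if h : ‖u - 1‖ * (p : ℝ) ^ 3 ≤ 1 then (exists_log p h).choose else 0

theorem lg_small (u : E) : ‖lg p u‖ * (p : ℝ) ^ 3 ≤ 1 := by
  unfold lg
  split_ifs with h
  · exact (exists_log p h).choose_spec.1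
  · simp

theorem pe_lg {u : E} (h : ‖u - 1‖ * (p : ℝ) ^ 3 ≤ 1) : pe (lg p u) = u := by
  unfold lg
  rw [dif_pos h]
  exact (exists_log p h).choose_spec.2

/-- the exponential is near one -/
theorem norm_pe_sub_one {y : E} (hy : ‖y‖ * (p : ℝ) ^ 3 ≤ 1) : ‖pe y - 1‖ = ‖y‖ := by
  rcases eq_or_ne y 0 with h0 | h0
  · rw [h0, pe_zero, sub_self]
  · have hp2 : (2 : ℝ) ≤ p := by exact_mod_cast hp.out.two_le
    have hy0 : 0 < ‖y‖ := norm_pos_iff.2 h0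
    have h1 : ‖pe y - 1 - y‖ < ‖y‖ := by
      refine lt_of_le_of_lt ((pe_approx p hy).trans (pe_small' p hy)) ?_
      have h4 : ((p : ℝ) ^ 2)⁻¹ < 1 := inv_lt_one_of_one_lt₀ (by nlinarith)
      nlinarith
    have h2 : pe y - 1 = (pe y - 1 - y) + y := by ring
    rw [h2, IsUltrametricDist.norm_add_eq_max_of_norm_ne_norm h1.ne, max_eq_right h1.le]

theorem lg_pe {y : E} (hy : ‖y‖ * (p : ℝ) ^ 3 ≤ 1) : lg p (pe y) = y := by
  have h1 : ‖pe y - 1‖ * (p : ℝ) ^ 3 ≤ 1 := by rw [norm_pe_sub_one p hy]; exact hy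
  exact pe_injective p (lg_small p _) hy (pe_lg p h1)

theorem norm_lg {u : E} (h : ‖u - 1‖ * (p : ℝ) ^ 3 ≤ 1) : ‖lg p u‖ = ‖u - 1‖ := by
  conv_rhs => rw [← pe_lg p h]
  rw [norm_pe_sub_one p (lg_small p u)]

theorem near_mul {u v : E} (hu : ‖u - 1‖ * (p : ℝ) ^ 3 ≤ 1) (hv : ‖v - 1‖ * (p : ℝ) ^ 3 ≤ 1) :
    ‖u * v - 1‖ * (p : ℝ) ^ 3 ≤ 1 := by
  have h1 : u * v = pe (lg p u + lg p v) := by
    rw [pe_add p (lg_small p u) (lg_small p v), pe_lg p hu, pe_lg p hv]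
  have h2 := norm_sum_small p (lg_small p u) (lg_small p v)
  rw [h1, norm_pe_sub_one p h2]
  exact h2

theorem lg_mul {u v : E} (hu : ‖u - 1‖ * (p : ℝ) ^ 3 ≤ 1) (hv : ‖v - 1‖ * (p : ℝ) ^ 3 ≤ 1) :
    lg p (u * v) = lg p u + lg p v := by
  have h1 : u * v = pe (lg p u + lg p v) := by
    rw [pe_add p (lg_small p u) (lg_small p v), pe_lg p hu, pe_lg p hv]
  rw [h1, lg_pe p (norm_sum_small p (lg_small p u) (lg_small p v))]

theorem lg_one : lg p (1 : E) = 0 := by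
  have h := lg_pe p (y := (0 : E)) (by simp)
  rwa [pe_zero] at h

theorem near_one : ‖(1 : E) - 1‖ * (p : ℝ) ^ 3 ≤ 1 := by simp

theorem lg_eq_zero {u : E} (hu : ‖u - 1‖ * (p : ℝ) ^ 3 ≤ 1) (h : lg p u = 0) : u = 1 := by
  rw [← pe_lg p hu, h, pe_zero]

theorem lg_pow {u : E} (hu : ‖u - 1‖ * (p : ℝ) ^ 3 ≤ 1) (n : ℕ) :
    ‖u ^ n - 1‖ * (p : ℝ) ^ 3 ≤ 1 ∧ lg p (u ^ n) = n * lg p u := by
  induction n with
  | zero => simp [lg_one]
  | succ n ih =>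
    rw [pow_succ]
    refine ⟨near_mul p ih.1 hu, ?_⟩
    rw [lg_mul p ih.1 hu, ih.2]
    push_cast
    ring

/-- a continuous homomorphism with values near one has a continuous logarithm -/
theorem continuous_lg {G : Type*} [TopologicalSpace G] [Group G] [IsTopologicalGroup G]
    (f : G → E) (hm : ∀ g h, f (g * h) = f g * f h) (h1 : f 1 = 1)
    (hc : Continuous f) (hn : ∀ g, ‖f g - 1‖ * (p : ℝ) ^ 3 ≤ 1) :
    Continuous fun g => lg p (f g) := by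
  let F : G →* Multiplicative E :=
    { toFun := fun g => Multiplicative.ofAdd (lg p (f g))
      map_one' := by rw [h1, lg_one, ofAdd_zero]
      map_mul' := fun a b => by rw [hm, lg_mul p (hn a) (hn b), ofAdd_add] }
  have hF : ContinuousAt F 1 := by
    have h2 : Tendsto (fun g => lg p (f g)) (𝓝 1) (𝓝 0) := by
      rw [tendsto_zero_iff_norm_tendsto_zero]
      have h3 : (fun g => ‖lg p (f g)‖) = fun g => ‖f g - 1‖ := by
        funext g
        exact norm_lg p (hn g)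
      rw [h3]
      have h4 : Tendsto (fun g => ‖f g - 1‖) (𝓝 1) (𝓝 ‖f 1 - 1‖) :=
        ((hc.tendsto 1).sub_const 1).norm
      rwa [h1, sub_self, norm_zero] at h4
    show Tendsto F (𝓝 1) (𝓝 (F 1))
    rw [map_one]
    exact h2
  have h3 : Continuous F := continuous_of_continuousAt_one F hF
  exact h3

end Pool.Agent.Y115.Lg
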