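import Pool.Agent.Y115.ZExt

set_option autoImplicit false
set_option linter.unusedSectionVars false

/-!
# Homomorphisms from the absolute Galois group of `ℚ` to the `p`-adic numbers are proportional
-/

namespace Pool.Agent.Y115.Z

open NumberField Pool.Agent.W569.FM Pool.Agent.W134.FM Pool.Agent.TH831.OT Multiplicative

theorem exists_restrict {F : Type} [Field F] {C : Type} [Field C] [Algebra F C] [IsAlgClosed C]
    (σ : C ≃ₐ[F] C) : ∃ (φ : AlgebraicClosure F →ₐ[F] C) (c : GF F), ∀ x, φ (c x) = σ (φ x) := by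
  let φ : AlgebraicClosure F →ₐ[F] C := IsAlgClosed.lift
  let _ : Algebra (AlgebraicClosure F) C := φ.toRingHom.toAlgebra
  have : IsScalarTower F (AlgebraicClosure F) C := IsScalarTower.of_algebraMap_eq fun x =>
    (φ.commutes x).symm
  refine ⟨φ, σ.restrictNormal (AlgebraicClosure F), fun x => ?_⟩
  exact σ.restrictNormal_commutes (AlgebraicClosure F) x

/-- complex conjugation -/
theorem exists_conj : ∃ c : GF ℚ, c * c = 1 ∧ ∀ (w : OO ℚ) (n : ℕ), 0 < n → w ^ n = 1 →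
    c • w * w = 1 := by
  obtain ⟨φ, c, hc⟩ := exists_restrict (F := ℚ) (C := ℂ) (Complex.conjAe.restrictScalars ℚ)
  refine ⟨c, ?_, ?_⟩
  · apply AlgEquiv.ext
    intro x
    apply φ.injective
    show φ (c (c x)) = φ x
    rw [hc, hc]
    exact Complex.conj_conj _
  · intro w n hn hw
    apply RingOfIntegers.ext
    have e1 : ((c • w * w : OO ℚ) : AlgebraicClosure ℚ) = c (w : AlgebraicClosure ℚ) * w :=
      map_mul (algebraMap (OO ℚ) (AlgebraicClosure ℚ)) _ _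
    have e2 : ((1 : OO ℚ) : AlgebraicClosure ℚ) = 1 :=
      map_one (algebraMap (OO ℚ) (AlgebraicClosure ℚ))
    rw [e1, e2]
    apply φ.injective
    show φ (c (w : AlgebraicClosure ℚ) * w) = φ 1
    rw [map_mul, hc, map_one]
    have h1 : (φ (w : AlgebraicClosure ℚ)) ^ n = 1 := by
      rw [← map_pow]
      have h2 : (w : AlgebraicClosure ℚ) ^ n = 1 := by
        have h3 := congrArg (fun x : OO ℚ => (x : AlgebraicClosure ℚ)) hw
        exact (map_pow (algebraMap (OO ℚ) (AlgebraicClosure ℚ)) w n).symm.trans (h3.trans e2)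
      rw [h2, map_one]
    have h2 : ‖φ (w : AlgebraicClosure ℚ)‖ = 1 := Complex.norm_eq_one_of_pow_eq_one h1 hn.ne'
    have h3 : (starRingEnd ℂ) (φ (w : AlgebraicClosure ℚ)) * φ (w : AlgebraicClosure ℚ) = 1 := by
      rw [Complex.conj_mul', h2]
      norm_num
    exact h3

theorem isOpen_zmod {p : ℕ} {F : GF ℚ → ZMod p} (hF : IsAdd F) :
    IsOpen (hF.hom.ker : Set (GF ℚ)) ↔ IsOpen {g | F g = 0} := by
  have e : (hF.hom.ker : Set (GF ℚ)) = {g | F g = 0} := by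
    ext g
    rw [SetLike.mem_coe, MonoidHom.mem_ker]
    exact ofAdd_eq_one
  rw [e]

/-- `p = 2`: homomorphisms to `ℤ / 2` unramified outside `2` and trivial on complex conjugation
are multiples of one of them. -/
theorem one_dim_two : ∃ ψ : GF ℚ → ZMod 2, ∀ F : GF ℚ → ZMod 2, IsAdd F →
    IsOpen {g | F g = 0} → (∀ l : ℕ, l.Prime → l ≠ 2 → ∀ P : Ideal (OO ℚ), P.IsMaximal →
      (l : OO ℚ) ∈ P → ∀ τ : GF ℚ, InInertia P τ → F τ = 0) → (∀ c : GF ℚ, c * c = 1 → F c = 0) →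
    ∃ c : ZMod 2, ∀ g, F g = c * ψ g := by
  obtain ⟨P, hP⟩ := exists_primes
  have h80 : (8 : ℕ) ≠ 0 := by norm_num
  have : NeZero (8 : ℕ) := ⟨h80⟩
  obtain ⟨ζ, hζ⟩ := HasEnoughRootsOfUnity.exists_primitiveRoot (AlgebraicClosure ℚ) 8
  have hζi : IsIntegral ℤ ζ := IsIntegral.of_pow (by norm_num : 0 < 8)
    (by rw [hζ.pow_eq_one]; exact isIntegral_one)
  let w : OO ℚ := ⟨ζ, hζi⟩
  have hwp : ∀ a : ℕ, ((w ^ a : OO ℚ) : AlgebraicClosure ℚ) = ζ ^ a := fun a =>
    map_pow (algebraMap (OO ℚ) (AlgebraicClosure ℚ)) w _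
  have hwprim : IsPrimitiveRoot w 8 := by
    have h1 : IsPrimitiveRoot (algebraMap (OO ℚ) (AlgebraicClosure ℚ) w) 8 := hζ
    exact h1.of_map_of_injective RingOfIntegers.coe_injective
  have hw4 : w ^ 4 = -1 := by
    have h1 : w ^ 4 * w ^ 4 = 1 := by rw [← pow_add]; exact hwprim.pow_eq_one
    rcases mul_self_eq_one_iff.1 h1 with h | h
    · exact absurd (hwprim.dvd_of_pow_eq_one 4 h) (by norm_num)
    · exact h
  set χ : GF ℚ →* (ZMod 8)ˣ := hζ.autToPow ℚ with hχ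
  have hspec : ∀ g : GF ℚ, ζ ^ ((χ g : (ZMod 8)ˣ) : ZMod 8).val = g ζ :=
    fun g => hζ.autToPow_spec ℚ g
  have hact : ∀ g : GF ℚ, g • w = w ^ ((χ g : (ZMod 8)ˣ) : ZMod 8).val := by
    intro g
    apply RingOfIntegers.ext
    rw [hwp, hspec]
    rfl
  have hval : ∀ (g : GF ℚ) (a : ℕ), g • w = w ^ a →
      ((χ g : (ZMod 8)ˣ) : ZMod 8) = a := by
    intro g a h
    rw [hact] at h
    have h1 := congrArg (fun y : OO ℚ => (y : AlgebraicClosure ℚ)) h
    simp only [hwp] at h1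
    have h2 : ((χ g : (ZMod 8)ˣ) : ZMod 8).val ≡ a [MOD 8] := by
      rw [pow_eq_pow_mod a hζ.pow_eq_one] at h1
      have h3 := hζ.pow_inj (ZMod.val_lt _) (Nat.mod_lt _ (Nat.pos_of_ne_zero h80)) h1
      rw [h3]
      exact Nat.mod_modEq _ _
    have h3 := (ZMod.natCast_eq_natCast_iff _ _ _).2 h2
    rwa [ZMod.natCast_zmod_val] at h3
  have hχ1 : ∀ g : GF ℚ, χ g = 1 → g • w = w := by
    intro g h
    rw [hact, h, Units.val_one]
    exact pow_one w
  have hχo : IsOpen (χ.ker : Set (GF ℚ)) := by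
    have h1 : IsOpen (MulAction.stabilizer (GF ℚ) ζ : Set (GF ℚ)) := isOpen_stab ζ
    refine Subgroup.isOpen_mono (H₁ := MulAction.stabilizer (GF ℚ) ζ) ?_ h1
    intro g hg
    rw [MulAction.mem_stabilizer_iff] at hg
    have h2 : g • w = w ^ 1 := by
      apply RingOfIntegers.ext
      rw [pow_one]
      exact hg
    have h3 := hval g 1 h2
    rw [MonoidHom.mem_ker]
    exact Units.ext (by rw [h3]; simp)
  -- ramification
  have hχur : ∀ l : ℕ, l.Prime → l ≠ 2 → ∀ τ : GF ℚ, InInertia (P l) τ → χ τ = 1 := by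
    intro l hl hl2 τ hτ
    have h8P : ((8 : ℕ) : OO ℚ) ∉ P l := by
      intro h
      have h2 : ((2 : ℕ) : OO ℚ) ∈ P l := by
        have e : ((8 : ℕ) : OO ℚ) = ((2 : ℕ) : OO ℚ) ^ 3 := by norm_num
        rw [e] at h
        exact (hP l hl).1.isPrime.mem_of_pow_mem 3 h
      exact hl2 (char_unique (hP l hl).1 hl Nat.prime_two (hP l hl).2 h2)
    have h2 : τ • w = w := by
      refine root_eq (hP l hl).1.ne_top h8P ?_ hwprim.pow_eq_one (hτ w) h80
      rw [← smul_pow', hwprim.pow_eq_one, smul_one]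
    have h3 := hval τ 1 (by rw [pow_one, h2])
    exact Units.ext (by rw [h3]; simp)
  set a4 : GF ℚ → ZMod 2 := fun g => toAdd (u4 (χ g)) with ha4
  set a8 : GF ℚ → ZMod 2 := fun g => toAdd (u8 (χ g)) with ha8
  have h4add : IsAdd a4 := fun g h => by rw [ha4]; simp only; rw [map_mul, map_mul, toAdd_mul]
  have h8add : IsAdd a8 := fun g h => by rw [ha8]; simp only; rw [map_mul, map_mul, toAdd_mul]
  have hker : ∀ g : GF ℚ, a4 g = 0 → a8 g = 0 → χ g = 1 := fun g h1 h2 =>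
    u_eq_one _ (toAdd.injective h1) (toAdd.injective h2)
  have hχ0 : ∀ g : GF ℚ, χ g = 1 → a4 g = 0 ∧ a8 g = 0 := by
    intro g h
    have h1 : u4 (χ g) = 1 := by rw [h, map_one]
    have h2 : u8 (χ g) = 1 := by rw [h, map_one]
    exact ⟨congrArg toAdd h1, congrArg toAdd h2⟩
  -- automorphisms of the eighth roots of unity
  have haut : ∀ a : ℕ, Nat.Coprime a 8 → ∃ g : GF ℚ, ((χ g : (ZMod 8)ˣ) : ZMod 8) = a := by
    intro a ha
    have h1 : IsPrimitiveRoot (ζ ^ a) 8 := hζ.pow_of_coprime _ ha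
    obtain ⟨g, hg⟩ := exists_aut (F := ℚ) (minpoly_root (by norm_num) h1 hζ)
    refine ⟨g, hval g a ?_⟩
    apply RingOfIntegers.ext
    rw [hwp]
    exact hg
  -- a combination which is not trivial is ramified at two
  have hram : ∀ x y : ZMod 2, (∃ g : GF ℚ, x * a4 g + y * a8 g ≠ 0) →
      ∃ τ : GF ℚ, InInertia (P 2) τ ∧ x * a4 τ + y * a8 τ ≠ 0 := by
    intro x y ⟨g, hg⟩
    by_contra hcon
    push Not at hcon
    apply hg
    have hadd : IsAdd fun g => x * a4 g + y * a8 g := fun g h => by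
      simp only
      rw [h4add, h8add]
      ring
    refine trivial_of _ hadd ?_ P hP (fun l hl τ hτ => ?_) g
    · rw [← isOpen_zmod hadd]
      refine Subgroup.isOpen_mono (H₁ := χ.ker) ?_ hχo
      intro g hg
      rw [MonoidHom.mem_ker] at hg ⊢
      obtain ⟨h1, h2⟩ := hχ0 g hg
      show ofAdd (x * a4 g + y * a8 g) = 1
      rw [h1, h2, mul_zero, mul_zero, add_zero, ofAdd_zero]
    · by_cases hl2 : l = 2
      · rw [hl2] at hτ
        exact hcon τ hτ
      · obtain ⟨h1, h2⟩ := hχ0 τ (hχur l hl hl2 τ hτ)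
        rw [h1, h2, mul_zero, mul_zero, add_zero]
  have hu : ∀ (g : GF ℚ) (a : ℕ) (u : (ZMod 8)ˣ), (u : ZMod 8) = a →
      ((χ g : (ZMod 8)ˣ) : ZMod 8) = a → χ g = u := fun g a u h1 h2 => Units.ext (h2.trans h1.symm)
  obtain ⟨g3, hg3⟩ := haut 3 (by norm_num)
  obtain ⟨g7, hg7⟩ := haut 7 (by norm_num)
  obtain ⟨g5, hg5⟩ := haut 5 (by norm_num)
  have e3 := hu g3 3 ⟨3, 3, by decide, by decide⟩ rfl hg3
  have e5 := hu g5 5 ⟨5, 5, by decide, by decide⟩ rfl hg5
  have e7 := hu g7 7 ⟨7, 7, by decide, by decide⟩ rfl hg7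
  have v3 : a4 g3 = 1 ∧ a8 g3 = 1 := by rw [ha4, ha8]; simp only; rw [e3]; decide
  have v5 : a4 g5 = 0 ∧ a8 g5 = 1 := by rw [ha4, ha8]; simp only; rw [e5]; decide
  have v7 : a4 g7 = 1 ∧ a8 g7 = 0 := by rw [ha4, ha8]; simp only; rw [e7]; decide
  obtain ⟨t1, ht1, hv1⟩ := hram 1 0 ⟨g7, by rw [v7.1, v7.2]; decide⟩
  obtain ⟨t2, ht2, hv2⟩ := hram 0 1 ⟨g5, by rw [v5.1, v5.2]; decide⟩
  obtain ⟨t3, ht3, hv3⟩ := hram 1 1 ⟨g5, by rw [v5.1, v5.2]; decide⟩
  obtain ⟨⟨ta, hta, hva⟩, ⟨tb, htb, hvb⟩⟩ :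
      (∃ t : GF ℚ, InInertia (P 2) t ∧ a4 t = 1 ∧ a8 t = 0) ∧
      (∃ t : GF ℚ, InInertia (P 2) t ∧ a4 t = 0 ∧ a8 t = 1) := by
    have hz : ∀ z : ZMod 2, z = 0 ∨ z = 1 := by decide
    have w1 : a4 t1 = 1 := by
      rcases hz (a4 t1) with h | h
      · exfalso; apply hv1; rw [h]; ring
      · exact h
    have w2 : a8 t2 = 1 := by
      rcases hz (a8 t2) with h | h
      · exfalso; apply hv2; rw [h]; ring
      · exact h
    rcases hz (a8 t1) with h1 | h1
    · refine ⟨⟨t1, ht1, w1, h1⟩, ?_⟩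
      rcases hz (a4 t2) with h2 | h2
      · exact ⟨t2, ht2, h2, w2⟩
      · refine ⟨t1 * t2, inertia_mul ht1 ht2, ?_, ?_⟩
        · rw [h4add, w1, h2]; decide
        · rw [h8add, h1, w2]; decide
    · rcases hz (a4 t3) with h2 | h2 <;> rcases hz (a8 t3) with h3 | h3
      · exfalso; apply hv3; rw [h2, h3]; ring
      · refine ⟨⟨t1 * t3, inertia_mul ht1 ht3, ?_, ?_⟩, ⟨t3, ht3, h2, h3⟩⟩
        · rw [h4add, w1, h2]; decide
        · rw [h8add, h1, h3]; decide
      · refine ⟨⟨t3, ht3, h2, h3⟩, ⟨t1 * t3, inertia_mul ht1 ht3, ?_, ?_⟩⟩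
        · rw [h4add, w1, h2]; decide
        · rw [h8add, h1, h3]; decide
      · exfalso; apply hv3; rw [h2, h3]; decide
  refine ⟨a8, fun F hF hFo hFur hFc => ?_⟩
  have hadd : IsAdd fun g => F g - F ta * a4 g - F tb * a8 g := fun g h => by
    simp only
    rw [hF, h4add, h8add]
    ring
  have hzero := trivial_of _ hadd (by
      rw [← isOpen_zmod hadd]
      have h1 : IsOpen ((hF.hom.ker ⊓ χ.ker : Subgroup (GF ℚ)) : Set (GF ℚ)) := by
        rw [Subgroup.coe_inf]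
        exact ((isOpen_zmod hF).2 hFo).inter hχo
      refine Subgroup.isOpen_mono ?_ h1
      rintro g ⟨h2, h3⟩
      rw [MonoidHom.mem_ker]
      have h2' : F g = 0 := ofAdd_eq_one.1 h2
      obtain ⟨h4, h5⟩ := hχ0 g h3
      show ofAdd (F g - F ta * a4 g - F tb * a8 g) = 1
      rw [h2', h4, h5, mul_zero, mul_zero, sub_zero, sub_zero, ofAdd_zero]) P hP (by
      intro l hl τ hτ
      by_cases hl2 : l = 2
      · rw [hl2] at hτ
        -- make the values zero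
        have hz : ∀ z : ZMod 2, z = 0 ∨ z = 1 := by decide
        have hcore : ∀ t : GF ℚ, InInertia (P 2) t → a4 t = 0 → a8 t = 0 → F t = 0 :=
          fun t ht h1 h2 => two_core (hP 2 Nat.prime_two).1 (hP 2 Nat.prime_two).2 hw4 F hF hFo ht
            (hχ1 t (hker t h1 h2))
        rcases hz (a4 τ) with h1 | h1 <;> rcases hz (a8 τ) with h2 | h2
        · rw [h1, h2, hcore τ hτ h1 h2]; ring
        · have h3 := hcore (tb * τ) (inertia_mul htb hτ) (by rw [h4add, hvb.1, h1]; decide)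
            (by rw [h8add, hvb.2, h2]; decide)
          rw [hF] at h3
          rw [h1, h2]
          have h4 : ∀ x y : ZMod 2, x + y = 0 → y - F ta * 0 - x * 1 = 0 := by
            intro x y h
            have h5 : ∀ x y : ZMod 2, x + y = 0 → y = x := by decide
            rw [h5 x y h]; ring
          exact h4 _ _ h3
        · have h3 := hcore (ta * τ) (inertia_mul hta hτ) (by rw [h4add, hva.1, h1]; decide)
            (by rw [h8add, hva.2, h2]; decide)
          rw [hF] at h3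
          rw [h1, h2]
          have h5 : ∀ x y : ZMod 2, x + y = 0 → y = x := by decide
          rw [h5 _ _ h3]; ring
        · have h3 := hcore (ta * (tb * τ)) (inertia_mul hta (inertia_mul htb hτ))
            (by rw [h4add, h4add, hva.1, hvb.1, h1]; decide)
            (by rw [h8add, h8add, hva.2, hvb.2, h2]; decide)
          rw [hF, hF] at h3
          rw [h1, h2]
          have h5 : ∀ x y z : ZMod 2, x + (y + z) = 0 → z - x * 1 - y * 1 = 0 := by decide
          exact h5 _ _ _ h3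
      · obtain ⟨h1, h2⟩ := hχ0 τ (hχur l hl hl2 τ hτ)
        rw [h1, h2, hFur l hl hl2 (P l) (hP l hl).1 (hP l hl).2 τ hτ]
        ring)
  -- complex conjugation
  obtain ⟨c, hcc, hcw⟩ := exists_conj
  have h1 := hcw w 8 (by norm_num) hwprim.pow_eq_one
  have h2 : c • w = w ^ 7 := by
    have h3 : w ^ 7 * w = 1 := by rw [← pow_succ]; exact hwprim.pow_eq_one
    have hw0 : w ≠ 0 := hwprim.ne_zero h80
    exact mul_right_cancel₀ hw0 (h1.trans h3.symm)
  have e7c := hu c 7 ⟨7, 7, by decide, by decide⟩ rfl (hval c 7 h2)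
  have vc : a4 c = 1 ∧ a8 c = 0 := by rw [ha4, ha8]; simp only; rw [e7c]; decide
  have h3 : F c - F ta * a4 c - F tb * a8 c = 0 := hzero c
  rw [hFc c hcc, vc.1, vc.2] at h3
  have h4 : F ta = 0 := by linear_combination -h3
  refine ⟨F tb, fun g => ?_⟩
  have h5 : F g - F ta * a4 g - F tb * a8 g = 0 := hzero g
  rw [h4] at h5
  linear_combination h5

/-- homomorphisms to `ℤ_p` are proportional modulo `p` -/
theorem one_dim (p : ℕ) [hp : Fact p.Prime] : ∃ ψ : GF ℚ → ZMod p, ∀ φ : GF ℚ → ℤ_[p],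
    IsAdd φ → Continuous φ → ∃ c : ZMod p, ∀ g, PadicInt.toZMod (φ g) = c * ψ g := by
  have hcommon : ∀ φ : GF ℚ → ℤ_[p], IsAdd φ → Continuous φ →
      IsAdd (fun g => PadicInt.toZMod (φ g)) ∧ IsOpen {g | PadicInt.toZMod (φ g) = 0} ∧
      (∀ l : ℕ, l.Prime → l ≠ p → ∀ P : Ideal (OO ℚ), P.IsMaximal →
      (l : OO ℚ) ∈ P → ∀ τ : GF ℚ, InInertia P τ → PadicInt.toZMod (φ τ) = 0) ∧
      (∀ c : GF ℚ, c * c = 1 → PadicInt.toZMod (φ c) = 0) := by
    intro φ hφ hc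
    refine ⟨fun g h => by simp only; rw [hφ, map_add], isOpen_ker_toZMod.preimage hc, ?_, ?_⟩
    · intro l hl hlp P hP hlP τ hτ
      rw [unram hφ hc hl hlp hP hlP hτ, map_zero]
    · intro c hcc
      have h1 := hφ c c
      rw [hcc, hφ.one] at h1
      have h2 : φ c = 0 := by
        have h3 : (2 : ℤ_[p]) * φ c = 0 := by linear_combination -h1
        exact (mul_eq_zero.1 h3).resolve_left two_ne_zero
      rw [h2, map_zero]
  by_cases hp2 : p = 2
  · subst hp2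
    obtain ⟨ψ, hψ⟩ := one_dim_two
    refine ⟨ψ, fun φ hφ hc => ?_⟩
    obtain ⟨h1, h2, h3, h4⟩ := hcommon φ hφ hc
    exact hψ _ h1 h2 h3 h4
  · obtain ⟨ψ, hψ⟩ := one_dim_odd hp2
    refine ⟨ψ, fun φ hφ hc => ?_⟩
    obtain ⟨h1, h2, h3, -⟩ := hcommon φ hφ hc
    exact hψ _ h1 h2 h3

/-- **Continuous homomorphisms from the absolute Galois group of `ℚ` to the `p`-adic numbers are
proportional.** -/
theorem proportional (p : ℕ) [hp : Fact p.Prime] (lam φ : GF ℚ → ℚ_[p]) (hl : IsAdd lam)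
    (hφ : IsAdd φ) (hlc : Continuous lam) (hφc : Continuous φ) (hl0 : ∃ g, lam g ≠ 0) :
    ∃ c : ℚ_[p], ∀ g, φ g = c * lam g := by
  obtain ⟨ψ, hψ⟩ := one_dim p
  have hcpt : CompactSpace (GF ℚ) := inferInstance
  -- maximal values
  have hmax : ∀ f : GF ℚ → ℚ_[p], Continuous f → (∃ g, f g ≠ 0) →
      ∃ g, f g ≠ 0 ∧ ∀ h, ‖f h / f g‖ ≤ 1 := by
    intro f hf ⟨g0, hg0⟩
    obtain ⟨g, -, hg⟩ := isCompact_univ.exists_isMaxOn (s := (Set.univ : Set (GF ℚ)))
      ⟨1, trivial⟩ (hf.norm.continuousOn)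
    have hg' : ∀ h, ‖f h‖ ≤ ‖f g‖ := fun h => hg (Set.mem_univ h)
    have h1 : f g ≠ 0 := by
      intro h
      have := hg' g0
      rw [h, norm_zero] at this
      exact hg0 (norm_le_zero_iff.1 this)
    refine ⟨g, h1, fun h => ?_⟩
    rw [norm_div, div_le_one (norm_pos_iff.2 h1)]
    exact hg' h
  -- integral version
  have hint : ∀ f : GF ℚ → ℚ_[p], IsAdd f → Continuous f → (hb : ∀ g, ‖f g‖ ≤ 1) →
      ∃ c : ZMod p, ∀ g, PadicInt.toZMod (⟨f g, hb g⟩ : ℤ_[p]) = c * ψ g := by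
    intro f hf hfc hb
    refine hψ (fun g => ⟨f g, hb g⟩) (fun g h => ?_) ?_
    · apply Subtype.ext
      exact hf g h
    · exact Continuous.subtype_mk hfc _
  obtain ⟨g1, hg1, hb1⟩ := hmax lam hlc hl0
  refine ⟨φ g1 / lam g1, ?_⟩
  by_contra hcon
  push Not at hcon
  obtain ⟨g0, hg0⟩ := hcon
  set φ' : GF ℚ → ℚ_[p] := fun g => φ g - φ g1 / lam g1 * lam g with hφ'
  have hadd' : IsAdd φ' := fun g h => by
    rw [hφ']
    simp only
    rw [hφ, hl]
    ring
  have hcont' : Continuous φ' := hφc.sub (continuous_const.mul hlc)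
  obtain ⟨g2, hg2, hb2⟩ := hmax φ' hcont' ⟨g0, sub_ne_zero.2 hg0⟩
  have hz : φ' g1 = 0 := by
    rw [hφ']
    simp only
    rw [div_mul_cancel₀ _ hg1, sub_self]
  obtain ⟨c1, hc1⟩ := hint (fun g => lam g / lam g1) (fun g h => by
    simp only
    rw [hl, add_div]) (hlc.div_const _) hb1
  obtain ⟨c2, hc2⟩ := hint (fun g => φ' g / φ' g2) (fun g h => by
    simp only
    rw [hadd', add_div]) (hcont'.div_const _) hb2
  have h1 := hc1 g1
  have h2 := hc2 g1
  have h3 := hc2 g2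
  have e1 : (⟨lam g1 / lam g1, hb1 g1⟩ : ℤ_[p]) = (1 : ℤ_[p]) := PadicInt.ext (div_self hg1)
  have e2 : (⟨φ' g1 / φ' g2, hb2 g1⟩ : ℤ_[p]) = (0 : ℤ_[p]) := PadicInt.ext (by
    show φ' g1 / φ' g2 = 0
    rw [hz, zero_div])
  have e3 : (⟨φ' g2 / φ' g2, hb2 g2⟩ : ℤ_[p]) = (1 : ℤ_[p]) := PadicInt.ext (div_self hg2)
  rw [e1, map_one] at h1
  rw [e2, map_zero] at h2
  rw [e3, map_one] at h3
  rcases mul_eq_zero.1 h2.symm with h | h
  · rw [h, zero_mul] at h3
    exact one_ne_zero h3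
  · rw [h, mul_zero] at h1
    exact one_ne_zero h1

end Pool.Agent.Y115.Z
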