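import Pool.Agent.Y115.SixExp
import Pool.Agent.Y115.Log
import Pool.Agent.Y115.ZExt2
import Pool.Agent.Y115.Chi

set_option autoImplicit false
set_option linter.unusedSectionVars false

/-!
# Characters of the absolute Galois group of `ℚ` with algebraic Frobenius values
-/

namespace Pool.Agent.Y115.CQ

open NumberField Pool.Agent.W569.FM Pool.Agent.Y115.Lg Pool.Agent.Y115.Z Pool.Agent.Y115.Chi
open Pool.Agent.W245.PB

section expo

variable (ℓ : ℕ) [hℓ : Fact ℓ.Prime] {E : Type*} [NormedField E] [CompleteSpace E]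
  [IsUltrametricDist E] [NormedAlgebra ℚ_[ℓ] E] [CharZero E]

theorem norm_eq_one {u : E} (hu : ‖u - 1‖ * (ℓ : ℝ) ^ 3 ≤ 1) : ‖u‖ = 1 := by
  have hl2 : (2 : ℝ) ≤ ℓ := by exact_mod_cast hℓ.out.two_le
  have h1 : ‖u - 1‖ < ‖(1 : E)‖ := by
    rw [norm_one]
    have h3 : (1 : ℝ) < (ℓ : ℝ) ^ 3 := one_lt_pow₀ (by linarith) (by norm_num)
    by_contra hcon
    push Not at hcon
    nlinarith
  have h2 : u = (u - 1) + 1 := by ring
  rw [h2, IsUltrametricDist.norm_add_eq_max_of_norm_ne_norm h1.ne, max_eq_right h1.le, norm_one]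

/-- the units near one -/
def nearOne : Subgroup Eˣ where
  carrier := {u | ‖(u : E) - 1‖ * (ℓ : ℝ) ^ 3 ≤ 1}
  one_mem' := by simp
  mul_mem' := by
    intro u v hu hv
    exact near_mul ℓ hu hv
  inv_mem' := by
    intro u hu
    have h1 : ‖(u : E)‖ = 1 := norm_eq_one ℓ hu
    have h2 : ((u⁻¹ : Eˣ) : E) - 1 = -(((u⁻¹ : Eˣ) : E) * ((u : E) - 1)) := by
      rw [mul_sub, Units.inv_mul]
      ring
    show ‖((u⁻¹ : Eˣ) : E) - 1‖ * (ℓ : ℝ) ^ 3 ≤ 1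
    rw [h2, norm_neg, norm_mul, Units.val_inv_eq_inv_val, norm_inv, h1, inv_one, one_mul]
    exact hu

theorem isOpen_nearOne : IsOpen (nearOne ℓ : Subgroup Eˣ).carrier := by
  have hl0 : (0 : ℝ) < ℓ := by exact_mod_cast hℓ.out.pos
  apply Subgroup.isOpen_of_mem_nhds (g := 1)
  have h1 : Continuous fun u : Eˣ => ‖(u : E) - 1‖ * (ℓ : ℝ) ^ 3 := by fun_prop
  have h2 : IsOpen {u : Eˣ | ‖(u : E) - 1‖ * (ℓ : ℝ) ^ 3 < 1} := isOpen_lt h1 continuous_const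
  refine Filter.mem_of_superset (h2.mem_nhds ?_) ?_
  · simp
  · intro u hu
    exact le_of_lt (show ‖(u : E) - 1‖ * (ℓ : ℝ) ^ 3 < 1 from hu)

theorem exists_exp {G : Type*} [Group G] [TopologicalSpace G] [IsTopologicalGroup G]
    [CompactSpace G] (θ : G →* Eˣ) (hc : Continuous θ) :
    ∃ N : ℕ, 0 < N ∧ ∀ g, ‖(θ g : E) ^ N - 1‖ * (ℓ : ℝ) ^ 3 ≤ 1 := by
  set U : Subgroup G := (nearOne ℓ : Subgroup Eˣ).comap θ with hU
  have hopen : IsOpen (U : Set G) := (isOpen_nearOne ℓ (E := E)).preimage hc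
  have hfin : Finite (G ⧸ U) := Subgroup.quotient_finite_of_isOpen U hopen
  have hN : 0 < U.index := Nat.card_pos
  refine ⟨U.index, hN, fun g => ?_⟩
  have h1 : g ^ U.index ∈ U := Subgroup.pow_index_mem U g
  have h2 : θ (g ^ U.index) ∈ (nearOne ℓ : Subgroup Eˣ) := h1
  rw [map_pow] at h2
  have h3 : ‖((θ g ^ U.index : Eˣ) : E) - 1‖ * (ℓ : ℝ) ^ 3 ≤ 1 := h2
  rwa [Units.val_pow_eq_pow_val] at h3

end expo

section prod

variable (ℓ : ℕ) [hℓ : Fact ℓ.Prime] {E : Type*} [NormedField E] [CompleteSpace E]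
  [IsUltrametricDist E] [NormedAlgebra ℚ_[ℓ] E] [CharZero E]

theorem lg_prod {ι : Type*} (s : Finset ι) (u : ι → E) (hu : ∀ i, ‖u i - 1‖ * (ℓ : ℝ) ^ 3 ≤ 1)
    (a : ι → ℕ) : ‖∏ i ∈ s, u i ^ a i - 1‖ * (ℓ : ℝ) ^ 3 ≤ 1 ∧
      lg ℓ (∏ i ∈ s, u i ^ a i) = ∑ i ∈ s, (a i : E) * lg ℓ (u i) := by
  classical
  induction s using Finset.induction_on with
  | empty => simp [lg_one]
  | insert i s hi ih =>
    rw [Finset.prod_insert hi, Finset.sum_insert hi]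
    obtain ⟨h1, h2⟩ := lg_pow ℓ (hu i) (a i)
    exact ⟨near_mul ℓ h1 ih.1, by rw [lg_mul ℓ h1 ih.1, h2, ih.2]⟩

theorem nat_prod_inj {l : Fin 3 → ℕ} (hl : ∀ i, (l i).Prime) (hinj : Function.Injective l)
    {a b : Fin 3 → ℕ} (h : ∏ i, l i ^ a i = ∏ i, l i ^ b i) : a = b := by
  have key : ∀ c : Fin 3 → ℕ, ∀ j, (∏ i, l i ^ c i).factorization (l j) = c j := by
    intro c j
    rw [Nat.factorization_prod (fun i _ => (pow_pos (hl i).pos _).ne'), Finsupp.finsetSum_apply]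
    have h1 : ∀ i, (l i ^ c i).factorization (l j) = if i = j then c j else 0 := by
      intro i
      rw [(hl i).factorization_pow, Finsupp.single_apply]
      by_cases hij : i = j
      · rw [if_pos hij, hij, if_pos rfl]
      · rw [if_neg hij, if_neg fun h => hij (hinj h)]
    simp only [h1]
    simp
  funext j
  rw [← key a j, ← key b j, h]

theorem pe_map {y : ℚ_[ℓ]} (hy : ‖y‖ * (ℓ : ℝ) ^ 3 ≤ 1) :
    algebraMap ℚ_[ℓ] E (pe y) = pe (algebraMap ℚ_[ℓ] E y) := by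
  have hs := (bd_ex ℓ hy).summable (by norm_num) (w := 1) (by simp)
  have h1 : algebraMap ℚ_[ℓ] E (pe y) = algebraMapCLM ℚ_[ℓ] E (pe y) := rfl
  rw [h1]
  unfold pe ev
  rw [ContinuousLinearMap.map_tsum _ hs]
  apply tsum_congr
  intro n
  rw [coeff_ex, coeff_ex]
  show algebraMap ℚ_[ℓ] E _ = _
  rw [map_mul, map_div₀, map_pow, map_pow, map_natCast, map_one]

theorem lg_map {u : ℚ_[ℓ]} (hu : ‖u - 1‖ * (ℓ : ℝ) ^ 3 ≤ 1) :
    algebraMap ℚ_[ℓ] E (lg ℓ u) = lg ℓ (algebraMap ℚ_[ℓ] E u) := by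
  have h1 : ‖algebraMap ℚ_[ℓ] E (lg ℓ u)‖ * (ℓ : ℝ) ^ 3 ≤ 1 := by
    rw [norm_algebraMap']
    exact lg_small ℓ u
  rw [← lg_pe ℓ h1, ← pe_map ℓ (lg_small ℓ u), pe_lg ℓ hu]

/-- the logarithms of powers of distinct primes are linearly independent -/
theorem int_indep {l : Fin 3 → ℕ} (hl : ∀ i, (l i).Prime) (hinj : Function.Injective l) {N : ℕ}
    (hN0 : 0 < N) (hlN : ∀ i, ‖(l i : E) ^ N - 1‖ * (ℓ : ℝ) ^ 3 ≤ 1) (z : Fin 3 → ℤ)
    (hz : ∑ i, (z i : E) * lg ℓ ((l i : E) ^ N) = 0) : ∀ i, z i = 0 := by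
  set a : Fin 3 → ℕ := fun i => (z i).toNat with ha
  set b : Fin 3 → ℕ := fun i => (-z i).toNat with hb
  have hab : ∀ i, (z i) = (a i : ℤ) - (b i : ℤ) := by
    intro i
    rw [ha, hb]
    simp only
    omega
  obtain ⟨h1, h2⟩ := lg_prod ℓ Finset.univ (fun i => (l i : E) ^ N) hlN a
  obtain ⟨h3, h4⟩ := lg_prod ℓ Finset.univ (fun i => (l i : E) ^ N) hlN b
  have h5 : lg ℓ (∏ i, ((l i : E) ^ N) ^ a i) = lg ℓ (∏ i, ((l i : E) ^ N) ^ b i) := by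
    rw [h2, h4, ← sub_eq_zero, ← Finset.sum_sub_distrib, ← hz]
    refine Finset.sum_congr rfl fun i _ => ?_
    rw [hab i]
    push_cast
    ring
  have h6 : (∏ i, ((l i : E) ^ N) ^ a i) = ∏ i, ((l i : E) ^ N) ^ b i := by
    rw [← pe_lg ℓ h1, ← pe_lg ℓ h3, h5]
  have h7 : (∏ i, l i ^ (N * a i)) = ∏ i, l i ^ (N * b i) := by
    simp only [← pow_mul] at h6
    exact_mod_cast h6
  have h8 := nat_prod_inj hl hinj h7
  intro i
  have h9 : N * a i = N * b i := congrFun h8 i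
  have h10 := Nat.eq_of_mul_eq_mul_left hN0 h9
  rw [hab i, h10, sub_self]

end prod

section main

variable {ℓ : ℕ} [hℓ : Fact ℓ.Prime] {E : Type*} [NormedField E] [CompleteSpace E]
  [IsUltrametricDist E] [NormedAlgebra ℚ_[ℓ] E] [CharZero E] [FiniteDimensional ℚ_[ℓ] E]

/-- the cyclotomic character with values in `E` -/
noncomputable def chiE (ℓ : ℕ) [Fact ℓ.Prime] (E : Type*) [NormedField E]
    [NormedAlgebra ℚ_[ℓ] E] : GF ℚ →* Eˣ :=
  (Units.map ((algebraMap ℚ_[ℓ] E : ℚ_[ℓ] →+* E).comp (PadicInt.Coe.ringHom (p := ℓ)) :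
    ℤ_[ℓ] →* E)).comp (chi ℚ ℓ)

theorem coe_chiE (g : GF ℚ) :
    (chiE ℓ E g : E) = algebraMap ℚ_[ℓ] E (((chi ℚ ℓ g : ℤ_[ℓ]ˣ) : ℤ_[ℓ]) : ℚ_[ℓ]) := rfl

theorem additive_scalar (lam : GF ℚ → ℚ_[ℓ]) (hl : IsAdd lam) (hlc : Continuous lam)
    (hl0 : ∃ g, lam g ≠ 0) (φ : GF ℚ → E) (hφ : IsAdd φ) (hφc : Continuous φ) :
    ∃ s : E, ∀ g, φ g = s * algebraMap ℚ_[ℓ] E (lam g) := by
  let b := Module.finBasis ℚ_[ℓ] E
  have h1 : ∀ i, ∃ c : ℚ_[ℓ], ∀ g, b.coord i (φ g) = c * lam g := by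
    intro i
    refine proportional ℓ lam (fun g => b.coord i (φ g)) hl (fun g h => ?_) hlc ?_ hl0
    · show b.coord i (φ (g * h)) = b.coord i (φ g) + b.coord i (φ h)
      rw [hφ, map_add]
    · exact (LinearMap.continuous_of_finiteDimensional (b.coord i)).comp hφc
  choose c hc using h1
  refine ⟨∑ i, c i • b i, fun g => ?_⟩
  rw [← b.sum_repr (φ g), Finset.sum_mul]
  refine Finset.sum_congr rfl fun i _ => ?_
  have h2 : b.repr (φ g) i = c i * lam g := hc i g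
  rw [h2, mul_smul, Algebra.smul_mul_assoc, Algebra.smul_def (lam g), mul_comm (b i)]

/-- **Characters of the absolute Galois group of `ℚ` whose values at three Frobenius elements are
algebraic** are, up to finite order, rational powers of the cyclotomic character. -/
theorem char_main (θ : GF ℚ →* Eˣ) (hθ : Continuous θ) (l : Fin 3 → ℕ) (hl : ∀ i, (l i).Prime)
    (hinj : Function.Injective l) (hlℓ : ∀ i, l i ≠ ℓ) (P : Fin 3 → Ideal (OO ℚ))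
    (hP : ∀ i, (P i).IsPrime) (hPl : ∀ i, (l i : OO ℚ) ∈ P i) (σ : Fin 3 → GF ℚ)
    (hσ : ∀ i, FrobAt (l i) (P i) (σ i)) (halg : ∀ i, IsAlgebraic ℚ (θ (σ i) : E)) :
    ∃ (N : ℕ) (a : ℤ), 0 < N ∧ ∀ g, θ g ^ N = chiE ℓ E g ^ a := by
  have hcpt : CompactSpace (GF ℚ) := inferInstance
  -- the character of `ℚ_ℓ`
  set κ : GF ℚ →* ℚ_[ℓ]ˣ := chiE ℓ ℚ_[ℓ] with hκ
  have hκc : Continuous κ := by
    have h1 : Continuous (chi ℚ ℓ) := continuous_chi ℚ ℓ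
    have h2 : Continuous (Units.map ((algebraMap ℚ_[ℓ] ℚ_[ℓ] : ℚ_[ℓ] →+* ℚ_[ℓ]).comp
      (PadicInt.Coe.ringHom (p := ℓ)) : ℤ_[ℓ] →* ℚ_[ℓ])) := by
      apply Continuous.units_map
      exact continuous_subtype_val
    exact h2.comp h1
  obtain ⟨N1, hN1, h1⟩ := exists_exp ℓ θ hθ
  obtain ⟨N2, hN2, h2⟩ := exists_exp ℓ κ hκc
  set N := N1 * N2 with hN
  have hN0 : 0 < N := Nat.mul_pos hN1 hN2
  have hθN : ∀ g, ‖(θ g : E) ^ N - 1‖ * (ℓ : ℝ) ^ 3 ≤ 1 := by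
    intro g
    rw [hN, pow_mul]
    exact (lg_pow ℓ (h1 g) N2).1
  have hκN : ∀ g, ‖(κ g : ℚ_[ℓ]) ^ N - 1‖ * (ℓ : ℝ) ^ 3 ≤ 1 := by
    intro g
    rw [hN, mul_comm N1 N2, pow_mul]
    exact (lg_pow ℓ (h2 g) N1).1
  set lam : GF ℚ → ℚ_[ℓ] := fun g => lg ℓ ((κ g : ℚ_[ℓ]) ^ N) with hlam
  set φ : GF ℚ → E := fun g => lg ℓ ((θ g : E) ^ N) with hφ
  have hlamadd : IsAdd lam := by
    intro g h
    rw [hlam]
    simp only
    rw [map_mul, Units.val_mul, mul_pow, lg_mul ℓ (hκN g) (hκN h)]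
  have hφadd : IsAdd φ := by
    intro g h
    rw [hφ]
    simp only
    rw [map_mul, Units.val_mul, mul_pow, lg_mul ℓ (hθN g) (hθN h)]
  have hlamc : Continuous lam := by
    refine continuous_lg ℓ (fun g => (κ g : ℚ_[ℓ]) ^ N) ?_ ?_ ?_ hκN
    · intro g h
      rw [map_mul, Units.val_mul, mul_pow]
    · simp
    · exact (Units.continuous_val.comp hκc).pow N
  have hφc : Continuous φ := by
    refine continuous_lg ℓ (fun g => (θ g : E) ^ N) ?_ ?_ ?_ hθN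
    · intro g h
      rw [map_mul, Units.val_mul, mul_pow]
    · simp
    · exact (Units.continuous_val.comp hθ).pow N
  -- values at Frobenius elements
  have hlP : ∀ i, (ℓ : OO ℚ) ∉ P i := by
    intro i h
    have hcop : Nat.Coprime (l i) ℓ := (Nat.coprime_primes (hl i) hℓ.out).2 (hlℓ i)
    apply (hP i).ne_top
    rw [Ideal.eq_top_iff_one]
    have h3 := Nat.gcd_eq_gcd_ab (l i) ℓ
    rw [hcop.gcd_eq_one] at h3
    have h4 : (1 : OO ℚ) = (l i : OO ℚ) * ((l i).gcdA ℓ : OO ℚ) + (ℓ : OO ℚ) *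
      ((l i).gcdB ℓ : OO ℚ) := by exact_mod_cast congrArg (Int.cast : ℤ → OO ℚ) h3
    rw [h4]
    exact (P i).add_mem ((P i).mul_mem_right _ (hPl i)) ((P i).mul_mem_right _ h)
  have hκσ : ∀ i, (κ (σ i) : ℚ_[ℓ]) = (l i : ℚ_[ℓ]) := by
    intro i
    have h3 := chi_frob (hP i) (hlP i) (hσ i)
    rw [hκ, coe_chiE, h3]
    simp
  have hlN : ∀ i, ‖(l i : ℚ_[ℓ]) ^ N - 1‖ * (ℓ : ℝ) ^ 3 ≤ 1 := by
    intro i
    rw [← hκσ i]
    exact hκN _
  have hl0 : ∃ g, lam g ≠ 0 := by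
    refine ⟨σ 0, fun h => ?_⟩
    have h3 := lg_eq_zero ℓ (hκN (σ 0)) h
    rw [hκσ] at h3
    have h4 : (l 0) ^ N = 1 := by exact_mod_cast h3
    have := (hl 0).one_lt
    exact absurd h4 (Nat.one_lt_pow hN0.ne' this).ne'
  obtain ⟨s, hs⟩ := additive_scalar lam hlamadd hlamc hl0 φ hφadd hφc
  -- linear independence
  have hlamσ : ∀ i, lam (σ i) = lg ℓ ((l i : ℚ_[ℓ]) ^ N) := fun i => by
    rw [hlam]
    simp only
    rw [hκσ]
  have hintli : ∀ z : Fin 3 → ℤ, ∑ i, (z i : ℚ_[ℓ]) * lam (σ i) = 0 → ∀ i, z i = 0 := by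
    intro z hz
    simp only [hlamσ] at hz
    exact int_indep ℓ hl hinj hN0 hlN z hz
  have hli : LinearIndependent ℚ fun i => algebraMap ℚ_[ℓ] E (lam (σ i)) := by
    rw [Fintype.linearIndependent_iff]
    intro q hq
    -- clear denominators
    set d : ℕ := ∏ i, (q i).den with hd
    have hd0 : d ≠ 0 := Finset.prod_ne_zero_iff.2 fun i _ => (q i).den_nz
    have hz : ∀ i, ∃ z : ℤ, (z : ℚ) = d * q i := by
      intro i
      obtain ⟨m, hm⟩ : (q i).den ∣ d := Finset.dvd_prod_of_mem _ (Finset.mem_univ i)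
      refine ⟨m * (q i).num, ?_⟩
      rw [hm]
      push_cast
      have h3 := Rat.den_mul_eq_num (q i)
      rw [← h3]
      ring
    choose z hz using hz
    have h3 : ∑ i, (z i : ℚ_[ℓ]) * lam (σ i) = 0 := by
      apply (algebraMap ℚ_[ℓ] E).injective
      rw [map_zero, map_sum]
      have h4 : ∑ i, (d : E) * (q i • algebraMap ℚ_[ℓ] E (lam (σ i))) = 0 := by
        rw [← Finset.mul_sum, hq, mul_zero]
      rw [← h4]
      refine Finset.sum_congr rfl fun i _ => ?_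
      rw [map_mul, map_intCast, Algebra.smul_def, ← mul_assoc]
      congr 1
      have h5 : ((z i : ℚ) : E) = ((d : ℚ) * q i : ℚ) := by rw [hz i]
      rw [eq_ratCast]
      push_cast at h5
      exact h5
    intro i
    have h4 := hintli z h3 i
    have h5 := hz i
    rw [h4, Int.cast_zero] at h5
    rcases mul_eq_zero.1 h5.symm with h6 | h6
    · exact absurd (by exact_mod_cast h6) hd0
    · exact h6
  -- the exponential is compatible with the embedding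
  have hchiN : ∀ g, ‖(chiE ℓ E g : E) ^ N - 1‖ * (ℓ : ℝ) ^ 3 ≤ 1 := by
    intro g
    have h3 : (chiE ℓ E g : E) ^ N - 1 = algebraMap ℚ_[ℓ] E ((κ g : ℚ_[ℓ]) ^ N - 1) := by
      rw [map_sub, map_pow, map_one]
      rfl
    rw [h3, norm_algebraMap']
    exact hκN g
  have hlgmap : ∀ g, algebraMap ℚ_[ℓ] E (lam g) = lg ℓ ((chiE ℓ E g : E) ^ N) := by
    intro g
    rw [hlam]
    simp only
    rw [lg_map ℓ (hκN g), map_pow]
    rfl
  have hsx : ∀ i, s * algebraMap ℚ_[ℓ] E (lam (σ i)) = lg ℓ ((θ (σ i) : E) ^ N) := fun i =>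
    (hs (σ i)).symm
  obtain ⟨r, hr⟩ := Six.six ℓ s (fun i => algebraMap ℚ_[ℓ] E (lam (σ i)))
    (fun i => by
      rw [norm_algebraMap']
      exact lg_small ℓ _)
    (fun i => by
      rw [hsx]
      exact lg_small ℓ _) hli
    (fun i => by
      rw [hlgmap, pe_lg ℓ (hchiN _)]
      apply IsAlgebraic.pow
      have h3 : (chiE ℓ E (σ i) : E) = (l i : E) := by
        have h4 : (chiE ℓ E (σ i) : E) = algebraMap ℚ_[ℓ] E (κ (σ i) : ℚ_[ℓ]) := rfl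
        rw [h4, hκσ, map_natCast]
      rw [h3]
      exact isAlgebraic_natCast (l i))
    (fun i => by
      rw [hsx, pe_lg ℓ (hθN _)]
      exact (halg i).pow N)
  -- conclusion
  refine ⟨N * r.den, N * r.num, Nat.mul_pos hN0 r.den_pos, fun g => ?_⟩
  have h3 : lg ℓ (((θ g : E) ^ N) ^ r.den) = (r.num : E) * lg ℓ ((chiE ℓ E g : E) ^ N) := by
    rw [(lg_pow ℓ (hθN g) r.den).2, ← hlgmap]
    have h4 : lg ℓ ((θ g : E) ^ N) = s * algebraMap ℚ_[ℓ] E (lam g) := hs g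
    rw [h4, hr, ← mul_assoc]
    congr 1
    have h5 : ((r.den : ℚ) : E) * (r : E) = ((r.num : ℚ) : E) := by
      rw [← Rat.cast_mul, Rat.den_mul_eq_num]
    push_cast at h5
    exact h5
  have hinv : ∀ u : Eˣ, ‖(u : E) - 1‖ * (ℓ : ℝ) ^ 3 ≤ 1 → ∀ m : ℤ,
      ‖((u ^ m : Eˣ) : E) - 1‖ * (ℓ : ℝ) ^ 3 ≤ 1 ∧ lg ℓ ((u ^ m : Eˣ) : E) = m * lg ℓ (u : E) := by
    intro u hu m
    have hun : ∀ m : ℤ, ‖((u ^ m : Eˣ) : E) - 1‖ * (ℓ : ℝ) ^ 3 ≤ 1 := fun m =>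
      (nearOne ℓ : Subgroup Eˣ).zpow_mem (x := u) hu m
    refine ⟨hun m, ?_⟩
    obtain ⟨k, rfl | rfl⟩ := m.eq_nat_or_neg
    · rw [zpow_natCast, Units.val_pow_eq_pow_val, (lg_pow ℓ hu k).2]
      simp
    · have h6 := lg_mul ℓ (hun (-(k : ℤ))) (hun k)
      rw [← Units.val_mul, ← zpow_add, neg_add_cancel, zpow_zero, Units.val_one, lg_one,
        zpow_natCast, Units.val_pow_eq_pow_val, (lg_pow ℓ hu k).2] at h6
      rw [eq_neg_of_add_eq_zero_left h6.symm]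
      push_cast
      ring
  have h4 : ‖((chiE ℓ E g ^ N : Eˣ) : E) - 1‖ * (ℓ : ℝ) ^ 3 ≤ 1 := by
    rw [Units.val_pow_eq_pow_val]
    exact hchiN g
  obtain ⟨h5, h6⟩ := hinv _ h4 r.num
  obtain ⟨h7, -⟩ := lg_pow ℓ (hθN g) r.den
  apply Units.ext
  have h8 : lg ℓ (((θ g : E) ^ N) ^ r.den) = lg ℓ (((chiE ℓ E g ^ N) ^ r.num : Eˣ) : E) := by
    rw [h3, h6, Units.val_pow_eq_pow_val]
  have h9 : ((θ g : E) ^ N) ^ r.den = (((chiE ℓ E g ^ N) ^ r.num : Eˣ) : E) := by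
    rw [← pe_lg ℓ h7, ← pe_lg ℓ h5, h8]
  rw [Units.val_pow_eq_pow_val, pow_mul, h9, zpow_mul, zpow_natCast]

end main

end Pool.Agent.Y115.CQ
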