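import Pool.Agent.Y115.Rep
import Pool.Agent.Y115.Tr4

set_option autoImplicit false
set_option linter.unusedSectionVars false

/-!
# The determinant of a stable subspace of a pure `ℓ`-adic representation
-/

namespace Pool.Agent.Y115.M

open NumberField IsDedekindDomain Pool.Agent.W569.FM Pool.Agent.W571.FM Pool.Agent.Y115.R
open Pool.Agent.Y115.T Pool.Agent.Y115.Chi Polynomial Module

section misc

theorem norm_multiset_prod (A : Multiset ℂ) (r : ℝ) (h : ∀ a ∈ A, ‖a‖ ^ 2 = r) :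
    ‖A.prod‖ ^ 2 = r ^ Multiset.card A := by
  induction A using Multiset.induction_on with
  | empty => simp
  | cons a s ih =>
    rw [Multiset.prod_cons, norm_mul, mul_pow, h a (Multiset.mem_cons_self a s),
      ih fun b hb => h b (Multiset.mem_cons_of_mem hb), Multiset.card_cons, pow_succ']

theorem isAlgebraic_multiset_prod {A : Multiset ℂ} (h : ∀ a ∈ A, IsAlgebraic ℚ a) :
    IsAlgebraic ℚ A.prod := by
  induction A using Multiset.induction_on with
  | empty =>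
    rw [Multiset.prod_zero]
    exact isAlgebraic_one
  | cons a s ih =>
    rw [Multiset.prod_cons]
    exact (h a (Multiset.mem_cons_self a s)).mul
      (ih fun b hb => h b (Multiset.mem_cons_of_mem hb))

end misc

variable {F : Type} [Field F] [NumberField F] {E : Type} [Field E] [NumberField E]
variable (ℓ : ℕ) [hℓ : Fact ℓ.Prime] {K : Type} [NormedField K]
  [NormedAlgebra ℚ_[ℓ] K] [FiniteDimensional ℚ_[ℓ] K]

/-- **The main theorem on stable subspaces.** -/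
theorem exists_A {n : ℕ} (ρ : GF F →* GL (Fin n) K) (hρ : Continuous ρ) (w : ℤ) (τ : E →+* K)
    (ι : E →+* ℂ) (T : Set ℕ) (hT3 : 3 ≤ T.encard) (hT : ∀ p ∈ T, p.Prime ∧ p ≠ ℓ ∧ Unram F p)
    (P : HeightOneSpectrum (𝓞 F) → E[X])
    (hgood : ∀ p ∈ T, ∀ v : HeightOneSpectrum (𝓞 F), (p : 𝓞 F) ∈ v.asIdeal → ∀ Q : Ideal (OO F),
      Q.IsPrime → cm Q = v.asIdeal → (∀ g, InInertia Q g → ρ g = 1) ∧
        ∀ g, FrobAt (Ideal.absNorm v.asIdeal) Q g →
          ((ρ g⁻¹ : GL (Fin n) K) : Matrix (Fin n) (Fin n) K).charpoly = (P v).map τ)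
    (hpure : ∀ p ∈ T, ∀ v : HeightOneSpectrum (𝓞 F), (p : 𝓞 F) ∈ v.asIdeal →
      ∀ a ∈ ((P v).map ι).roots, ‖a‖ ^ 2 = (Ideal.absNorm v.asIdeal : ℝ) ^ w)
    (W : Submodule K (Fin n → K)) (hW : ∀ g, W ≤ W.comap (act ρ g)) :
    ∃ A : HeightOneSpectrum (𝓞 F) → Multiset ℂ,
      (∀ p ∈ T, ∀ v : HeightOneSpectrum (𝓞 F), (p : 𝓞 F) ∈ v.asIdeal →
        Multiset.card (A v) = finrank K W ∧ A v ≤ ((P v).map ι).roots ∧
        ∀ b : LinearMap.BilinForm K (Fin n → K), (∀ x, (∀ y, b x y = 0) → x = 0) →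
          (∀ g x y, b (act ρ g x) (act ρ g y) =
            (algebraMap ℚ_[ℓ] K (((chi F ℓ g : ℤ_[ℓ]ˣ) : ℤ_[ℓ]) : ℚ_[ℓ])) ^ (-w) * b x y) →
          (∀ x ∈ W, ∀ y ∈ W, b x y = 0) →
          A v + (A v).map (fun a => (Ideal.absNorm v.asIdeal : ℂ) ^ w / a) ≤
            ((P v).map ι).roots) ∧
      ∀ p ∈ T, ∃ N : ℕ, 0 < N ∧
        (∏ᶠ (v : HeightOneSpectrum (𝓞 F)) (_ : (p : 𝓞 F) ∈ v.asIdeal), (A v).prod) ^ (2 * N) =
          (p : ℂ) ^ (w * finrank K W * finrank ℚ F * N) := by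
  classical
  have hcompl : CompleteSpace K := FiniteDimensional.complete ℚ_[ℓ] K
  have hultra : IsUltrametricDist K := IsUltrametricDist.of_normedAlgebra ℚ_[ℓ]
  have hchar : CharZero K := charZero_of_injective_algebraMap (algebraMap ℚ_[ℓ] K).injective
  obtain ⟨j, hj⟩ := exists_j ℓ K E τ ι
  have hjP : ∀ v, ((P v).map τ).map j = (P v).map ι := by
    intro v
    rw [Polynomial.map_map]
    congr 1
    exact RingHom.ext hj
  -- a Frobenius element at each place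
  have hfr : ∀ v : HeightOneSpectrum (𝓞 F), ∃ (Q : Ideal (OO F)) (σ : GF F), Q.IsMaximal ∧
      cm Q = v.asIdeal ∧ FrobAt (Ideal.absNorm v.asIdeal) Q σ := fun v => frob_cm v
  choose Q₀ σ₀ hQ₀ hQ₀v hσ₀ using hfr
  set ψ : GF F →* Kˣ := dt ρ W hW with hψ
  have hψc : Continuous ψ := continuous_dt ℓ ρ hρ W hW
  set C : HeightOneSpectrum (𝓞 F) → K[X] := fun v => (res ρ W hW (σ₀ v)⁻¹).charpoly with hC
  set A : HeightOneSpectrum (𝓞 F) → Multiset ℂ := fun v => ((C v).map j).roots with hA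
  have hcharV : ∀ p ∈ T, ∀ v : HeightOneSpectrum (𝓞 F), (p : 𝓞 F) ∈ v.asIdeal →
      ((act ρ (σ₀ v)⁻¹).charpoly).map j = (P v).map ι := by
    intro p hp v hv
    have h1 := (hgood p hp v hv (Q₀ v) (hQ₀ v).isPrime (hQ₀v v)).2 (σ₀ v) (hσ₀ v)
    rw [← hjP, ← h1]
    unfold act
    rw [Matrix.charpoly_mulVecLin]
  have hcard : ∀ v, Multiset.card (A v) = finrank K W := by
    intro v
    have hsplit : ((C v).map j).Splits := IsAlgClosed.splits _
    rw [hA]
    simp only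
    rw [← hsplit.natDegree_eq_card_roots, Polynomial.natDegree_map, hC]
    exact LinearMap.charpoly_natDegree _
  have hle : ∀ p ∈ T, ∀ v : HeightOneSpectrum (𝓞 F), (p : 𝓞 F) ∈ v.asIdeal →
      A v ≤ ((P v).map ι).roots := by
    intro p hp v hv
    rw [← hcharV p hp v hv]
    have h1 := Pool.Agent.W522.C.charpoly_eq_mul (act ρ (σ₀ v)⁻¹) W (hW _)
    have h2 : (act ρ (σ₀ v)⁻¹).charpoly.Monic := LinearMap.charpoly_monic _
    apply Polynomial.roots.le_of_dvd (h2.map j).ne_zero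
    exact Polynomial.map_dvd j (Dvd.intro _ h1.symm)
  -- the determinants
  have hprod : ∀ v, (A v).prod = j ((ψ (σ₀ v)⁻¹ : Kˣ) : K) := by
    intro v
    have hsplit : ((C v).map j).Splits := IsAlgClosed.splits _
    have hCm : (C v).Monic := LinearMap.charpoly_monic _
    have hdeg : (C v).natDegree = finrank K W := LinearMap.charpoly_natDegree _
    have h1 : ((ψ (σ₀ v)⁻¹ : Kˣ) : K) = LinearMap.det (res ρ W hW (σ₀ v)⁻¹) := rfl
    rw [h1, LinearMap.det_eq_sign_charpoly_coeff]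
    have h2 : (res ρ W hW (σ₀ v)⁻¹).charpoly = C v := rfl
    rw [h2, map_mul, map_pow, map_neg, map_one, ← coeff_map,
      hsplit.coeff_zero_eq_prod_roots_of_monic (hCm.map j), Polynomial.natDegree_map, hdeg,
      ← mul_assoc, ← pow_add, ← two_mul, pow_mul, neg_one_sq, one_pow, one_mul]
  have hd : ∀ p ∈ T, ∀ v : HeightOneSpectrum (𝓞 F), (p : 𝓞 F) ∈ v.asIdeal → ∀ Q : Ideal (OO F),
      Q.IsPrime → cm Q = v.asIdeal → (∀ g, InInertia Q g → ψ g = 1) ∧
        ∀ g, FrobAt (Ideal.absNorm v.asIdeal) Q g → ψ g = ψ (σ₀ v) := by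
    intro p hp v hv Q hQ hQv
    have hin : ∀ Q : Ideal (OO F), Q.IsPrime → cm Q = v.asIdeal → ∀ g, InInertia Q g →
        ψ g = 1 := by
      intro Q hQ hQv g hg
      exact dt_eq_one ρ W hW ((hgood p hp v hv Q hQ hQv).1 g hg)
    refine ⟨hin Q hQ hQv, fun g hg => ?_⟩
    obtain ⟨h, hh⟩ := exists_smul (Q₀ v) Q (hQ₀ v).isPrime hQ ((hQ₀v v).trans hQv.symm)
    have hq0 : Ideal.absNorm v.asIdeal ≠ 0 := by
      rw [Ne, Ideal.absNorm_eq_zero_iff]
      exact v.ne_bot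
    have h1 : FrobAt (Ideal.absNorm v.asIdeal) (Q₀ v) (h⁻¹ * g * h) := by
      intro x
      have h2 := (hh _).1 (hg (h • x))
      rw [smul_sub, smul_pow', inv_smul_smul, smul_smul, smul_smul] at h2
      exact h2
    have h2 := hin (Q₀ v) (hQ₀ v).isPrime (hQ₀v v) _ (frob_inertia hq0 (hQ₀ v).isPrime (hσ₀ v) h1)
    rw [map_mul, map_mul, map_mul, map_inv, map_inv, mul_comm (ψ h)⁻¹, mul_assoc (ψ g),
      inv_mul_cancel, mul_one, inv_mul_eq_one] at h2
    exact h2.symm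
  have halgroot : ∀ v, ∀ a ∈ ((P v).map ι).roots, IsAlgebraic ℚ a := by
    intro v a ha
    have h1 : (P v) ≠ 0 := by
      intro h
      rw [h, Polynomial.map_zero, roots_zero] at ha
      exact absurd ha (Multiset.notMem_zero a)
    let _ : Algebra E ℂ := ι.toAlgebra
    have h2 : IsAlgebraic E a := ⟨P v, h1, by
      rw [mem_roots'] at ha
      have h3 := ha.2
      rwa [IsRoot, eval_map] at h3⟩
    have : IsScalarTower ℚ E ℂ := IsScalarTower.of_algebraMap_eq fun x => by simp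
    exact IsAlgebraic.restrictScalars ℚ h2
  have hjalg : ∀ x : K, IsAlgebraic ℚ (j x) → IsAlgebraic ℚ x := by
    intro x hx
    exact (isAlgebraic_algHom_iff (RingHom.toRatAlgHom j) j.injective).1 hx
  have halg : ∀ p ∈ T, ∀ v : HeightOneSpectrum (𝓞 F), (p : 𝓞 F) ∈ v.asIdeal →
      IsAlgebraic ℚ (ψ (σ₀ v) : K) := by
    intro p hp v hv
    have h1 : IsAlgebraic ℚ (A v).prod := by
      apply isAlgebraic_multiset_prod
      intro a ha
      exact halgroot v a (Multiset.mem_of_le (hle p hp v hv) ha)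
    rw [hprod v] at h1
    have h2 := hjalg _ h1
    rw [map_inv, Units.val_inv_eq_inv_val] at h2
    exact IsAlgebraic.inv_iff.1 h2
  have key := place_relation ψ hψc T hT3 hT (fun v => ψ (σ₀ v)) hd halg
  refine ⟨A, ?_, ?_⟩
  · intro p hp v hv
    refine ⟨hcard v, hle p hp v hv, fun b hb hbg hiso => ?_⟩
    set c : K := (algebraMap ℚ_[ℓ] K (((chi F ℓ (σ₀ v)⁻¹ : ℤ_[ℓ]ˣ) : ℤ_[ℓ]) : ℚ_[ℓ])) ^ (-w)
      with hc
    have hq0 : Ideal.absNorm v.asIdeal ≠ 0 := by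
      rw [Ne, Ideal.absNorm_eq_zero_iff]
      exact v.ne_bot
    have hpQ : (p : OO F) ∈ Q₀ v := by
      rw [← natCast_mem_cm, hQ₀v]
      exact hv
    have hℓQ : (ℓ : OO F) ∉ Q₀ v :=
      not_mem_of_ne (hT p hp).1 (hT p hp).2.1 (hQ₀ v).ne_top hpQ
    have hχ := chi_frob (hQ₀ v).isPrime hℓQ (hσ₀ v)
    have hcq : c = (Ideal.absNorm v.asIdeal : K) ^ w := by
      have h1 : (algebraMap ℚ_[ℓ] K (((chi F ℓ (σ₀ v)⁻¹ : ℤ_[ℓ]ˣ) : ℤ_[ℓ]) : ℚ_[ℓ])) *
          (Ideal.absNorm v.asIdeal : K) = 1 := by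
        have h2 : ((chi F ℓ (σ₀ v)⁻¹ : ℤ_[ℓ]ˣ) : ℤ_[ℓ]) * ((chi F ℓ (σ₀ v) : ℤ_[ℓ]ˣ) : ℤ_[ℓ]) =
            1 := by
          rw [← Units.val_mul, ← map_mul, inv_mul_cancel, map_one, Units.val_one]
        rw [hχ] at h2
        have h3 := congrArg (fun z : ℤ_[ℓ] => algebraMap ℚ_[ℓ] K (z : ℚ_[ℓ])) h2
        simpa using h3
      rw [hc, eq_inv_of_mul_eq_one_left h1, inv_zpow', neg_neg]
    have hc0 : c ≠ 0 := by
      rw [hcq]
      exact zpow_ne_zero _ (Nat.cast_ne_zero.2 hq0)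
    have h1 := (L.isotropic_roots j b hb (act ρ (σ₀ v)⁻¹) hc0 (fun x y => hbg _ x y) W (hW _)
      hiso).2.1
    rw [hcharV p hp v hv] at h1
    have h2 : j c = (Ideal.absNorm v.asIdeal : ℂ) ^ w := by
      rw [hcq, map_zpow₀, map_natCast]
    rw [h2] at h1
    exact h1
  · intro p hp
    obtain ⟨S, N, a, hN, hS, heq, f, hf, hsum⟩ := key p hp
    refine ⟨N, hN, ?_⟩
    have hp0 : (p : ℂ) ≠ 0 := Nat.cast_ne_zero.2 (hT p hp).1.ne_zero
    have hfin : (∏ᶠ (v : HeightOneSpectrum (𝓞 F)) (_ : (p : 𝓞 F) ∈ v.asIdeal), (A v).prod) =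
        ∏ v ∈ S, (A v).prod := by
      apply finprod_cond_eq_prod_of_cond_iff
      intro v _
      exact (hS v).symm
    rw [hfin]
    have h1 : (∏ v ∈ S, (A v).prod) ^ N = (p : ℂ) ^ (-a) := by
      have h2 := congrArg j heq
      rw [map_pow, map_prod, map_zpow₀, map_natCast] at h2
      have h3 : ∏ v ∈ S, (A v).prod = (∏ v ∈ S, j (ψ (σ₀ v) : K))⁻¹ := by
        rw [← Finset.prod_inv_distrib]
        refine Finset.prod_congr rfl fun v _ => ?_
        rw [hprod, map_inv, Units.val_inv_eq_inv_val, map_inv₀]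
      rw [h3, inv_pow, h2, zpow_neg]
    have hnorm : ‖∏ v ∈ S, (A v).prod‖ ^ 2 = (p : ℝ) ^ (w * finrank K W * finrank ℚ F) := by
      have hp0' : (p : ℝ) ≠ 0 := Nat.cast_ne_zero.2 (hT p hp).1.ne_zero
      rw [norm_prod, ← Finset.prod_pow]
      have h2 : ∀ v ∈ S, ‖(A v).prod‖ ^ 2 = ((p : ℝ) ^ (w * finrank K W)) ^ f v := by
        intro v hv
        have hv' := (hS v).1 hv
        rw [norm_multiset_prod (A v) ((Ideal.absNorm v.asIdeal : ℝ) ^ w) fun a ha =>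
          hpure p hp v hv' a (Multiset.mem_of_le (hle p hp v hv') ha), hcard, hf v hv]
        push_cast
        rw [← zpow_natCast, ← zpow_natCast, ← zpow_natCast, ← zpow_mul, ← zpow_mul, ← zpow_mul]
        congr 1
        ring
      rw [Finset.prod_congr rfl h2, Finset.prod_pow_eq_pow_sum, hsum,
        zpow_mul (p : ℝ) (w * finrank K W) (finrank ℚ F), zpow_natCast]
    have hp1 : (1 : ℝ) < (p : ℝ) := by exact_mod_cast (hT p hp).1.one_lt
    have hexp : w * finrank K W * finrank ℚ F * N = -a * 2 := by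
      have h2 : ‖∏ v ∈ S, (A v).prod‖ ^ N = (p : ℝ) ^ (-a) := by
        rw [← norm_pow, h1, norm_zpow]
        simp
      have h3 : (p : ℝ) ^ (w * finrank K W * finrank ℚ F * N) = (p : ℝ) ^ (-a * 2) := by
        rw [zpow_mul, ← hnorm, zpow_mul, ← h2, zpow_natCast, ← pow_mul]
        have h4 : (2 : ℤ) = ((2 : ℕ) : ℤ) := rfl
        rw [h4, zpow_natCast, ← pow_mul, mul_comm]
      exact zpow_right_injective₀ (by linarith) hp1.ne' h3
    rw [hexp, mul_comm 2 N, pow_mul, h1, zpow_mul]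
    rfl

end Pool.Agent.Y115.M
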