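import Pool.Agent.Y115.FinIm
import Pool.Agent.Y115.Main

set_option autoImplicit false
set_option linter.unusedSectionVars false

/-!
# Representations over the algebraic closure of `ℚ_ℓ`
-/

namespace Pool.Agent.Y115.B

open NumberField IsDedekindDomain Pool.Agent.W569.FM Pool.Agent.W571.FM Pool.Agent.Y115.R
open Pool.Agent.Y115.T Pool.Agent.Y115.Chi Polynomial Module

variable {F : Type} [Field F] [NumberField F] (ℓ : ℕ) [hℓ : Fact ℓ.Prime]

/-- relations between the Frobenius values of a character with values in the algebraic closure -/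
theorem place_relation_bar (ψ : GF F →* (PadicAlgCl ℓ)ˣ) (hψ : Continuous ψ) (T : Set ℕ)
    (hT3 : 3 ≤ T.encard) (hT : ∀ p ∈ T, p.Prime ∧ p ≠ ℓ ∧ Unram F p)
    (d : HeightOneSpectrum (𝓞 F) → (PadicAlgCl ℓ)ˣ)
    (hd : ∀ p ∈ T, ∀ v : HeightOneSpectrum (𝓞 F), (p : 𝓞 F) ∈ v.asIdeal → ∀ Q : Ideal (OO F),
      Q.IsPrime → cm Q = v.asIdeal → (∀ τ, InInertia Q τ → ψ τ = 1) ∧
        ∀ φ, FrobAt (Ideal.absNorm v.asIdeal) Q φ → ψ φ = d v)
    (halg : ∀ p ∈ T, ∀ v : HeightOneSpectrum (𝓞 F), (p : 𝓞 F) ∈ v.asIdeal →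
      IsAlgebraic ℚ (d v : PadicAlgCl ℓ)) :
    ∀ p ∈ T, ∃ (S : Finset (HeightOneSpectrum (𝓞 F))) (N : ℕ) (a : ℤ), 0 < N ∧
      (∀ v, v ∈ S ↔ (p : 𝓞 F) ∈ v.asIdeal) ∧
      (∏ v ∈ S, (d v : PadicAlgCl ℓ)) ^ N = (p : PadicAlgCl ℓ) ^ a := by
  classical
  obtain ⟨K, hK, hψK⟩ := FI.exists_field ℓ ψ hψ
  let f : GF F →* K :=
    { toFun := fun g => ⟨(ψ g : PadicAlgCl ℓ), hψK g⟩
      map_one' := by
        apply Subtype.ext
        show ((ψ 1 : (PadicAlgCl ℓ)ˣ) : PadicAlgCl ℓ) = 1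
        rw [map_one, Units.val_one]
      map_mul' := by
        intro a b
        apply Subtype.ext
        show ((ψ (a * b) : (PadicAlgCl ℓ)ˣ) : PadicAlgCl ℓ) = ψ a * ψ b
        rw [map_mul, Units.val_mul] }
  set φ : GF F →* Kˣ := f.toHomUnits with hφ
  have hφv : ∀ g, ((φ g : K) : PadicAlgCl ℓ) = ψ g := fun g => rfl
  have hfc : Continuous f := Continuous.subtype_mk (Units.continuous_val.comp hψ) _
  have hφc : Continuous φ := by
    rw [Units.continuous_iff]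
    refine ⟨hfc, ?_⟩
    have h2 : (fun g => (((φ g)⁻¹ : Kˣ) : K)) = fun g => f g⁻¹ := by
      funext g
      rw [← map_inv]
      rfl
    rw [h2]
    exact hfc.comp continuous_inv
  have hcompl : CompleteSpace K := FiniteDimensional.complete ℚ_[ℓ] K
  have hultra : IsUltrametricDist K := IsUltrametricDist.of_normedAlgebra ℚ_[ℓ]
  have hchar : CharZero K := charZero_of_injective_algebraMap (algebraMap ℚ_[ℓ] K).injective
  have hinj : ∀ x y : Kˣ, ((x : K) : PadicAlgCl ℓ) = ((y : K) : PadicAlgCl ℓ) → x = y :=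
    fun x y h => Units.ext (Subtype.ext h)
  -- choose values
  have hch : ∀ v : HeightOneSpectrum (𝓞 F), ∃ e : Kˣ, (∃ p ∈ T, (p : 𝓞 F) ∈ v.asIdeal) →
      ((e : K) : PadicAlgCl ℓ) = d v := by
    intro v
    by_cases h : ∃ p ∈ T, (p : 𝓞 F) ∈ v.asIdeal
    · obtain ⟨p, hp, hv⟩ := h
      obtain ⟨Q, σ, hQ, hQv, hσ⟩ := frob_cm v
      refine ⟨φ σ, fun _ => ?_⟩
      rw [hφv, (hd p hp v hv Q hQ.isPrime hQv).2 σ hσ]
    · exact ⟨1, fun h' => absurd h' h⟩
  choose e he using hch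
  have key := place_relation φ hφc T hT3 hT e (by
    intro p hp v hv Q hQ hQv
    obtain ⟨h1, h2⟩ := hd p hp v hv Q hQ hQv
    refine ⟨fun τ hτ => ?_, fun g hg => ?_⟩
    · apply hinj
      rw [hφv, h1 τ hτ]
      rfl
    · apply hinj
      rw [hφv, h2 g hg, he v ⟨p, hp, hv⟩]) (by
    intro p hp v hv
    have h1 := halg p hp v hv
    rw [← he v ⟨p, hp, hv⟩] at h1
    exact (isAlgebraic_algHom_iff (RingHom.toRatAlgHom (algebraMap K (PadicAlgCl ℓ)))
      (algebraMap K (PadicAlgCl ℓ)).injective).1 h1)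
  intro p hp
  obtain ⟨S, N, a, hN, hS, heq, -⟩ := key p hp
  refine ⟨S, N, a, hN, hS, ?_⟩
  have h1 := congrArg (algebraMap K (PadicAlgCl ℓ)) heq
  rw [map_pow, map_prod, map_zpow₀, map_natCast] at h1
  rw [← h1]
  congr 1
  refine Finset.prod_congr rfl fun v hv => ?_
  exact (he v ⟨p, hp, (hS v).1 hv⟩).symm

section top

variable {G : Type*} [Group G] [TopologicalSpace G]
  [IsTopologicalGroup G] {n : ℕ} {K : Type*} [NormedField K] (ρ : G →* GL (Fin n) K)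

theorem continuous_dt' (hρ : Continuous ρ) (W : Submodule K (Fin n → K))
    (hW : ∀ g, W ≤ W.comap (act ρ g)) : Continuous (dt ρ W hW) := by
  classical
  have h1 : Continuous fun g => ((dt ρ W hW g : Kˣ) : K) := by
    let b := Module.finBasis K W
    have h2 : (fun g => ((dt ρ W hW g : Kˣ) : K)) =
        fun g => (LinearMap.toMatrix b b (res ρ W hW g)).det := by
      funext g
      rw [coe_dt, LinearMap.det_toMatrix]
    rw [h2]
    refine Continuous.matrix_det ?_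
    refine continuous_matrix fun i j => ?_
    simp only [LinearMap.toMatrix_apply]
    obtain ⟨c, hc⟩ := LinearMap.exists_extend (b.coord i)
    have h3 : (fun g => (b.repr (res ρ W hW g (b j))) i) =
        fun g => c (act ρ g (b j : Fin n → K)) := by
      funext g
      have h4 : b.coord i (res ρ W hW g (b j)) = c (act ρ g (b j : Fin n → K)) := by
        rw [← hc]
        rfl
      exact h4
    rw [h3]
    have h5 : Continuous c := LinearMap.continuous_on_pi c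
    refine h5.comp ?_
    simp only [act_apply]
    exact (Units.continuous_val.comp hρ).matrix_mulVec continuous_const
  rw [Units.continuous_iff]
  refine ⟨h1, ?_⟩
  have h2 : (fun g => (((dt ρ W hW g)⁻¹ : Kˣ) : K)) = fun g => ((dt ρ W hW g⁻¹ : Kˣ) : K) := by
    funext g
    rw [map_inv]
  rw [h2]
  exact h1.comp continuous_inv

end top

/-- **Stable subspaces and products of Frobenius eigenvalues**, over the algebraic closure of
`ℚ_ℓ` -/
theorem exists_A_bar {n : ℕ} (ρ : GF F →* GL (Fin n) (PadicAlgCl ℓ)) (hρ : Continuous ρ)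
    (ι : PadicAlgCl ℓ →+* ℂ) (T : Set ℕ) (hT3 : 3 ≤ T.encard)
    (hT : ∀ p ∈ T, p.Prime ∧ p ≠ ℓ ∧ Unram F p) (S : HeightOneSpectrum (𝓞 F) → Multiset ℂ)
    (hgood : ∀ p ∈ T, ∀ v : HeightOneSpectrum (𝓞 F), (p : 𝓞 F) ∈ v.asIdeal → ∀ Q : Ideal (OO F),
      Q.IsPrime → cm Q = v.asIdeal → (∀ g, InInertia Q g → ρ g = 1) ∧
        ∀ g, FrobAt (Ideal.absNorm v.asIdeal) Q g →
          (((ρ g⁻¹ : GL (Fin n) (PadicAlgCl ℓ)) :
            Matrix (Fin n) (Fin n) (PadicAlgCl ℓ)).charpoly.map ι).roots = S v)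
    (halg : ∀ p ∈ T, ∀ v : HeightOneSpectrum (𝓞 F), (p : 𝓞 F) ∈ v.asIdeal →
      ∀ a ∈ S v, IsAlgebraic ℚ a)
    (W : Submodule (PadicAlgCl ℓ) (Fin n → PadicAlgCl ℓ)) (hW : ∀ g, W ≤ W.comap (act ρ g)) :
    ∃ A : HeightOneSpectrum (𝓞 F) → Multiset ℂ,
      (∀ p ∈ T, ∀ v : HeightOneSpectrum (𝓞 F), (p : 𝓞 F) ∈ v.asIdeal →
        Multiset.card (A v) = finrank (PadicAlgCl ℓ) W ∧ A v ≤ S v) ∧
      ∀ p ∈ T, ∃ (N : ℕ) (a : ℤ), 0 < N ∧
        (∏ᶠ (v : HeightOneSpectrum (𝓞 F)) (_ : (p : 𝓞 F) ∈ v.asIdeal), (A v).prod) ^ N =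
          (p : ℂ) ^ a := by
  classical
  have hfr : ∀ v : HeightOneSpectrum (𝓞 F), ∃ (Q : Ideal (OO F)) (σ : GF F), Q.IsMaximal ∧
      cm Q = v.asIdeal ∧ FrobAt (Ideal.absNorm v.asIdeal) Q σ := fun v => frob_cm v
  choose Q₀ σ₀ hQ₀ hQ₀v hσ₀ using hfr
  set ψ : GF F →* (PadicAlgCl ℓ)ˣ := dt ρ W hW with hψ
  have hψc : Continuous ψ := continuous_dt' ρ hρ W hW
  set C : HeightOneSpectrum (𝓞 F) → (PadicAlgCl ℓ)[X] :=
    fun v => (res ρ W hW (σ₀ v)⁻¹).charpoly with hC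
  set A : HeightOneSpectrum (𝓞 F) → Multiset ℂ := fun v => ((C v).map ι).roots with hA
  have hcharV : ∀ p ∈ T, ∀ v : HeightOneSpectrum (𝓞 F), (p : 𝓞 F) ∈ v.asIdeal →
      (((act ρ (σ₀ v)⁻¹).charpoly).map ι).roots = S v := by
    intro p hp v hv
    have h1 := (hgood p hp v hv (Q₀ v) (hQ₀ v).isPrime (hQ₀v v)).2 (σ₀ v) (hσ₀ v)
    rw [← h1]
    unfold act
    rw [Matrix.charpoly_mulVecLin]
  have hcard : ∀ v, Multiset.card (A v) = finrank (PadicAlgCl ℓ) W := by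
    intro v
    have hsplit : ((C v).map ι).Splits := IsAlgClosed.splits _
    rw [hA]
    simp only
    rw [← hsplit.natDegree_eq_card_roots, Polynomial.natDegree_map, hC]
    exact LinearMap.charpoly_natDegree _
  have hle : ∀ p ∈ T, ∀ v : HeightOneSpectrum (𝓞 F), (p : 𝓞 F) ∈ v.asIdeal → A v ≤ S v := by
    intro p hp v hv
    rw [← hcharV p hp v hv]
    have h1 := Pool.Agent.W522.C.charpoly_eq_mul (act ρ (σ₀ v)⁻¹) W (hW _)
    have h2 : (act ρ (σ₀ v)⁻¹).charpoly.Monic := LinearMap.charpoly_monic _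
    apply Polynomial.roots.le_of_dvd (h2.map ι).ne_zero
    exact Polynomial.map_dvd ι (Dvd.intro _ h1.symm)
  have hprod : ∀ v, (A v).prod = ι ((ψ (σ₀ v)⁻¹ : (PadicAlgCl ℓ)ˣ) : PadicAlgCl ℓ) := by
    intro v
    have hsplit : ((C v).map ι).Splits := IsAlgClosed.splits _
    have hCm : (C v).Monic := LinearMap.charpoly_monic _
    have hdeg : (C v).natDegree = finrank (PadicAlgCl ℓ) W := LinearMap.charpoly_natDegree _
    have h1 : ((ψ (σ₀ v)⁻¹ : (PadicAlgCl ℓ)ˣ) : PadicAlgCl ℓ) =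
      LinearMap.det (res ρ W hW (σ₀ v)⁻¹) := rfl
    rw [h1, LinearMap.det_eq_sign_charpoly_coeff]
    have h2 : (res ρ W hW (σ₀ v)⁻¹).charpoly = C v := rfl
    rw [h2, map_mul, map_pow, map_neg, map_one, ← coeff_map,
      hsplit.coeff_zero_eq_prod_roots_of_monic (hCm.map ι), Polynomial.natDegree_map, hdeg,
      ← mul_assoc, ← pow_add, ← two_mul, pow_mul, neg_one_sq, one_pow, one_mul]
  have hd : ∀ p ∈ T, ∀ v : HeightOneSpectrum (𝓞 F), (p : 𝓞 F) ∈ v.asIdeal → ∀ Q : Ideal (OO F),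
      Q.IsPrime → cm Q = v.asIdeal → (∀ g, InInertia Q g → ψ g = 1) ∧
        ∀ g, FrobAt (Ideal.absNorm v.asIdeal) Q g → ψ g = ψ (σ₀ v) := by
    intro p hp v hv Q hQ hQv
    have hin : ∀ Q : Ideal (OO F), Q.IsPrime → cm Q = v.asIdeal → ∀ g, InInertia Q g →
        ψ g = 1 := by
      intro Q hQ hQv g hg
      exact dt_eq_one ρ W hW ((hgood p hp v hv Q hQ hQv).1 g hg)
    refine ⟨hin Q hQ hQv, fun g hg => ?_⟩
    obtain ⟨h, hh⟩ := exists_smul (Q₀ v) Q (hQ₀ v).isPrime hQ ((hQ₀v v).trans hQv.symm)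
    have hq0 : Ideal.absNorm v.asIdeal ≠ 0 := by
      rw [Ne, Ideal.absNorm_eq_zero_iff]
      exact v.ne_bot
    have h1 : FrobAt (Ideal.absNorm v.asIdeal) (Q₀ v) (h⁻¹ * g * h) := by
      intro x
      have h2 := (hh _).1 (hg (h • x))
      rw [smul_sub, smul_pow', inv_smul_smul, smul_smul, smul_smul] at h2
      exact h2
    have h2 := hin (Q₀ v) (hQ₀ v).isPrime (hQ₀v v) _ (frob_inertia hq0 (hQ₀ v).isPrime (hσ₀ v) h1)
    rw [map_mul, map_mul, map_mul, map_inv, map_inv, mul_comm (ψ h)⁻¹, mul_assoc (ψ g),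
      inv_mul_cancel, mul_one, inv_mul_eq_one] at h2
    exact h2.symm
  have halg' : ∀ p ∈ T, ∀ v : HeightOneSpectrum (𝓞 F), (p : 𝓞 F) ∈ v.asIdeal →
      IsAlgebraic ℚ (ψ (σ₀ v) : PadicAlgCl ℓ) := by
    intro p hp v hv
    have h1 : IsAlgebraic ℚ (A v).prod := by
      apply M.isAlgebraic_multiset_prod
      intro a ha
      exact halg p hp v hv a (Multiset.mem_of_le (hle p hp v hv) ha)
    rw [hprod v] at h1
    have h2 := (isAlgebraic_algHom_iff (RingHom.toRatAlgHom ι) ι.injective).1 h1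
    rw [map_inv, Units.val_inv_eq_inv_val] at h2
    exact IsAlgebraic.inv_iff.1 h2
  have key := place_relation_bar ℓ ψ hψc T hT3 hT (fun v => ψ (σ₀ v)) hd halg'
  refine ⟨A, fun p hp v hv => ⟨hcard v, hle p hp v hv⟩, fun p hp => ?_⟩
  obtain ⟨S', N, a, hN, hS', heq⟩ := key p hp
  refine ⟨N, -a, hN, ?_⟩
  have hfin : (∏ᶠ (v : HeightOneSpectrum (𝓞 F)) (_ : (p : 𝓞 F) ∈ v.asIdeal), (A v).prod) =
      ∏ v ∈ S', (A v).prod := by
    apply finprod_cond_eq_prod_of_cond_iff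
    intro v _
    exact (hS' v).symm
  rw [hfin]
  have h2 := congrArg ι heq
  rw [map_pow, map_prod, map_zpow₀, map_natCast] at h2
  have h3 : ∏ v ∈ S', (A v).prod = (∏ v ∈ S', ι (ψ (σ₀ v) : PadicAlgCl ℓ))⁻¹ := by
    rw [← Finset.prod_inv_distrib]
    refine Finset.prod_congr rfl fun v _ => ?_
    rw [hprod, map_inv, Units.val_inv_eq_inv_val, map_inv₀]
  rw [h3, inv_pow, h2, zpow_neg]

end Pool.Agent.Y115.B
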