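import Mathlib
import Pool.Agent.Helper259.Pts

set_option autoImplicit false

namespace Pool.Agent.Y115.HTCOP

open Pool.Agent.Helper259.Pts

section General

variable (v : AbsoluteValue ℚ ℚ) (hv : ∀ x y : ℚ, v (x + y) ≤ max (v x) (v y))

include hv

theorem v_add_le {x y c : ℚ} (hx : v x ≤ c) (hy : v y ≤ c) : v (x + y) ≤ c :=
  le_trans (hv x y) (max_le hx hy)

theorem v_add_lt {x y c : ℚ} (hx : v x < c) (hy : v y < c) : v (x + y) < c :=
  lt_of_le_of_lt (hv x y) (max_lt hx hy)

theorem v_add_eq {x y : ℚ} (h : v y < v x) : v (x + y) = v x := by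
  apply le_antisymm
  · exact v_add_le v hv le_rfl h.le
  · by_contra hc
    push Not at hc
    have h1 : v ((x + y) + (-y)) < v x := v_add_lt v hv hc (by rw [v.map_neg]; exact h)
    rw [add_neg_cancel_right] at h1
    exact lt_irrefl _ h1

theorem v_nat_le (n : ℕ) : v (n : ℚ) ≤ 1 := by
  induction n with
  | zero => simp
  | succ n ih =>
    push_cast
    exact v_add_le v hv ih (by rw [v.map_one])

theorem big_curve {a : ℤ} (ha : a ≠ 0) (h : 1 < v (px a)) : v (py a) ^ 2 = v (px a) ^ 3 := by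
  have h1 : v (3 : ℚ) ≤ 1 := by exact_mod_cast v_nat_le v hv 3
  have h2 : 1 < v (px a) ^ 3 := one_lt_pow₀ h (by norm_num)
  rw [← v.map_pow, curve ha, v_add_eq v hv, v.map_pow]
  rw [v.map_pow]
  linarith

theorem int_curve {a : ℤ} (ha : a ≠ 0) (h : v (px a) ≤ 1) : v (py a) ≤ 1 := by
  have h1 : v (3 : ℚ) ≤ 1 := by exact_mod_cast v_nat_le v hv 3
  have h2 : v (px a) ^ 3 ≤ 1 := pow_le_one₀ (v.nonneg _) h
  have h3 : v (py a) ^ 2 ≤ 1 := by
    rw [← v.map_pow, curve ha]
    exact v_add_le v hv (by rw [v.map_pow]; exact h2) h1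
  by_contra hc
  push Not at hc
  have : 1 < v (py a) ^ 2 := one_lt_pow₀ hc (by norm_num)
  linarith

/-- the sum of a small point and of a point which is not small is not small -/
theorem add_not_small {a b : ℤ} (ha : a ≠ 0) (hb : b ≠ 0)
    (h1 : 1 < v (px a)) (h2 : v (px b) ≤ 1) : v (px (a + b)) ≤ 1 := by
  have hne : px a ≠ px b := by
    intro h
    rw [h] at h1
    linarith
  have hab1 : a ≠ b := by
    rintro rfl
    exact hne rfl
  have hab2 : a ≠ -b := by
    rintro rfl
    exact hne (neg_coord hb).1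
  have hd : px a - px b ≠ 0 := sub_ne_zero.2 hne
  have hkey : px (a + b) * (px a - px b) ^ 2 =
      6 + (- 2 * py a * py b) + px a ^ 2 * px b + px a * px b ^ 2 := by
    rw [(add_coord ha hb hab1 hab2).1]
    have e1 := curve ha
    have e2 := curve hb
    field_simp
    linear_combination e1 + e2
  set A := v (px a) with hA
  have hA0 : 0 < A := by linarith
  have hB := big_curve v hv ha h1
  rw [← hA] at hB
  have hB2 : v (py a) ≤ A ^ 2 := by
    have h3 : v (py a) ^ 2 ≤ (A ^ 2) ^ 2 := by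
      rw [hB]
      nlinarith [pow_pos hA0 3]
    exact le_of_sq_le_sq h3 (by positivity)
  have hyb := int_curve v hv hb h2
  have hx1 : v (px a - px b) = A := by
    rw [sub_eq_add_neg]
    apply v_add_eq v hv
    rw [v.map_neg]
    linarith
  have hA2 : 1 ≤ A ^ 2 := by nlinarith
  have h6 : v (6 : ℚ) ≤ A ^ 2 := by
    have : v (6 : ℚ) ≤ 1 := by exact_mod_cast v_nat_le v hv 6
    linarith
  have ht2 : v (-2 : ℚ) ≤ 1 := by
    rw [v.map_neg]
    exact_mod_cast v_nat_le v hv 2
  have hR : v (6 + (- 2 * py a * py b) + px a ^ 2 * px b + px a * px b ^ 2) ≤ A ^ 2 := by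
    refine v_add_le v hv (v_add_le v hv (v_add_le v hv h6 ?_) ?_) ?_
    · rw [v.map_mul, v.map_mul]
      calc v (-2) * v (py a) * v (py b) ≤ 1 * A ^ 2 * 1 := by
            have := v.nonneg (py a)
            have := v.nonneg (py b)
            have := v.nonneg (-2)
            gcongr
        _ = A ^ 2 := by ring
    · rw [v.map_mul, v.map_pow]
      calc v (px a) ^ 2 * v (px b) ≤ A ^ 2 * 1 := by
            gcongr
        _ = A ^ 2 := by ring
    · rw [v.map_mul, v.map_pow]
      have h7 : v (px b) ^ 2 ≤ 1 := pow_le_one₀ (v.nonneg _) h2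
      calc v (px a) * v (px b) ^ 2 ≤ A * 1 := by
            gcongr
        _ ≤ A ^ 2 := by nlinarith
  rw [← hkey, v.map_mul, v.map_pow, hx1] at hR
  have hA2' : 0 < A ^ 2 := by positivity
  exact le_of_mul_le_mul_right (by linarith) hA2'

/-- the subgroup of the small points -/
def small : AddSubgroup ℤ where
  carrier := {n | n = 0 ∨ 1 < v (px n)}
  zero_mem' := Or.inl rfl
  neg_mem' := by
    rintro n (h | h)
    · left
      rw [h, neg_zero]
    · rcases eq_or_ne n 0 with h0 | h0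
      · left
        rw [h0, neg_zero]
      · right
        rw [(neg_coord h0).1]
        exact h
  add_mem' := by
    rintro a b ha hb
    rcases eq_or_ne a 0 with ha0 | ha0
    · rw [ha0, zero_add]
      exact hb
    rcases eq_or_ne b 0 with hb0 | hb0
    · rw [hb0, add_zero]
      exact ha
    rcases eq_or_ne (a + b) 0 with hab | hab
    · left
      exact hab
    right
    by_contra hc
    push Not at hc
    have ha1 : 1 < v (px a) := ha.resolve_left ha0
    have hb1 : 1 < v (px b) := hb.resolve_left hb0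
    have hb2 : 1 < v (px (-b)) := by
      rw [(neg_coord hb0).1]
      exact hb1
    have := add_not_small v hv (neg_ne_zero.2 hb0) hab hb2 hc
    have h3 : -b + (a + b) = a := by ring
    rw [h3] at this
    linarith

/-- if `x(m)` is divisible by a prime which is not 2 or 3, then `3m` is small -/
theorem triple_small {m : ℤ} (hm : m ≠ 0) (hv2 : v 2 = 1) (hv3 : v 3 = 1)
    (h : v (px m) < 1) : 1 < v (px (2 * m + m)) := by
  set x := px m with hx
  set y := py m with hy
  have hx0 : x ≠ 0 := px_ne hm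
  have hy0 : y ≠ 0 := py_ne hm
  have hvx : 0 < v x := v.pos hx0
  have hx3 : v (x ^ 3) < 1 := by
    rw [v.map_pow]
    exact pow_lt_one₀ (v.nonneg _) h (by norm_num)
  have hcur : y ^ 2 = x ^ 3 + 3 := curve hm
  have hvy : v y = 1 := by
    have h1 : v y ^ 2 = 1 := by
      rw [← v.map_pow, hcur, add_comm, v_add_eq v hv (by rw [hv3]; exact hx3), hv3]
    have h2 := v.nonneg y
    nlinarith
  obtain ⟨hd1, hd2⟩ := dbl_coord hm
  rw [← hx, ← hy] at hd1 hd2
  set x2 := px (2 * m) with hx2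
  set y2 := py (2 * m) with hy2
  have hdx : x2 - x = -(3 * x * (x ^ 3 + 12) / (2 ^ 2 * y ^ 2)) := by
    rw [hd1]
    field_simp
    linear_combination (-12) * hcur
  have hv12 : v (12 : ℚ) = 1 := by
    rw [show (12 : ℚ) = 2 ^ 2 * 3 by norm_num, v.map_mul, v.map_pow, hv2, hv3]
    norm_num
  have hvd : v (x2 - x) = v x := by
    rw [hdx, v.map_neg, map_div₀, v.map_mul, v.map_mul, v.map_mul, v.map_pow, v.map_pow, hv2, hv3,
      hvy, add_comm, v_add_eq v hv (by rw [hv12]; exact hx3), hv12]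
    ring
  have hlam : v (3 * x ^ 2 / (2 * y)) = v x ^ 2 := by
    rw [map_div₀, v.map_mul, v.map_mul, v.map_pow, hv2, hv3, hvy]
    ring
  have hvdy : v (y2 - y) = 1 := by
    have h1 : y2 - y = -(2 * y) + (-(3 * x ^ 2 / (2 * y) * (x2 - x))) := by
      rw [hd2]
      ring
    have h2 : v (-(2 * y)) = 1 := by
      rw [v.map_neg, v.map_mul, hv2, hvy, one_mul]
    have h3 : v (-(3 * x ^ 2 / (2 * y) * (x2 - x))) < 1 := by
      rw [v.map_neg, v.map_mul, hlam, hvd]
      have : v x ^ 3 < 1 := pow_lt_one₀ (v.nonneg _) h (by norm_num)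
      calc v x ^ 2 * v x = v x ^ 3 := by ring
        _ < 1 := this
    rw [h1, v_add_eq v hv (by rw [h2]; exact h3), h2]
  have hvx2 : v x2 < 1 := by
    have h1 : x2 = (x2 - x) + x := by ring
    rw [h1]
    exact v_add_lt v hv (by rw [hvd]; exact h) h
  have hadd := (add_coord (m := 2 * m) (n := m) (by omega) hm (by omega) (by omega)).1
  rw [← hx, ← hy, ← hx2, ← hy2] at hadd
  rw [hadd]
  have h1 : ((y2 - y) / (x2 - x)) ^ 2 - x2 - x = ((y2 - y) / (x2 - x)) ^ 2 + (-x2 + -x) := by ring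
  have h2 : 1 < v (((y2 - y) / (x2 - x)) ^ 2) := by
    rw [v.map_pow, map_div₀, hvd, hvdy]
    apply one_lt_pow₀ _ (by norm_num)
    exact (one_lt_div hvx).2 h
  have h3 : v (-x2 + -x) < 1 := v_add_lt v hv (by rw [v.map_neg]; exact hvx2)
    (by rw [v.map_neg]; exact h)
  rw [h1, v_add_eq v hv (by linarith)]
  exact h2

end General

/-- no rational number with a numerator divisible by 2 is a first coordinate -/
theorem not_two {x y : ℚ} (h : y ^ 2 = x ^ 3 + 3) (h2 : (2 : ℤ) ∣ x.num) : False := by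
  obtain ⟨a, ha⟩ := h2
  have hb : ¬ (2 : ℤ) ∣ (x.den : ℤ) := by
    intro hb
    have h1 : (2 : ℕ) ∣ x.num.natAbs := by
      rw [ha]
      simp [Int.natAbs_mul]
    have h3 : (2 : ℕ) ∣ x.den := by exact_mod_cast hb
    have := Nat.dvd_gcd h1 h3
    rw [x.reduced] at this
    omega
  have hxe : x * x.den = x.num := Rat.mul_den_eq_num x
  have hye : y * y.den = y.num := Rat.mul_den_eq_num y
  have hx0 : (x.den : ℚ) ≠ 0 := by exact_mod_cast x.den_nz
  have hy0 : (y.den : ℚ) ≠ 0 := by exact_mod_cast y.den_nz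
  have hkeyq : (y.num : ℚ) ^ 2 * (x.den : ℚ) ^ 3 =
      ((x.num : ℚ) ^ 3 + 3 * (x.den : ℚ) ^ 3) * (y.den : ℚ) ^ 2 := by
    rw [← hxe, ← hye]
    linear_combination ((y.den : ℚ) ^ 2 * (x.den : ℚ) ^ 3) * h
  have hkey : y.num ^ 2 * (x.den : ℤ) ^ 3 =
      (x.num ^ 3 + 3 * (x.den : ℤ) ^ 3) * (y.den : ℤ) ^ 2 := by exact_mod_cast hkeyq
  rw [ha] at hkey
  obtain ⟨b, hb'⟩ : ∃ b, (x.den : ℤ) = 2 * b + 1 := ⟨(x.den : ℤ) / 2, by omega⟩
  rw [hb'] at hkey
  have hcd : ¬ ((2 : ℤ) ∣ y.num ∧ (2 : ℤ) ∣ (y.den : ℤ)) := by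
    rintro ⟨h1, h3⟩
    have h1' : (2 : ℕ) ∣ y.num.natAbs := Int.natCast_dvd.1 (by exact_mod_cast h1)
    have h3' : (2 : ℕ) ∣ y.den := by exact_mod_cast h3
    have := Nat.dvd_gcd h1' h3'
    rw [y.reduced] at this
    omega
  generalize y.num = c at hkey hcd
  generalize (y.den : ℤ) = d at hkey hcd
  obtain ⟨c', hc'⟩ : ∃ c', c = 2 * c' ∨ c = 2 * c' + 1 := ⟨c / 2, by omega⟩
  obtain ⟨d', hd'⟩ : ∃ d', d = 2 * d' ∨ d = 2 * d' + 1 := ⟨d / 2, by omega⟩
  rcases hc' with hc' | hc' <;> rcases hd' with hd' | hd'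
  · exact hcd ⟨⟨c', hc'⟩, ⟨d', hd'⟩⟩
  · rw [hc', hd'] at hkey
    have := congrArg (fun z : ℤ => (z : ZMod 4)) hkey
    push_cast at this
    revert this
    generalize (a : ZMod 4) = a
    generalize (b : ZMod 4) = b
    generalize (c' : ZMod 4) = c
    generalize (d' : ZMod 4) = d
    revert a b c d
    decide
  · rw [hc', hd'] at hkey
    have := congrArg (fun z : ℤ => (z : ZMod 4)) hkey
    push_cast at this
    revert this
    generalize (a : ZMod 4) = a
    generalize (b : ZMod 4) = b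
    generalize (c' : ZMod 4) = c
    generalize (d' : ZMod 4) = d
    revert a b c d
    decide
  · rw [hc', hd'] at hkey
    have := congrArg (fun z : ℤ => (z : ZMod 4)) hkey
    push_cast at this
    revert this
    generalize (a : ZMod 4) = a
    generalize (b : ZMod 4) = b
    generalize (c' : ZMod 4) = c
    generalize (d' : ZMod 4) = d
    revert a b c d
    decide

theorem not_three {x y : ℚ} (h : y ^ 2 = x ^ 3 + 3) (hx : x ≠ 0) (hy : y ≠ 0)
    (h2 : (3 : ℤ) ∣ x.num) : False := by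
  have : Fact (Nat.Prime 3) := ⟨Nat.prime_three⟩
  have hd : ¬ (3 : ℕ) ∣ x.den := by
    intro hb
    have h1 : (3 : ℕ) ∣ x.num.natAbs := Int.natCast_dvd.1 (by exact_mod_cast h2)
    have := Nat.dvd_gcd h1 hb
    rw [x.reduced] at this
    omega
  have hvx : 1 ≤ padicValRat 3 x := by
    rw [padicValRat_def, padicValNat.eq_zero_of_not_dvd hd]
    have h3 : 1 ≤ padicValInt 3 x.num := by
      have hn : x.num ≠ 0 := Rat.num_ne_zero.2 hx
      have h4 : (3 : ℕ) ∣ x.num.natAbs := Int.natCast_dvd.1 (by exact_mod_cast h2)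
      exact one_le_padicValNat_of_dvd (Int.natAbs_ne_zero.2 hn) h4
    push_cast
    omega
  have hv3 : padicValRat 3 (3 : ℚ) = 1 := by
    have := padicValRat.self (p := 3) (by norm_num)
    exact_mod_cast this
  have h4 : padicValRat 3 (y ^ 2) = 1 := by
    rw [h, add_comm, padicValRat.add_eq_of_lt, hv3]
    · rw [add_comm, ← h]
      exact pow_ne_zero _ hy
    · norm_num
    · exact pow_ne_zero _ hx
    · rw [hv3, padicValRat.pow]
      push_cast
      omega
  rw [padicValRat.pow] at h4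
  push_cast at h4
  omega

theorem t_COP {m k : ℤ} (hm : m ≠ 0) (hk : k ≠ 0) (h3 : ¬ (3 : ℤ) ∣ k) :
    Nat.Coprime (px m).num.natAbs (px k).den := by
  by_contra hcon
  obtain ⟨p, hp, hpm, hpk⟩ := Nat.Prime.not_coprime_iff_dvd.1 hcon
  have : Fact p.Prime := ⟨hp⟩
  have hpm' : (p : ℤ) ∣ (px m).num := Int.natCast_dvd.2 hpm
  have hcm := curve hm
  have hp2 : p ≠ 2 := by
    rintro rfl
    exact not_two hcm hpm'
  have hp3 : p ≠ 3 := by
    rintro rfl
    exact not_three hcm (px_ne hm) (py_ne hm) hpm'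
  set v : AbsoluteValue ℚ ℚ := IsAbsoluteValue.toAbsoluteValue (padicNorm p) with hvdef
  have hvp : ∀ x, v x = padicNorm p x := fun x => rfl
  have hv : ∀ x y : ℚ, v (x + y) ≤ max (v x) (v y) := fun x y => by
    rw [hvp, hvp, hvp]
    exact padicNorm.nonarchimedean
  have hv2 : v 2 = 1 := by
    rw [hvp]
    have : padicNorm p ((2 : ℕ) : ℚ) = 1 := by
      rw [padicNorm.nat_eq_one_iff]
      intro h
      exact hp2 ((Nat.prime_dvd_prime_iff_eq hp Nat.prime_two).1 h)
    exact_mod_cast this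
  have hv3 : v 3 = 1 := by
    rw [hvp]
    have : padicNorm p ((3 : ℕ) : ℚ) = 1 := by
      rw [padicNorm.nat_eq_one_iff]
      intro h
      exact hp3 ((Nat.prime_dvd_prime_iff_eq hp Nat.prime_three).1 h)
    exact_mod_cast this
  have hdm : ¬ p ∣ (px m).den := by
    intro h
    have := Nat.dvd_gcd hpm h
    rw [(px m).reduced] at this
    exact hp.one_lt.ne' (Nat.dvd_one.1 this)
  have hnk : ¬ p ∣ (px k).num.natAbs := by
    intro h
    have := Nat.dvd_gcd h hpk
    rw [(px k).reduced] at this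
    exact hp.one_lt.ne' (Nat.dvd_one.1 this)
  have hvm : v (px m) < 1 := by
    rw [← Rat.num_div_den (px m), map_div₀, hvp, hvp]
    rw [(padicNorm.nat_eq_one_iff _).2 hdm, div_one]
    exact (padicNorm.int_lt_one_iff _).2 hpm'
  have hvk : 1 < v (px k) := by
    rw [← Rat.num_div_den (px k), map_div₀, hvp, hvp]
    have h4 : padicNorm p ((px k).num : ℚ) = 1 := by
      rw [padicNorm.int_eq_one_iff]
      intro h
      exact hnk (Int.natCast_dvd.1 h)
    have h5 : padicNorm p ((px k).den : ℚ) < 1 := (padicNorm.nat_lt_one_iff _).2 hpk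
    have h6 : 0 < padicNorm p ((px k).den : ℚ) := by
      rw [← hvp]
      exact v.pos (by exact_mod_cast (px k).den_nz)
    rw [h4]
    exact (one_lt_div h6).2 h5
  have h3m := triple_small v hv hm hv2 hv3 hvm
  have hkS : k ∈ small v hv := Or.inr hvk
  have hmS : 2 * m + m ∈ small v hv := Or.inr h3m
  obtain ⟨a, b, hab⟩ : IsCoprime (3 : ℤ) k := (Int.prime_three.coprime_iff_not_dvd).2 h3
  have h5 : m = a • (2 * m + m) + (b * m) • k := by
    simp only [smul_eq_mul]
    linear_combination (-m) * hab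
  have hmm : m ∈ small v hv := by
    rw [h5]
    exact (small v hv).add_mem ((small v hv).zsmul_mem hmS _) ((small v hv).zsmul_mem hkS _)
  rcases hmm with h6 | h6
  · exact hm h6
  · linarith

end Pool.Agent.Y115.HTCOP
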