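import Mathlib

set_option autoImplicit false
set_option linter.unusedSectionVars false

/-!
# A continuous character of a compact group with values in the algebraic closure of `ℚ_ℓ` has its
values in a finite extension
-/

namespace Pool.Agent.Y115.FI

open IntermediateField Polynomial

variable (ℓ : ℕ) [hℓ : Fact ℓ.Prime]

/-- every element lies in a field generated by a number which is algebraic over `ℚ` -/
theorem exists_gen (x : PadicAlgCl ℓ) : ∃ y : PadicAlgCl ℓ, IsAlgebraic ℚ y ∧ x ∈ ℚ_[ℓ]⟮y⟯ := by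
  classical
  set f : ℚ_[ℓ][X] := minpoly ℚ_[ℓ] x with hf
  have hxint : IsIntegral ℚ_[ℓ] x := (Algebra.IsAlgebraic.isAlgebraic x).isIntegral
  have hfm : f.Monic := minpoly.monic hxint
  have hfx : f.aeval x = 0 := minpoly.aeval _ _
  set S : Finset (PadicAlgCl ℓ) := ((f.aroots (PadicAlgCl ℓ)).toFinset).filter (fun z => z ≠ x)
    with hS
  -- the distance to the conjugates
  obtain ⟨δ, hδ, hδS⟩ : ∃ δ : ℝ, 0 < δ ∧ ∀ z ∈ S, δ ≤ ‖x - z‖ := by
    rcases S.eq_empty_or_nonempty with h | h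
    · exact ⟨1, one_pos, fun z hz => by rw [h] at hz; exact absurd hz (Finset.notMem_empty z)⟩
    · obtain ⟨z₀, hz₀, hmin⟩ := S.exists_min_image (fun z => ‖x - z‖) h
      refine ⟨‖x - z₀‖, ?_, fun z hz => hmin z hz⟩
      rw [norm_pos_iff, sub_ne_zero]
      exact (Finset.mem_filter.1 hz₀).2.symm
  -- the approximation
  have hn : f.natDegree ≠ 0 := (minpoly.natDegree_pos hxint).ne'
  set m : ℝ := max ‖x‖ 1 with hm
  have hm0 : 0 < m := lt_of_lt_of_le one_pos (le_max_right _ _)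
  obtain ⟨ε, hε, hεδ⟩ : ∃ ε : ℝ, 0 < ε ∧
      ((f.natDegree + 1) * ε) ^ (f.natDegree : ℝ)⁻¹ * m ≤ δ := by
    refine ⟨(δ / m) ^ (f.natDegree : ℝ) / (f.natDegree + 1), by positivity, ?_⟩
    rw [mul_div_cancel₀ _ (by positivity), Real.rpow_rpow_inv (by positivity) (by exact_mod_cast hn),
      div_mul_cancel₀ _ hm0.ne']
  obtain ⟨g, hgm, hgdeg, hgc⟩ :=
    Polynomial.exists_monic_and_natDegree_eq_and_norm_map_algebraMap_coeff_sub_lt
      (K := ℚ) (L := ℚ_[ℓ]) (by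
        have h := Padic.denseRange_ratCast ℓ
        exact h) hfm hε
  set g' : ℚ_[ℓ][X] := g.map (algebraMap ℚ ℚ_[ℓ]) with hg'
  obtain ⟨b, hb, hxb⟩ := Polynomial.exists_aroots_norm_sub_lt_of_norm_coeff_sub_lt (K := ℚ_[ℓ])
    (L := PadicAlgCl ℓ) (f := f) (g := g') hε hfx hfm (hgm.map _) (by
      rw [hg', Polynomial.natDegree_map, hgdeg]) hgc (IsAlgClosed.splits _)
  have hbroot : aeval b g' = 0 := (Polynomial.mem_aroots.1 hb).2
  refine ⟨b, ⟨g, hgm.ne_zero, ?_⟩, ?_⟩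
  · rw [hg', Polynomial.aeval_map_algebraMap] at hbroot
    exact hbroot
  · refine IsKrasner.krasner (K := ℚ_[ℓ]) (L := PadicAlgCl ℓ) ?_ (IsAlgClosed.splits _)
      (Algebra.IsAlgebraic.isAlgebraic b).isIntegral ?_
    · exact (minpoly.irreducible hxint).separable
    · intro x' hx' hne
      refine lt_of_lt_of_le hxb (hεδ.trans (hδS x' ?_))
      rw [hS, Finset.mem_filter, Multiset.mem_toFinset, Polynomial.mem_aroots]
      refine ⟨⟨hfm.ne_zero, ?_⟩, hne.symm⟩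
      rw [hf, hx']
      exact minpoly.aeval _ _

/-- **finiteness of the field of values** -/
theorem exists_field {G : Type*} [Group G] [TopologicalSpace G] [IsTopologicalGroup G]
    [CompactSpace G] [T2Space G] (ψ : G →* (PadicAlgCl ℓ)ˣ) (hψ : Continuous ψ) :
    ∃ K : IntermediateField ℚ_[ℓ] (PadicAlgCl ℓ), FiniteDimensional ℚ_[ℓ] K ∧
      ∀ g, (ψ g : PadicAlgCl ℓ) ∈ K := by
  classical
  let ι : Type := {y : PadicAlgCl ℓ // IsAlgebraic ℚ y}
  have hι : Countable ι := (Algebraic.countable ℚ (PadicAlgCl ℓ)).to_subtype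
  have hfd : ∀ y : ι, FiniteDimensional ℚ_[ℓ] ℚ_[ℓ]⟮y.1⟯ := fun y =>
    adjoin.finiteDimensional (Algebra.IsAlgebraic.isAlgebraic y.1).isIntegral
  let U : ι → Subgroup G := fun y =>
    { carrier := {g | (ψ g : PadicAlgCl ℓ) ∈ ℚ_[ℓ]⟮y.1⟯}
      one_mem' := by
        show (ψ 1 : PadicAlgCl ℓ) ∈ ℚ_[ℓ]⟮y.1⟯
        rw [map_one, Units.val_one]
        exact one_mem _
      mul_mem' := by
        intro a b ha hb
        show (ψ (a * b) : PadicAlgCl ℓ) ∈ ℚ_[ℓ]⟮y.1⟯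
        rw [map_mul, Units.val_mul]
        exact mul_mem ha hb
      inv_mem' := by
        intro a ha
        show (ψ a⁻¹ : PadicAlgCl ℓ) ∈ ℚ_[ℓ]⟮y.1⟯
        rw [map_inv, Units.val_inv_eq_inv_val]
        exact inv_mem ha }
  have hclosed : ∀ y, IsClosed (U y : Set G) := by
    intro y
    have h1 : IsClosed ((ℚ_[ℓ]⟮y.1⟯.toSubalgebra.toSubmodule : Submodule ℚ_[ℓ] (PadicAlgCl ℓ)) :
        Set (PadicAlgCl ℓ)) := by
      have := hfd y
      exact Submodule.closed_of_finiteDimensional _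
    exact h1.preimage (Units.continuous_val.comp hψ)
  have hcover : ⋃ y, (U y : Set G) = Set.univ := by
    rw [Set.eq_univ_iff_forall]
    intro g
    obtain ⟨y, hy, hg⟩ := exists_gen ℓ (ψ g : PadicAlgCl ℓ)
    exact Set.mem_iUnion.2 ⟨⟨y, hy⟩, hg⟩
  have hne : Nonempty G := ⟨1⟩
  obtain ⟨y, z, hz⟩ := nonempty_interior_of_iUnion_of_closed hclosed hcover
  have hopen : IsOpen (U y : Set G) :=
    Subgroup.isOpen_of_mem_nhds _ (mem_interior_iff_mem_nhds.1 hz)
  have hfin : Finite (G ⧸ U y) := Subgroup.quotient_finite_of_isOpen _ hopen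
  set R : Set (PadicAlgCl ℓ) := Set.range fun q : G ⧸ U y => (ψ q.out : PadicAlgCl ℓ) with hR
  have hRfin : R.Finite := Set.finite_range _
  have hRK : FiniteDimensional ℚ_[ℓ] (IntermediateField.adjoin ℚ_[ℓ] R) := by
    have : Finite R := hRfin
    exact IntermediateField.finiteDimensional_adjoin fun x _ =>
      (Algebra.IsAlgebraic.isAlgebraic x).isIntegral
  have := hfd y
  refine ⟨ℚ_[ℓ]⟮y.1⟯ ⊔ IntermediateField.adjoin ℚ_[ℓ] R, inferInstance, fun g => ?_⟩
  obtain ⟨h, hh⟩ := QuotientGroup.mk_out_eq_mul (U y) g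
  have h1 : g = ((g : G ⧸ U y).out) * (h : G)⁻¹ := by rw [hh]; group
  rw [h1, map_mul, Units.val_mul]
  apply mul_mem
  · exact (le_sup_right : IntermediateField.adjoin ℚ_[ℓ] R ≤ _)
      (IntermediateField.subset_adjoin _ _ ⟨(g : G ⧸ U y), rfl⟩)
  · exact (le_sup_left : ℚ_[ℓ]⟮y.1⟯ ≤ _) ((U y).inv_mem h.2)

end Pool.Agent.Y115.FI
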