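import Pool.Agent.Y115.Main

set_option autoImplicit false
set_option linter.unusedSectionVars false

/-!
# Irreducibility and semisimplicity from the absence of multiplicative relations
-/

namespace Pool.Agent.Y115.M

open NumberField IsDedekindDomain Pool.Agent.W569.FM Pool.Agent.W571.FM Pool.Agent.Y115.R
open Pool.Agent.Y115.T Pool.Agent.Y115.Chi Polynomial Module Matrix

section rel

variable {F : Type} [Field F] [NumberField F] {E : Type} [Field E] [NumberField E]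

/-- a relation of size `k` -/
def RelR (P : HeightOneSpectrum (𝓞 F) → E[X]) (ι : E →+* ℂ) (w : ℤ) (p k : ℕ) : Prop :=
  ∃ A : HeightOneSpectrum (𝓞 F) → Multiset ℂ,
    (∀ v : HeightOneSpectrum (𝓞 F), (p : 𝓞 F) ∈ v.asIdeal →
      Multiset.card (A v) = k ∧ A v ≤ ((P v).map ι).roots) ∧
    ∃ N : ℕ, 0 < N ∧
      (∏ᶠ (v : HeightOneSpectrum (𝓞 F)) (_ : (p : 𝓞 F) ∈ v.asIdeal), (A v).prod) ^ (2 * N) =
        (p : ℂ) ^ (w * k * finrank ℚ F * N)

/-- an isotropic relation of size `k` -/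
def IsoR (P : HeightOneSpectrum (𝓞 F) → E[X]) (ι : E →+* ℂ) (w : ℤ) (p k : ℕ) : Prop :=
  ∃ A : HeightOneSpectrum (𝓞 F) → Multiset ℂ,
    (∀ v : HeightOneSpectrum (𝓞 F), (p : 𝓞 F) ∈ v.asIdeal → Multiset.card (A v) = k ∧
      A v + (A v).map (fun a => (Ideal.absNorm v.asIdeal : ℂ) ^ w / a) ≤ ((P v).map ι).roots) ∧
    ∃ N : ℕ, 0 < N ∧
      (∏ᶠ (v : HeightOneSpectrum (𝓞 F)) (_ : (p : 𝓞 F) ∈ v.asIdeal), (A v).prod) ^ (2 * N) =
        (p : ℂ) ^ (w * k * finrank ℚ F * N)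

theorem neat_not_iso (P : HeightOneSpectrum (𝓞 F) → E[X]) (ι : E →+* ℂ) (w : ℤ) {p k : ℕ}
    (hp : p.Prime) (hur : Unram F p) {v : HeightOneSpectrum (𝓞 F)}
    (hv : ∀ v' : HeightOneSpectrum (𝓞 F), (p : 𝓞 F) ∈ v'.asIdeal ↔ v' = v)
    (hpure : ∀ a ∈ ((P v).map ι).roots, ‖a‖ ^ 2 = (Ideal.absNorm v.asIdeal : ℝ) ^ w)
    (hneat : ∀ a b : ℂ, ({a, b} : Multiset ℂ) ≤ ((P v).map ι).roots → ∀ N : ℕ, 0 < N →
      a ^ N ≠ b ^ N) (hk : 0 < k) (hk2 : k ≤ 2) : ¬ IsoR P ι w p k := by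
  classical
  rintro ⟨A, hA, N, hN, hprod⟩
  have hvp : (p : 𝓞 F) ∈ v.asIdeal := (hv v).2 rfl
  obtain ⟨hcard, hle⟩ := hA v hvp
  have hfin : (∏ᶠ (v : HeightOneSpectrum (𝓞 F)) (_ : (p : 𝓞 F) ∈ v.asIdeal), (A v).prod) =
      (A v).prod := by
    rw [← Finset.prod_singleton (fun v => (A v).prod) v]
    apply finprod_cond_eq_prod_of_cond_iff
    intro v' _
    rw [Finset.mem_singleton]
    exact hv v'
  obtain ⟨f, hf, hsum⟩ := sum_deg hp hur {v} (fun v' => by rw [Finset.mem_singleton, hv])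
  rw [Finset.sum_singleton] at hsum
  have hq := hf v (Finset.mem_singleton_self v)
  rw [hsum] at hq
  set c : ℂ := (Ideal.absNorm v.asIdeal : ℂ) ^ w with hc
  have hq0 : Ideal.absNorm v.asIdeal ≠ 0 := by
    rw [Ne, Ideal.absNorm_eq_zero_iff]
    exact v.ne_bot
  have hrhs : (p : ℂ) ^ (w * k * finrank ℚ F * N) = c ^ (k * N) := by
    rw [hc, hq]
    push_cast
    rw [← zpow_natCast, ← zpow_natCast, ← _root_.zpow_mul, ← _root_.zpow_mul]
    congr 1
    push_cast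
    ring
  rw [hfin, hrhs] at hprod
  have hne : ∀ a ∈ ((P v).map ι).roots, a ≠ 0 := by
    intro a ha h0
    have h1 := hpure a ha
    rw [h0, norm_zero, zero_pow two_ne_zero] at h1
    exact zpow_ne_zero w (Nat.cast_ne_zero.2 hq0) h1.symm
  have hkk : k = 1 ∨ k = 2 := by omega
  rcases hkk with rfl | rfl
  · obtain ⟨α, hα⟩ := Multiset.card_eq_one.1 hcard
    rw [hα] at hle hprod
    rw [Multiset.map_singleton] at hle
    rw [Multiset.prod_singleton] at hprod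
    have hα0 : α ≠ 0 := hne α (Multiset.mem_of_le hle (by simp))
    refine hneat α (c / α) ?_ N hN ?_
    · exact hle
    · rw [div_pow, eq_div_iff (pow_ne_zero N hα0), ← pow_add, ← two_mul, hprod, one_mul]
  · obtain ⟨α, β, hα⟩ := Multiset.card_eq_two.1 hcard
    rw [hα] at hle hprod
    have hm : ({α, β} : Multiset ℂ).map (fun a => c / a) = {c / α, c / β} := by
      simp
    rw [hm] at hle
    have hpr : ({α, β} : Multiset ℂ).prod = α * β := by simp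
    rw [hpr] at hprod
    have hβ0 : β ≠ 0 := hne β (Multiset.mem_of_le hle (by simp))
    refine hneat α (c / β) (le_trans ?_ hle) (2 * N) (by omega) ?_
    · have h1 : ({α, β} : Multiset ℂ) + {c / α, c / β} = {α, c / β} + {β, c / α} := by
        simp only [Multiset.insert_eq_cons, ← Multiset.singleton_add]
        abel
      rw [h1]
      exact Multiset.le_add_right _ _
    · rw [div_pow, eq_div_iff (pow_ne_zero _ hβ0), ← mul_pow, hprod]

end rel

variable {F : Type} [Field F] [NumberField F] {E : Type} [Field E] [NumberField E]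
variable (ℓ : ℕ) [hℓ : Fact ℓ.Prime] {K : Type} [NormedField K]
  [NormedAlgebra ℚ_[ℓ] K] [FiniteDimensional ℚ_[ℓ] K]

section

variable {n : ℕ} (ρ : GF F →* GL (Fin n) K) (hρ : Continuous ρ) (w : ℤ) (τ : E →+* K)
    (ι : E →+* ℂ) (T : Set ℕ) (hT3 : 3 ≤ T.encard) (hT : ∀ p ∈ T, p.Prime ∧ p ≠ ℓ ∧ Unram F p)
    (P : HeightOneSpectrum (𝓞 F) → E[X])
    (hgood : ∀ p ∈ T, ∀ v : HeightOneSpectrum (𝓞 F), (p : 𝓞 F) ∈ v.asIdeal → ∀ Q : Ideal (OO F),
      Q.IsPrime → cm Q = v.asIdeal → (∀ g, InInertia Q g → ρ g = 1) ∧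
        ∀ g, FrobAt (Ideal.absNorm v.asIdeal) Q g →
          ((ρ g⁻¹ : GL (Fin n) K) : Matrix (Fin n) (Fin n) K).charpoly = (P v).map τ)
    (hpure : ∀ p ∈ T, ∀ v : HeightOneSpectrum (𝓞 F), (p : 𝓞 F) ∈ v.asIdeal →
      ∀ a ∈ ((P v).map ι).roots, ‖a‖ ^ 2 = (Ideal.absNorm v.asIdeal : ℝ) ^ w)

include hρ hT3 hT hgood hpure

/-- **Irreducibility** -/
theorem simple_of (hrel : ∀ k, 0 < k → k < n → ∃ p ∈ T, ¬ RelR P ι w p k)
    (W : Submodule K (Fin n → K))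
    (hW : ∀ g, ∀ x ∈ W, ((ρ g : GL (Fin n) K) : Matrix (Fin n) (Fin n) K) *ᵥ x ∈ W) :
    W = ⊥ ∨ W = ⊤ := by
  by_contra hcon
  push Not at hcon
  obtain ⟨h0, h1⟩ := hcon
  have hk0 : 0 < finrank K W := by
    rw [Nat.pos_iff_ne_zero]
    intro h
    exact h0 (Submodule.finrank_eq_zero.1 h)
  have hkn : finrank K W < n := by
    have h2 := Submodule.finrank_lt h1
    rwa [finrank_fin_fun] at h2
  obtain ⟨p, hp, hno⟩ := hrel _ hk0 hkn
  obtain ⟨A, hA, hprod⟩ := exists_A ℓ ρ hρ w τ ι T hT3 hT P hgood hpure W (fun g x hx => hW g x hx)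
  exact hno ⟨A, fun v hv => ⟨(hA p hp v hv).1, (hA p hp v hv).2.1⟩, hprod p hp⟩

/-- **Semisimplicity** -/
theorem compl_of (J : Matrix (Fin n) (Fin n) K) (hJ : J.det ≠ 0) (hsym : Jᵀ = J ∨ Jᵀ = -J)
    (hpol : ∀ g, ((ρ g : GL (Fin n) K) : Matrix (Fin n) (Fin n) K)ᵀ * J *
      ((ρ g : GL (Fin n) K) : Matrix (Fin n) (Fin n) K) =
        (algebraMap ℚ_[ℓ] K (((chi F ℓ g : ℤ_[ℓ]ˣ) : ℤ_[ℓ]) : ℚ_[ℓ])) ^ (-w) • J)
    (hrel : ∀ k, 0 < k → 2 * k ≤ n → ∃ p ∈ T, ¬ IsoR P ι w p k)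
    (W : Submodule K (Fin n → K))
    (hW : ∀ g, ∀ x ∈ W, ((ρ g : GL (Fin n) K) : Matrix (Fin n) (Fin n) K) *ᵥ x ∈ W) :
    ∃ W' : Submodule K (Fin n → K),
      (∀ g, ∀ x ∈ W', ((ρ g : GL (Fin n) K) : Matrix (Fin n) (Fin n) K) *ᵥ x ∈ W') ∧
        IsCompl W W' := by
  set b : LinearMap.BilinForm K (Fin n → K) := Matrix.toBilin' J with hb
  have hbapp : ∀ x y, b x y = x ⬝ᵥ J *ᵥ y := fun x y => Matrix.toBilin'_apply' J x y
  have hnd : b.Nondegenerate := LinearMap.BilinForm.nondegenerate_toBilin'_of_det_ne_zero' J hJ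
  have hnd' : ∀ x, (∀ y, b x y = 0) → x = 0 := hnd.1
  have hswap : ∀ x y, b y x = b x y ∨ b y x = - b x y := by
    intro x y
    have h1 : b y x = x ⬝ᵥ Jᵀ *ᵥ y := by
      rw [hbapp, Matrix.dotProduct_mulVec x, Matrix.vecMul_transpose, dotProduct_comm]
    rcases hsym with h | h
    · left
      rw [h1, h, hbapp]
    · right
      rw [h1, h, hbapp, neg_mulVec, dotProduct_neg]
  have hrefl : b.IsRefl := by
    intro x y h
    rcases hswap x y with h1 | h1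
    · rw [h1, h]
    · rw [h1, h, neg_zero]
  have hmul : ∀ g x y, b (act ρ g x) (act ρ g y) =
      (algebraMap ℚ_[ℓ] K (((chi F ℓ g : ℤ_[ℓ]ˣ) : ℤ_[ℓ]) : ℚ_[ℓ])) ^ (-w) * b x y := by
    intro g x y
    rw [hbapp, hbapp, act_apply, act_apply, ← smul_eq_mul, ← dotProduct_smul, ← smul_mulVec,
      ← hpol g, ← Matrix.mulVec_mulVec, ← Matrix.mulVec_mulVec]
    rw [Matrix.dotProduct_mulVec x, Matrix.vecMul_transpose]
  have hstab : ∀ g, ∀ x ∈ b.orthogonal W,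
      ((ρ g : GL (Fin n) K) : Matrix (Fin n) (Fin n) K) *ᵥ x ∈ b.orthogonal W := by
    intro g x hx
    rw [LinearMap.BilinForm.mem_orthogonal_iff] at hx ⊢
    intro y hy
    have h1 : act ρ g⁻¹ y ∈ W := hW g⁻¹ y hy
    have h2 := hmul g (act ρ g⁻¹ y) x
    have h3 : act ρ g (act ρ g⁻¹ y) = y := by
      have h4 := act_mul ρ g g⁻¹
      rw [mul_inv_cancel, act_one] at h4
      have h5 := congrArg (fun L : Module.End K (Fin n → K) => L y) h4
      exact h5.symm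
    rw [h3, hx _ h1, mul_zero] at h2
    exact h2
  refine ⟨b.orthogonal W, hstab, ?_⟩
  rw [LinearMap.BilinForm.isCompl_orthogonal_iff_disjoint hrefl, disjoint_iff]
  by_contra hcon
  set U : Submodule K (Fin n → K) := W ⊓ b.orthogonal W with hU
  have hUst : ∀ g, U ≤ U.comap (act ρ g) := by
    intro g x hx
    exact ⟨hW g x hx.1, hstab g x hx.2⟩
  have hiso : ∀ x ∈ U, ∀ y ∈ U, b x y = 0 := fun x hx y hy => hy.2 x hx.1
  have hk0 : 0 < finrank K U := by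
    rw [Nat.pos_iff_ne_zero]
    intro h
    exact hcon (Submodule.finrank_eq_zero.1 h)
  have h2k : 2 * finrank K U ≤ n := by
    have h1 : U ≤ b.orthogonal U := fun x hx y hy => hiso y hy x hx
    have h2 := Submodule.finrank_mono h1
    rw [LinearMap.BilinForm.finrank_orthogonal hnd, finrank_fin_fun] at h2
    have h3 : finrank K U ≤ n := by
      have := Submodule.finrank_le U
      rwa [finrank_fin_fun] at this
    omega
  obtain ⟨p, hp, hno⟩ := hrel _ hk0 h2k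
  obtain ⟨A, hA, hprod⟩ := exists_A ℓ ρ hρ w τ ι T hT3 hT P hgood hpure U hUst
  exact hno ⟨A, fun v hv => ⟨(hA p hp v hv).1, (hA p hp v hv).2.2 b hnd' hmul hiso⟩, hprod p hp⟩

end

end Pool.Agent.Y115.M
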