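import Mathlib
import Pool.Agent.W522.C.C4
import Pool.Agent.W254.PA.Card

set_option autoImplicit false
set_option linter.unusedSectionVars false

/-!
# Linear algebra: roots of the characteristic polynomial on an isotropic stable subspace
-/

namespace Pool.Agent.Y115.L

open Polynomial Module

section roots

variable {K : Type*} [Field K] [Infinite K] {E : Type*} [Field E] [IsAlgClosed E]

/-- the roots of the dual polynomial -/
theorem dual_roots (j : K →+* E) (F f : K[X]) (hF : F.Monic) {c d : K} (hd : d ≠ 0)
    (hc : c ≠ 0) (hroot : ∀ a ∈ (F.map j).roots, a ≠ 0)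
    (hev : ∀ t : K, t ≠ 0 → f.eval t * d = (-t) ^ F.natDegree * F.eval (c / t)) :
    (f.map j).roots = (F.map j).roots.map fun a => j c / a := by
  set F' := F.map j with hF'
  have hsplit : F'.Splits := IsAlgClosed.splits F'
  have hF'm : F'.Monic := hF.map j
  have hprod : F' = (F'.roots.map fun a => X - C a).prod := hsplit.eq_prod_roots_of_monic hF'm
  have hcard : Multiset.card F'.roots = F.natDegree := by
    rw [← hsplit.natDegree_eq_card_roots, hF', Polynomial.natDegree_map]
  have h1 : f.map j * C (j d) = (F'.roots.map fun a => C a * X - C (j c)).prod := by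
    apply Polynomial.eq_of_infinite_eval_eq
    have hinf : (Set.range fun t : {t : K // t ≠ 0} => j t.1).Infinite := by
      have : Infinite {t : K // t ≠ 0} := by
        have h2 : ({0}ᶜ : Set K).Infinite := (Set.finite_singleton (0 : K)).infinite_compl
        exact h2.to_subtype
      exact Set.infinite_range_of_injective (j.injective.comp Subtype.val_injective)
    refine hinf.mono ?_
    rintro _ ⟨⟨t, ht⟩, rfl⟩
    change eval (j t) _ = eval (j t) _
    have hjt : j t ≠ 0 := (map_ne_zero j).2 ht
    rw [eval_mul, eval_C, eval_map, eval₂_hom, ← map_mul, hev t ht, map_mul, map_pow, map_neg,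
      ← eval₂_hom j (c / t), ← eval_map]
    change (-j t) ^ F.natDegree * eval (j (c / t)) F' = _
    rw [hprod, eval_multiset_prod, eval_multiset_prod, Multiset.map_map, Multiset.map_map, ← hcard,
      ← hprod]
    rw [← Multiset.prod_replicate, ← Multiset.map_const', ← Multiset.prod_map_mul]
    congr 1
    apply Multiset.map_congr rfl
    intro a _
    simp only [Function.comp_apply, eval_sub, eval_X, eval_C, eval_mul, map_div₀]
    field_simp
    ring
  have hjd : j d ≠ 0 := (map_ne_zero j).2 hd
  have hjc : j c ≠ 0 := (map_ne_zero j).2 hc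
  have h2 : (f.map j).roots = (f.map j * C (j d)).roots := by
    rw [mul_comm, roots_C_mul _ hjd]
  rw [h2, h1, roots_multiset_prod]
  · rw [Multiset.bind_map]
    have h3 : ∀ a ∈ F'.roots, (C a * X - C (j c)).roots = {j c / a} := by
      intro a ha
      have ha0 := hroot a ha
      have h4 : (C a * X - C (j c) : E[X]) = C a * (X - C (j c / a)) := by
        rw [mul_sub, ← C_mul, mul_div_cancel₀ _ ha0]
      rw [h4, roots_C_mul _ ha0, roots_X_sub_C]
    rw [Multiset.bind_congr h3, Multiset.bind_singleton]
  · intro h
    rw [Multiset.mem_map] at h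
    obtain ⟨a, ha, h0⟩ := h
    have h4 := congrArg (fun q : E[X] => q.coeff 0) h0
    simp only [coeff_sub, mul_coeff_zero, coeff_X_zero, mul_zero, coeff_C_zero, zero_sub,
      coeff_zero, neg_eq_zero] at h4
    exact hjc h4

/-- **the roots on an isotropic stable subspace** and their duals are roots -/
theorem isotropic_roots {V : Type*} [AddCommGroup V] [Module K V] [FiniteDimensional K V]
    (j : K →+* E) (b : V →ₗ[K] V →ₗ[K] K) (hb : ∀ x, (∀ y, b x y = 0) → x = 0)
    (g : Module.End K V) {c : K} (hc : c ≠ 0) (hg : ∀ x y, b (g x) (g y) = c * b x y)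
    (R : Submodule K V) (hR : R ≤ R.comap g) (hiso : ∀ x ∈ R, ∀ y ∈ R, b x y = 0) :
    Multiset.card ((g.restrict hR).charpoly.map j).roots = finrank K R ∧
      ((g.restrict hR).charpoly.map j).roots +
        ((g.restrict hR).charpoly.map j).roots.map (fun a => j c / a) ≤
          (g.charpoly.map j).roots ∧
      ((g.restrict hR).charpoly.map j).roots.prod = j (LinearMap.det (g.restrict hR)) := by
  obtain ⟨f, hdvd, hdet, hev⟩ := Pool.Agent.W522.C.charpoly_dvd b hb g hc hg R hR hiso
  set F := (g.restrict hR).charpoly with hF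
  have hFm : F.Monic := LinearMap.charpoly_monic _
  have hdeg : F.natDegree = finrank K R := LinearMap.charpoly_natDegree _
  have hsplit : (F.map j).Splits := IsAlgClosed.splits _
  have hcard : Multiset.card (F.map j).roots = finrank K R := by
    rw [← hsplit.natDegree_eq_card_roots, Polynomial.natDegree_map, hdeg]
  have hprod : (F.map j).roots.prod = j (LinearMap.det (g.restrict hR)) := by
    rw [LinearMap.det_eq_sign_charpoly_coeff, ← hF, map_mul, map_pow, map_neg, map_one, ← coeff_map,
      hsplit.coeff_zero_eq_prod_roots_of_monic (hFm.map j), Polynomial.natDegree_map, hdeg,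
      ← mul_assoc, ← pow_add, ← two_mul, pow_mul, neg_one_sq, one_pow, one_mul]
  have hroot : ∀ a ∈ (F.map j).roots, a ≠ 0 := by
    intro a ha h0
    apply hdet
    apply j.injective
    rw [map_zero, ← hprod]
    rw [h0] at ha
    exact Multiset.prod_eq_zero ha
  have hev' : ∀ t : K, t ≠ 0 → f.eval t * LinearMap.det (g.restrict hR) =
      (-t) ^ F.natDegree * F.eval (c / t) := by
    intro t ht
    rw [hdeg]
    exact hev t ht
  refine ⟨hcard, ?_, hprod⟩
  rw [← dual_roots j F f hFm hdet hc hroot hev']
  have hgm : g.charpoly.Monic := LinearMap.charpoly_monic _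
  have hne : g.charpoly.map j ≠ 0 := (hgm.map j).ne_zero
  have hdvd' : F.map j * f.map j ∣ g.charpoly.map j := by
    rw [← Polynomial.map_mul]
    exact Polynomial.map_dvd j hdvd
  have hne' : F.map j * f.map j ≠ 0 := ne_zero_of_dvd_ne_zero hne hdvd'
  rw [← roots_mul hne']
  exact Polynomial.roots.le_of_dvd hne hdvd'

end roots

end Pool.Agent.Y115.L
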