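import Pool.Agent.Y115.Lin
import Pool.Agent.H927R2.RD.T16

set_option autoImplicit false
set_option linter.unusedSectionVars false

/-!
# Stable subspaces of a matrix representation
-/

namespace Pool.Agent.Y115.R

open Matrix Module

section alg

variable {G : Type*} [Group G] {K : Type*} [Field K] {n : ℕ} (ρ : G →* GL (Fin n) K)

/-- the action of an element -/
noncomputable def act (g : G) : Module.End K (Fin n → K) :=
  Matrix.mulVecLin (ρ g : Matrix (Fin n) (Fin n) K)

theorem act_apply (g : G) (x : Fin n → K) :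
    act ρ g x = (ρ g : Matrix (Fin n) (Fin n) K) *ᵥ x := rfl

theorem act_one : act ρ 1 = 1 := by
  apply LinearMap.ext
  intro x
  rw [act_apply, map_one, Units.val_one, one_mulVec]
  rfl

theorem act_mul (g h : G) : act ρ (g * h) = act ρ g * act ρ h := by
  apply LinearMap.ext
  intro x
  show act ρ (g * h) x = act ρ g (act ρ h x)
  rw [act_apply, act_apply, act_apply, map_mul, Units.val_mul, mulVec_mulVec]

variable (W : Submodule K (Fin n → K)) (hW : ∀ g, W ≤ W.comap (act ρ g))

/-- the restriction to a stable subspace -/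
noncomputable def res : G →* Module.End K W where
  toFun g := (act ρ g).restrict (hW g)
  map_one' := by
    apply LinearMap.ext
    intro x
    apply Subtype.ext
    show act ρ 1 (x : Fin n → K) = x
    rw [act_one]
    rfl
  map_mul' := by
    intro g h
    apply LinearMap.ext
    intro x
    apply Subtype.ext
    show act ρ (g * h) (x : Fin n → K) = act ρ g (act ρ h x)
    rw [act_mul]
    rfl

/-- the determinant character of a stable subspace -/
noncomputable def dt : G →* Kˣ :=
  ((LinearMap.det : Module.End K W →* K).comp (res ρ W hW)).toHomUnits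

theorem coe_dt (g : G) : (dt ρ W hW g : K) = LinearMap.det (res ρ W hW g) := rfl

theorem dt_eq_one {g : G} (h : ρ g = 1) : dt ρ W hW g = 1 := by
  apply Units.ext
  rw [coe_dt, Units.val_one]
  have h1 : res ρ W hW g = 1 := by
    apply LinearMap.ext
    intro x
    apply Subtype.ext
    show act ρ g (x : Fin n → K) = x
    rw [act_apply, h, Units.val_one, one_mulVec]
  rw [h1, map_one]

end alg

section top

variable (ℓ : ℕ) [hℓ : Fact ℓ.Prime] {G : Type*} [Group G] [TopologicalSpace G]
  [IsTopologicalGroup G] {K : Type*} [NormedField K] [NormedAlgebra ℚ_[ℓ] K]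
  [FiniteDimensional ℚ_[ℓ] K] {n : ℕ} (ρ : G →* GL (Fin n) K)

include ℓ in
theorem continuous_dt (hρ : Continuous ρ) (W : Submodule K (Fin n → K))
    (hW : ∀ g, W ≤ W.comap (act ρ g)) : Continuous (dt ρ W hW) := by
  classical
  have hfd : FiniteDimensional ℚ_[ℓ] (Fin n → K) := inferInstance
  have h1 : Continuous fun g => ((dt ρ W hW g : Kˣ) : K) := by
    let b := Module.finBasis K W
    have h2 : (fun g => ((dt ρ W hW g : Kˣ) : K)) =
        fun g => (LinearMap.toMatrix b b (res ρ W hW g)).det := by
      funext g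
      rw [coe_dt, LinearMap.det_toMatrix]
    rw [h2]
    refine Continuous.matrix_det ?_
    refine continuous_matrix fun i j => ?_
    simp only [LinearMap.toMatrix_apply]
    have h3 : Continuous fun g => res ρ W hW g (b j) := by
      refine Continuous.subtype_mk ?_ _
      show Continuous fun g => act ρ g (b j : Fin n → K)
      simp only [act_apply]
      exact (Units.continuous_val.comp hρ).matrix_mulVec continuous_const
    have h4 : FiniteDimensional ℚ_[ℓ] (W.restrictScalars ℚ_[ℓ]) := inferInstance
    have h5 : Continuous ((b.coord i).restrictScalars ℚ_[ℓ] : W.restrictScalars ℚ_[ℓ] →ₗ[ℚ_[ℓ]] K) :=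
      LinearMap.continuous_of_finiteDimensional (𝕜 := ℚ_[ℓ]) (E := W.restrictScalars ℚ_[ℓ]) _
    exact h5.comp h3
  rw [Units.continuous_iff]
  refine ⟨h1, ?_⟩
  have h2 : (fun g => (((dt ρ W hW g)⁻¹ : Kˣ) : K)) = fun g => ((dt ρ W hW g⁻¹ : Kˣ) : K) := by
    funext g
    rw [map_inv]
  rw [h2]
  exact h1.comp continuous_inv

end top

section emb

/-- an embedding of the `ℓ`-adic field into the complex numbers -/
theorem exists_j (ℓ : ℕ) [hℓ : Fact ℓ.Prime] (K : Type) [Field K] [Algebra ℚ_[ℓ] K]
    [FiniteDimensional ℚ_[ℓ] K] (E : Type) [Field E] [NumberField E] (τ : E →+* K)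
    (ι : E →+* ℂ) : ∃ j : K →+* ℂ, ∀ x, j (τ x) = ι x := by
  let _ : Algebra E K := τ.toAlgebra
  let _ : Algebra E ℂ := ι.toAlgebra
  have h1 : Cardinal.mk E ≤ Cardinal.aleph0 := by
    have h := Algebra.IsAlgebraic.cardinalMk_le_max ℚ E
    simpa using h
  have h2 : Cardinal.mk K ≤ Cardinal.mk ℂ := by
    have h := Algebra.IsAlgebraic.cardinalMk_le_max ℚ_[ℓ] K
    rw [Cardinal.mk_complex]
    exact h.trans (max_le (Pool.Agent.W254.PA.mk_padic_le ℓ) Cardinal.aleph0_le_continuum)
  obtain ⟨j⟩ := Pool.Agent.H927R2.RD.t16_extend (L := E) (K := K) (M := ℂ) h1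
    (by rw [Cardinal.mk_complex]; exact Cardinal.aleph0_lt_continuum) h2
  exact ⟨j.toRingHom, fun x => j.commutes x⟩

end emb

end Pool.Agent.Y115.R
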