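import Mathlib
import Pool.Agent.W245.PB.BakerP

set_option autoImplicit false

/-!
# An `ℓ`-adic six exponentials theorem

If `x 1, x 2, x 3` are `ℓ`-adic logarithms, linearly independent over the rational numbers, of
algebraic numbers and `s x 1, s x 2, s x 3` are also logarithms of algebraic numbers then `s` is
rational.
-/

namespace Pool.Agent.Y115.Six

open Finset NumberField Pool.Agent.W245.PB Pool.Agent.H297R2

section bounds

variable {K : Type*} [Field K] [NumberField K]

theorem house_prod_le {ι : Type*} (s : Finset ι) (f : ι → K) (b : ι → ℝ)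
    (h : ∀ i ∈ s, house (f i) ≤ b i) : house (∏ i ∈ s, f i) ≤ ∏ i ∈ s, b i := by
  classical
  induction s using Finset.induction_on with
  | empty =>
    have := house_intCast (K := K) (1 : ℤ)
    simp only [Int.cast_one, abs_one] at this
    simp [this]
  | insert i s hi ih =>
    rw [Finset.prod_insert hi, Finset.prod_insert hi]
    refine (house_mul_le _ _).trans ?_
    have h1 := h i (mem_insert_self _ _)
    have h2 := ih fun j hj => h j (mem_insert_of_mem hj)
    exact mul_le_mul h1 h2 (house_nonneg _) ((house_nonneg _).trans h1)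

theorem house_sum_le' {ι : Type*} (s : Finset ι) (f : ι → K) (b : ℝ)
    (h : ∀ i ∈ s, house (f i) ≤ b) : house (∑ i ∈ s, f i) ≤ s.card * b := by
  classical
  induction s using Finset.induction_on with
  | empty => simp [house]
  | insert i s hi ih =>
    rw [Finset.sum_insert hi, Finset.card_insert_of_notMem hi]
    refine (house_add_le _ _).trans ?_
    have h1 := h i (mem_insert_self _ _)
    have h2 := ih fun j hj => h j (mem_insert_of_mem hj)
    push_cast
    linarith

end bounds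

/-- The heart of the proof. -/
theorem core (pr : ℕ) [hp : Fact pr.Prime] {E : Type*} [NormedField E] [CompleteSpace E]
    [IsUltrametricDist E] [NormedAlgebra ℚ_[pr] E] [CharZero E]
    {K : Type*} [Field K] [NumberField K] (σ : K →+* E) (s : E) (hs : ‖s‖ ≤ 1)
    (x : Fin 3 → E) (hx : ∀ i, ‖x i‖ * (pr : ℝ) ^ 3 ≤ 1) (hli : LinearIndependent ℚ x)
    (hirr : ∀ r : ℚ, s ≠ r) (u v : Fin 3 → K) (hu : ∀ i, σ (u i) = pe (x i))
    (hv : ∀ i, σ (v i) = pe (s * x i)) : False := by
  classical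
  have hpr1 : (1 : ℝ) < pr := by exact_mod_cast hp.out.one_lt
  -- common denominator
  have : Algebra.IsAlgebraic ℤ K :=
    ⟨fun x => (IsFractionRing.isAlgebraic_iff ℤ ℚ K).2 (Algebra.IsAlgebraic.isAlgebraic x)⟩
  obtain ⟨a, ha0, haint⟩ := Algebra.IsAlgebraic.exists_integral_multiples ℤ (A := K)
    (univ.image u ∪ univ.image v)
  have hUint : ∀ i, IsIntegral ℤ (a • u i) := fun i =>
    haint _ (mem_union_left _ (mem_image_of_mem _ (mem_univ _)))
  have hVint : ∀ i, IsIntegral ℤ (a • v i) := fun i =>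
    haint _ (mem_union_right _ (mem_image_of_mem _ (mem_univ _)))
  set U : Fin 3 → 𝓞 K := fun i => ⟨a • u i, hUint i⟩ with hU
  set V : Fin 3 → 𝓞 K := fun i => ⟨a • v i, hVint i⟩ with hV
  have hUv : ∀ i, ((U i : 𝓞 K) : K) = (a : K) * u i := fun i => by rw [hU]; simp [zsmul_eq_mul]
  have hVv : ∀ i, ((V i : 𝓞 K) : K) = (a : K) * v i := fun i => by rw [hV]; simp [zsmul_eq_mul]
  -- constants
  obtain ⟨C, hC1, hsiegel⟩ := siegel K
  set d : ℕ := Module.finrank ℚ K with hd
  have hd1 : 1 ≤ d := Module.finrank_pos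
  obtain ⟨B, hB⟩ : ∃ B : ℝ, B = 1 + |(a : ℝ)| + ∑ i, house (U i : K) + ∑ i, house (V i : K) :=
    ⟨_, rfl⟩
  have hsU : 0 ≤ ∑ i, house (U i : K) := Finset.sum_nonneg fun i _ => house_nonneg _
  have hsV : 0 ≤ ∑ i, house (V i : K) := Finset.sum_nonneg fun i _ => house_nonneg _
  have haa : 0 ≤ |(a : ℝ)| := abs_nonneg _
  have hB1 : 1 ≤ B := by rw [hB]; linarith
  have hB0 : 0 ≤ B := by linarith
  have hBa : |(a : ℝ)| ≤ B := by rw [hB]; linarith
  have hBU : ∀ i, house (U i : K) ≤ B := by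
    intro i
    have : house (U i : K) ≤ ∑ i, house (U i : K) :=
      Finset.single_le_sum (f := fun i => house (U i : K)) (fun i _ => house_nonneg _) (mem_univ i)
    rw [hB]; linarith
  have hBV : ∀ i, house (V i : K) ≤ B := by
    intro i
    have : house (V i : K) ≤ ∑ i, house (V i : K) :=
      Finset.single_le_sum (f := fun i => house (V i : K)) (fun i _ => house_nonneg _) (mem_univ i)
    rw [hB]; linarith
  have hlB : 0 ≤ Real.log B := Real.log_nonneg hB1
  have hlC : 0 ≤ Real.log C := Real.log_nonneg hC1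
  obtain ⟨T, hT⟩ := exists_nat_ge (d * (16 + 2 * Real.log C + 96 * Real.log B) + 1)
  have hT1 : (1 : ℝ) ≤ T := by
    have : 0 ≤ (d : ℝ) * (16 + 2 * Real.log C + 96 * Real.log B) := by positivity
    linarith
  have hT1' : 1 ≤ T := by exact_mod_cast hT1
  set L : ℕ := 4 * T ^ 3 with hL
  set N : ℕ := 2 * T ^ 2 with hN
  have hL1 : 1 ≤ L := by
    have := Nat.one_le_pow 3 T (by omega)
    omega
  have hN1 : 1 ≤ N := by
    have := Nat.one_le_pow 2 T (by omega)
    omega
  have hLN : 2 * N ^ 3 = L * L := by rw [hL, hN]; ring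
  -- the numbers A
  set A : Fin L × Fin L → Fin 3 → 𝓞 K := fun z i =>
    (a : 𝓞 K) ^ (L - (z.1 : ℕ)) * U i ^ (z.1 : ℕ) * ((a : 𝓞 K) ^ (L - (z.2 : ℕ)) * V i ^ (z.2 : ℕ))
    with hA
  have hac : (a : E) ≠ 0 := by exact_mod_cast ha0
  have hsx : ∀ i, ‖s * x i‖ * (pr : ℝ) ^ 3 ≤ 1 := fun i => norm_mul_small pr hs (hx i)
  have hAσ : ∀ z i, σ (A z i : K) = (a : E) ^ (2 * L) *
      pe (((z.1 : ℕ) : E) * x i + ((z.2 : ℕ) : E) * (s * x i)) := by
    intro z i
    have e0 : ((A z i : 𝓞 K) : K) = (a : K) ^ (L - (z.1 : ℕ)) * ((a : K) * u i) ^ (z.1 : ℕ) *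
        ((a : K) ^ (L - (z.2 : ℕ)) * ((a : K) * v i) ^ (z.2 : ℕ)) := by
      rw [hA]
      simp only
      rw [← hUv, ← hVv]
      push_cast
      rfl
    have h1 : ‖((z.1 : ℕ) : E) * x i‖ * (pr : ℝ) ^ 3 ≤ 1 :=
      norm_mul_small pr (IsUltrametricDist.norm_natCast_le_one E _) (hx i)
    have h2 : ‖((z.2 : ℕ) : E) * (s * x i)‖ * (pr : ℝ) ^ 3 ≤ 1 :=
      norm_mul_small pr (IsUltrametricDist.norm_natCast_le_one E _) (hsx i)
    rw [e0, pe_add pr h1 h2, pe_nat_mul pr (hx i), pe_nat_mul pr (hsx i)]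
    simp only [map_mul, map_pow, map_intCast, hu, hv]
    rw [mul_pow, mul_pow]
    have e1 : (a : E) ^ (2 * L) = (a : E) ^ (L - (z.1 : ℕ)) * (a : E) ^ (z.1 : ℕ) *
        ((a : E) ^ (L - (z.2 : ℕ)) * (a : E) ^ (z.2 : ℕ)) := by
      rw [← pow_add, ← pow_add, ← pow_add]
      congr 1
      have := z.1.isLt
      have := z.2.isLt
      omega
    rw [e1]
    ring
  have hAh : ∀ z i, house (A z i : K) ≤ B ^ (2 * L) := by
    intro z i
    rw [hA]
    simp only
    push_cast
    have hha : house (a : K) ≤ B := by rw [house_intCast]; exact_mod_cast hBa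
    have h1 : ∀ (n m : ℕ) (y : K), house y ≤ B → n < L → m = L - n →
        house ((a : K) ^ m * y ^ n) ≤ B ^ L := by
      intro n m y hy hn hm
      calc house ((a : K) ^ m * y ^ n) ≤ house ((a : K) ^ m) * house (y ^ n) := house_mul_le _ _
        _ ≤ house (a : K) ^ m * house y ^ n := by
            gcongr
            · exact house_nonneg _
            · exact pow_nonneg (house_nonneg _) _
            · exact house_pow_le _ _
            · exact house_pow_le _ _
        _ ≤ B ^ m * B ^ n := by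
            gcongr
            · exact pow_nonneg (house_nonneg _) _
            · exact house_nonneg _
            · exact house_nonneg _
        _ = B ^ L := by rw [← pow_add]; congr 1; omega
    calc house ((a : K) ^ (L - (z.1 : ℕ)) * (U i : K) ^ (z.1 : ℕ) *
          ((a : K) ^ (L - (z.2 : ℕ)) * (V i : K) ^ (z.2 : ℕ)))
        ≤ house ((a : K) ^ (L - (z.1 : ℕ)) * (U i : K) ^ (z.1 : ℕ)) *
          house ((a : K) ^ (L - (z.2 : ℕ)) * (V i : K) ^ (z.2 : ℕ)) := house_mul_le _ _
      _ ≤ B ^ L * B ^ L := by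
          gcongr
          · exact house_nonneg _
          · exact h1 _ _ _ (hBU i) z.1.isLt rfl
          · exact h1 _ _ _ (hBV i) z.2.isLt rfl
      _ = B ^ (2 * L) := by rw [← pow_add]; congr 1; ring
  -- products
  set M : (Fin 3 → ℕ) → Fin L × Fin L → 𝓞 K := fun n z => ∏ i, A z i ^ n i with hM
  have hMh : ∀ (R : ℕ) (n : Fin 3 → ℕ), (∀ i, n i ≤ R) → ∀ z, house (M n z : K) ≤
      B ^ (6 * L * R) := by
    intro R n hn z
    rw [hM]
    simp only
    push_cast
    refine (house_prod_le univ _ (fun _ => B ^ (2 * L * R)) fun i _ => ?_).trans ?_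
    · calc house ((A z i : K) ^ n i) ≤ house (A z i : K) ^ n i := house_pow_le _ _
        _ ≤ (B ^ (2 * L)) ^ n i := by
            gcongr
            · exact house_nonneg _
            · exact hAh z i
        _ ≤ (B ^ (2 * L)) ^ R := pow_le_pow_right₀ (one_le_pow₀ hB1) (hn i)
        _ = B ^ (2 * L * R) := by rw [← pow_mul]
    · rw [Finset.prod_const, Finset.card_univ, Fintype.card_fin, ← pow_mul]
      apply le_of_eq
      congr 1
      ring
  -- Siegel's lemma
  set mat : Matrix (Fin 3 → Fin N) (Fin L × Fin L) (𝓞 K) := fun n z => M (fun i => (n i : ℕ)) z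
    with hmat
  have hmat0 : mat ≠ 0 := by
    intro h0
    have h1 : mat (fun _ => ⟨0, by omega⟩) (⟨0, by omega⟩, ⟨0, by omega⟩) = 0 := by rw [h0]; rfl
    rw [hmat] at h1
    simp [hM] at h1
  obtain ⟨ξ, hξ0, hξ, hξh⟩ := hsiegel (Fin 3 → Fin N) (Fin L × Fin L) mat hmat0
    (by rw [Fintype.card_fun, Fintype.card_fin, Fintype.card_fin]; positivity)
    (by rw [Fintype.card_fun, Fintype.card_fin, Fintype.card_fin, Fintype.card_prod,
          Fintype.card_fin, hLN])
    (B ^ (6 * L * N)) (one_le_pow₀ hB1) (fun n z => hMh N _ (fun i => (n i).isLt.le) z)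
  -- the values
  set Q : (Fin 3 → ℕ) → 𝓞 K := fun n => ∑ z, ξ z * M n z with hQ
  have hQ0 : ∀ n : Fin 3 → ℕ, (∀ i, n i < N) → Q n = 0 := by
    intro n hn
    have h1 := congrFun hξ (fun i => ⟨n i, hn i⟩)
    simp only [Matrix.mulVec, dotProduct, Pi.zero_apply] at h1
    rw [hQ, ← h1]
    apply Finset.sum_congr rfl
    intro z _
    rw [hmat, mul_comm]
  have hQh : ∀ (R : ℕ), N ≤ R → ∀ n : Fin 3 → ℕ, (∀ i, n i ≤ 2 * R) → house (Q n : K) ≤
      Real.exp (16 * T ^ 3 + 2 * Real.log C + 96 * T ^ 3 * R * Real.log B) := by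
    intro R hR n hn
    rw [hQ]
    simp only
    push_cast
    have h1 : ∀ z ∈ (univ : Finset (Fin L × Fin L)), house ((ξ z : K) * (M n z : K)) ≤
        C * (C * (L * L) * B ^ (6 * L * N)) * B ^ (6 * L * (2 * R)) := by
      intro z _
      refine (house_mul_le _ _).trans ?_
      have h2 := hξh z
      rw [Fintype.card_prod, Fintype.card_fin] at h2
      push_cast at h2
      exact mul_le_mul h2 (hMh _ n hn z) (house_nonneg _) (by positivity)
    refine (house_sum_le' _ _ _ h1).trans ?_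
    rw [Finset.card_univ, Fintype.card_prod, Fintype.card_fin]
    have hLr : (1 : ℝ) ≤ L := by exact_mod_cast hL1
    have hLl : Real.log L ≤ L := (Real.log_le_sub_one_of_pos (by linarith)).trans (by linarith)
    have e1 : ((L * L : ℕ) : ℝ) * (C * (C * (L * L) * B ^ (6 * L * N)) * B ^ (6 * L * (2 * R))) =
        Real.exp (4 * Real.log L + 2 * Real.log C + (6 * L * N + 12 * L * R) * Real.log B) := by
      rw [Real.exp_add, Real.exp_add]
      have e2 : Real.exp (4 * Real.log L) = (L : ℝ) ^ 4 := by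
        rw [show (4 : ℝ) * Real.log L = ((4 : ℕ) : ℝ) * Real.log L by norm_num,
          Real.exp_nat_mul, Real.exp_log (by linarith)]
      have e3 : Real.exp (2 * Real.log C) = C ^ 2 := by
        rw [show (2 : ℝ) * Real.log C = ((2 : ℕ) : ℝ) * Real.log C by norm_num,
          Real.exp_nat_mul, Real.exp_log (by linarith)]
      have e4 : Real.exp ((6 * L * N + 12 * L * R) * Real.log B) = B ^ (6 * L * N + 12 * L * R) := by
        rw [show ((6 * L * N + 12 * L * R : ℝ)) * Real.log B =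
          ((6 * L * N + 12 * L * R : ℕ) : ℝ) * Real.log B by push_cast; ring,
          Real.exp_nat_mul, Real.exp_log (by linarith)]
      rw [e2, e3, e4, pow_add, show 12 * L * R = 6 * L * (2 * R) by ring]
      push_cast
      ring
    rw [e1]
    apply Real.exp_le_exp.2
    have hRN : (N : ℝ) ≤ R := by exact_mod_cast hR
    have hR0 : (0 : ℝ) ≤ R := Nat.cast_nonneg R
    have hLc : (L : ℝ) = 4 * (T : ℝ) ^ 3 := by rw [hL]; push_cast; ring
    have h2 : (6 * (L : ℝ) * N + 12 * L * R) * Real.log B ≤ 96 * T ^ 3 * R * Real.log B := by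
      apply mul_le_mul_of_nonneg_right _ hlB
      rw [hLc]
      have : 6 * (4 * (T : ℝ) ^ 3) * N ≤ 6 * (4 * (T : ℝ) ^ 3) * R := by gcongr
      have h3 : 0 ≤ (T : ℝ) ^ 3 * R := by positivity
      nlinarith
    have h3 : 4 * Real.log L ≤ 16 * T ^ 3 := by
      calc 4 * Real.log L ≤ 4 * L := by linarith
        _ = 16 * T ^ 3 := by rw [hLc]; ring
    linarith
  -- the power series
  set c : E := (pr : E) ^ 3 with hc
  have hcn : ‖c‖ * (pr : ℝ) ^ 3 = 1 := by
    rw [hc, norm_pow, norm_p pr, inv_pow, inv_mul_cancel₀ (by positivity)]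
  have hc0 : c ≠ 0 := by
    intro h
    rw [h, norm_zero, zero_mul] at hcn
    exact zero_ne_one hcn
  set t : (Fin 3 → ℕ) → E := fun n => (∑ i, (n i : E) * x i) / c with ht
  have htc : ∀ n, t n * c = ∑ i, (n i : E) * x i := fun n => div_mul_cancel₀ _ hc0
  have htn : ∀ n, ‖t n‖ ≤ 1 := by
    intro n
    have h1 : ‖∑ i, (n i : E) * x i‖ * (pr : ℝ) ^ 3 ≤ 1 := norm_fsum_small pr univ _ fun i _ =>
      norm_mul_small pr (IsUltrametricDist.norm_natCast_le_one E _) (hx i)
    rw [ht]
    simp only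
    rw [norm_div, div_le_one (norm_pos_iff.2 hc0)]
    have hpos : (0 : ℝ) < (pr : ℝ) ^ 3 := by positivity
    rw [← mul_le_mul_iff_of_pos_right hpos, hcn]
    exact h1
  have htinj : Function.Injective t := by
    intro n m hnm
    have h1 : ∑ i, (((n i : ℕ) : ℚ) - ((m i : ℕ) : ℚ)) • x i = 0 := by
      have h2 : ∑ i, (((n i : ℕ) : ℚ) - ((m i : ℕ) : ℚ)) • x i =
          (∑ i, (n i : E) * x i) - ∑ i, (m i : E) * x i := by
        rw [← Finset.sum_sub_distrib]
        apply Finset.sum_congr rfl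
        intro i _
        rw [Algebra.smul_def, map_sub, map_natCast, map_natCast, sub_mul]
      rw [h2, ← htc, ← htc, hnm, sub_self]
    have h4 := Fintype.linearIndependent_iff.1 hli _ h1
    funext i
    have h5 := h4 i
    have h6 : ((n i : ℕ) : ℚ) = m i := by linarith
    exact_mod_cast h6
  set ψ : Fin L × Fin L → E := fun z => (((z.1 : ℕ) : E) + ((z.2 : ℕ) : E) * s) * c with hψ
  have hψn : ∀ z, ‖ψ z‖ * (pr : ℝ) ^ 3 ≤ 1 := by
    intro z
    refine norm_mul_small pr ?_ hcn.le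
    refine (IsUltrametricDist.norm_add_le_max _ _).trans (max_le
      (IsUltrametricDist.norm_natCast_le_one E _) ?_)
    rw [norm_mul]
    exact mul_le_one₀ (IsUltrametricDist.norm_natCast_le_one E _) (norm_nonneg _) hs
  set f : PowerSeries E := ∑ z, PowerSeries.C (σ (ξ z : K)) * ex (ψ z) with hf
  have hbd : ∀ z ∈ (univ : Finset (Fin L × Fin L)),
      Bd 4 1 (PowerSeries.C (σ (ξ z : K)) * ex (ψ z)) := by
    intro z _
    refine (((Bd.C (R := 4) (σ (ξ z : K))).mul (by norm_num) (bd_ex pr (hψn z)))).mono ?_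
    rw [mul_one]
    exact norm_int_le_one pr σ _
  have hfbd : Bd 4 1 f := Bd.sum _ _ (by norm_num) zero_le_one hbd
  have hfQ : ∀ n : Fin 3 → ℕ, σ (Q n : K) = (∏ i, ((a : E) ^ (2 * L)) ^ n i) * ev (t n) f := by
    intro n
    rw [hf, ev_sum (M := 1) univ _ (by norm_num) zero_le_one hbd (htn n), Finset.mul_sum]
    have hs1 : σ (Q n : K) = ∑ z, σ (ξ z : K) * ∏ i, σ (A z i : K) ^ n i := by
      rw [hQ]
      simp only [hM]
      push_cast
      simp only [map_sum, map_mul, map_prod, map_pow]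
    rw [hs1]
    apply Finset.sum_congr rfl
    intro z _
    rw [ev_mul (by norm_num) (Bd.C _) (bd_ex pr (hψn z)) (htn n), ev_C, ev_ex]
    have hsm : ∀ i, ‖((z.1 : ℕ) : E) * x i + ((z.2 : ℕ) : E) * (s * x i)‖ * (pr : ℝ) ^ 3 ≤ 1 :=
      fun i => norm_sum_small pr
        (norm_mul_small pr (IsUltrametricDist.norm_natCast_le_one E _) (hx i))
        (norm_mul_small pr (IsUltrametricDist.norm_natCast_le_one E _) (hsx i))
    have e1 : t n * ψ z = ∑ i, ((n i : ℕ) : E) *
        (((z.1 : ℕ) : E) * x i + ((z.2 : ℕ) : E) * (s * x i)) := by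
      rw [hψ]
      simp only
      rw [show t n * ((((z.1 : ℕ) : E) + ((z.2 : ℕ) : E) * s) * c) =
        (((z.1 : ℕ) : E) + ((z.2 : ℕ) : E) * s) * (t n * c) by ring, htc, Finset.mul_sum]
      apply Finset.sum_congr rfl
      intro i _
      ring
    rw [e1, pe_sum pr univ _ fun i _ =>
      norm_mul_small pr (IsUltrametricDist.norm_natCast_le_one E _) (hsm i)]
    rw [mul_left_comm, ← Finset.prod_mul_distrib]
    congr 1
    apply Finset.prod_congr rfl
    intro i _
    rw [hAσ, pe_nat_mul pr (hsm i), mul_pow]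
  have hprod0 : ∀ n : Fin 3 → ℕ, (∏ i, ((a : E) ^ (2 * L)) ^ n i) ≠ 0 := fun n =>
    Finset.prod_ne_zero_iff.2 fun i _ => pow_ne_zero _ (pow_ne_zero _ hac)
  have hprod1 : ∀ n : Fin 3 → ℕ, ‖(∏ i, ((a : E) ^ (2 * L)) ^ n i)‖ ≤ 1 := by
    intro n
    rw [norm_prod]
    apply Finset.prod_le_one
    · intro i _; exact norm_nonneg _
    · intro i _
      rw [norm_pow, norm_pow]
      exact pow_le_one₀ (by positivity) (pow_le_one₀ (norm_nonneg _)
        (IsUltrametricDist.norm_intCast_le_one E a))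
  -- extrapolation
  have hstep : ∀ R : ℕ, N ≤ R → (∀ n : Fin 3 → ℕ, (∀ i, n i < R) → Q n = 0) →
      ∀ n : Fin 3 → ℕ, (∀ i, n i < 2 * R) → Q n = 0 := by
    intro R hR hvan n hn
    by_contra hne
    have hhouse := hQh R hR n fun i => (hn i).le
    have hLi := Pool.Agent.NearOne652.G.liouville pr (E := E) K σ (Q n : K) (Q n).2 (by
      exact_mod_cast hne) _ (fun φ => (norm_embedding_le_house _ φ).trans hhouse)
    set Z : Finset E := (univ : Finset (Fin 3 → Fin R)).image (fun m => t fun i => (m i : ℕ)) with hZ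
    have hcard : Z.card = R ^ 3 := by
      rw [hZ, Finset.card_image_of_injective]
      · rw [Finset.card_univ, Fintype.card_fun, Fintype.card_fin, Fintype.card_fin]
      · intro m m' h
        have h1 := htinj h
        funext i
        exact Fin.ext (congrFun h1 i)
    have hS := schwarz (R := 4) (by norm_num) Z (by
        intro w hw
        rw [hZ, Finset.mem_image] at hw
        obtain ⟨m, _, rfl⟩ := hw
        exact htn _) (htn n) (R ^ 3) 1 f (fun _ => 1) hfbd
      (by rw [Finset.sum_const, hcard, smul_eq_mul, mul_one]) (by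
        intro w hw j hj
        have hj0 : j = 0 := by omega
        subst hj0
        rw [hZ, Finset.mem_image] at hw
        obtain ⟨m, _, rfl⟩ := hw
        have h1 := hvan (fun i => (m i : ℕ)) fun i => (m i).isLt
        have h2 := hfQ fun i => (m i : ℕ)
        rw [h1] at h2
        simp only [map_zero] at h2
        exact (mul_eq_zero.1 h2.symm).resolve_left (hprod0 _))
    have h3 : ‖σ (Q n : K)‖ ≤ ‖ev (t n) f‖ := by
      rw [hfQ, norm_mul]
      calc _ ≤ 1 * ‖ev (t n) f‖ := by gcongr; exact hprod1 n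
        _ = _ := one_mul _
    set Y : ℝ := 16 * T ^ 3 + 2 * Real.log C + 96 * T ^ 3 * R * Real.log B with hY
    have h4 : (4 : ℝ) ^ (R ^ 3) ≤ Real.exp Y ^ d := by
      calc (4 : ℝ) ^ (R ^ 3) = 1 * 4 ^ (R ^ 3) := (one_mul _).symm
        _ ≤ (Real.exp Y ^ d * ‖ev (t n) f‖) * 4 ^ (R ^ 3) := by
            gcongr
            exact hLi.trans (by gcongr)
        _ = Real.exp Y ^ d * (‖ev (t n) f‖ * 4 ^ (R ^ 3)) := by ring
        _ ≤ Real.exp Y ^ d * 1 := by gcongr
        _ = _ := mul_one _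
    have h5 : Real.exp ((R : ℝ) ^ 3) ≤ (4 : ℝ) ^ (R ^ 3) := by
      have h6 : Real.exp 1 ≤ 4 := by
        have := Real.exp_one_lt_d9
        linarith
      calc Real.exp ((R : ℝ) ^ 3) = Real.exp 1 ^ (R ^ 3) := by
            rw [← Real.exp_nat_mul, mul_one]; push_cast; rfl
        _ ≤ 4 ^ (R ^ 3) := by gcongr
    have h6 : Real.exp Y ^ d = Real.exp (d * Y) := by rw [← Real.exp_nat_mul]
    have h7 : (R : ℝ) ^ 3 ≤ d * Y := by
      rw [← Real.exp_le_exp, ← h6]
      exact h5.trans h4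
    -- contradiction
    have hRr : (2 : ℝ) * T ^ 2 ≤ R := by
      have : (N : ℝ) ≤ R := by exact_mod_cast hR
      rw [hN] at this
      push_cast at this
      exact this
    have hR1 : (1 : ℝ) ≤ R := by
      have : (1 : ℝ) ≤ (T : ℝ) ^ 2 := one_le_pow₀ hT1
      linarith
    have h8 : (d : ℝ) * Y ≤ R * T ^ 3 * (d * (16 + 2 * Real.log C + 96 * Real.log B)) := by
      rw [hY]
      have hT3 : (1 : ℝ) ≤ (T : ℝ) ^ 3 := one_le_pow₀ hT1
      have hRT : (1 : ℝ) ≤ R * (T : ℝ) ^ 3 := one_le_mul_of_one_le_of_one_le hR1 hT3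
      have h9 : (16 : ℝ) * T ^ 3 ≤ R * T ^ 3 * 16 := by nlinarith
      have h10 : 2 * Real.log C ≤ R * T ^ 3 * (2 * Real.log C) := by nlinarith
      have h11 : 16 * (T : ℝ) ^ 3 + 2 * Real.log C + 96 * T ^ 3 * R * Real.log B ≤
          R * T ^ 3 * (16 + 2 * Real.log C + 96 * Real.log B) := by linarith
      calc (d : ℝ) * (16 * T ^ 3 + 2 * Real.log C + 96 * T ^ 3 * R * Real.log B)
          ≤ d * (R * T ^ 3 * (16 + 2 * Real.log C + 96 * Real.log B)) := by gcongr
        _ = _ := by ring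
    have h9 : R * (T : ℝ) ^ 3 * (d * (16 + 2 * Real.log C + 96 * Real.log B)) <
        R * (T : ℝ) ^ 3 * T := by
      have : 0 < R * (T : ℝ) ^ 3 := by positivity
      apply mul_lt_mul_of_pos_left _ this
      linarith
    have h10 : R * (T : ℝ) ^ 3 * T ≤ (R : ℝ) ^ 3 := by
      have h11 : (T : ℝ) ^ 4 ≤ R ^ 2 := by
        have h12 : (T : ℝ) ^ 2 ≤ R := by
          have : (0 : ℝ) ≤ (T : ℝ) ^ 2 := by positivity
          linarith
        calc (T : ℝ) ^ 4 = ((T : ℝ) ^ 2) ^ 2 := by ring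
          _ ≤ (R : ℝ) ^ 2 := by gcongr
      calc (R : ℝ) * (T : ℝ) ^ 3 * T = (R : ℝ) * (T : ℝ) ^ 4 := by ring
        _ ≤ (R : ℝ) * (R : ℝ) ^ 2 := by gcongr
        _ = (R : ℝ) ^ 3 := by ring
    linarith
  have hall : ∀ j : ℕ, ∀ n : Fin 3 → ℕ, (∀ i, n i < 2 ^ j * N) → Q n = 0 := by
    intro j
    induction j with
    | zero => intro n hn; exact hQ0 n fun i => by simpa using hn i
    | succ j ih =>
      intro n hn
      apply hstep (2 ^ j * N) (Nat.le_mul_of_pos_left _ (by positivity)) ih n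
      intro i
      have := hn i
      rw [pow_succ] at this
      nlinarith
  have hz : ∀ n : Fin 3 → ℕ, Q n = 0 := by
    intro n
    obtain ⟨j, hj⟩ : ∃ j : ℕ, ∀ i, n i < 2 ^ j * N := by
      refine ⟨∑ i, n i, fun i => ?_⟩
      have h1 : n i ≤ ∑ i, n i := Finset.single_le_sum (fun i _ => Nat.zero_le _) (mem_univ i)
      have h2 : (∑ i, n i) < 2 ^ (∑ i, n i) := Nat.lt_two_pow_self
      have h3 : 2 ^ (∑ i, n i) * 1 ≤ 2 ^ (∑ i, n i) * N := Nat.mul_le_mul_left _ hN1
      omega
    exact hall j n hj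
  -- conclusion
  have hx0 : x 0 ≠ 0 := hli.ne_zero 0
  have hdist : Function.Injective fun z : Fin L × Fin L =>
      pe (((z.1 : ℕ) : E) * x 0 + ((z.2 : ℕ) : E) * (s * x 0)) := by
    intro z w hzw
    have hsm : ∀ z : Fin L × Fin L,
        ‖((z.1 : ℕ) : E) * x 0 + ((z.2 : ℕ) : E) * (s * x 0)‖ * (pr : ℝ) ^ 3 ≤ 1 :=
      fun z => norm_sum_small pr
        (norm_mul_small pr (IsUltrametricDist.norm_natCast_le_one E _) (hx 0))
        (norm_mul_small pr (IsUltrametricDist.norm_natCast_le_one E _) (hsx 0))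
    have h1 := pe_injective pr (hsm z) (hsm w) hzw
    have h2 : ((((z.1 : ℕ) : E) - ((w.1 : ℕ) : E)) + (((z.2 : ℕ) : E) - ((w.2 : ℕ) : E)) * s) *
        x 0 = 0 := by linear_combination h1
    have h3 := (mul_eq_zero.1 h2).resolve_right hx0
    by_cases hzw2 : (z.2 : ℕ) = (w.2 : ℕ)
    · rw [hzw2, sub_self, zero_mul, add_zero, sub_eq_zero] at h3
      have h4 : (z.1 : ℕ) = (w.1 : ℕ) := by exact_mod_cast h3
      exact Prod.ext (Fin.ext h4) (Fin.ext hzw2)
    · exfalso
      have h4 : (((z.2 : ℕ) : E) - ((w.2 : ℕ) : E)) ≠ 0 := by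
        rw [sub_ne_zero]
        exact_mod_cast hzw2
      apply hirr ((((w.1 : ℕ) : ℚ) - ((z.1 : ℕ) : ℚ)) / (((z.2 : ℕ) : ℚ) - ((w.2 : ℕ) : ℚ)))
      push_cast
      rw [eq_div_iff h4]
      linear_combination h3
  have hfin := final_stepP (F := E) 0 (fun z : Fin L × Fin L =>
    pe (((z.1 : ℕ) : E) * x 0 + ((z.2 : ℕ) : E) * (s * x 0))) hdist
    (fun z => pe_ne_zero pr (norm_sum_small pr
        (norm_mul_small pr (IsUltrametricDist.norm_natCast_le_one E _) (hx 0))
        (norm_mul_small pr (IsUltrametricDist.norm_natCast_le_one E _) (hsx 0))))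
    (fun _ z => σ (ξ z : K)) _ le_rfl (by
      intro l _
      have h1 := hz (fun i => if i = 0 then l else 0)
      have h2 : σ (Q (fun i => if i = 0 then l else 0) : K) =
          ∑ z, σ (ξ z : K) * σ (A z 0 : K) ^ l := by
        rw [hQ]
        simp only [hM]
        push_cast
        simp only [map_sum, map_mul, map_prod, map_pow]
        apply Finset.sum_congr rfl
        intro z _
        congr 1
        rw [Finset.prod_eq_single 0]
        · simp
        · intro i _ hi; simp [hi]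
        · intro h; exact absurd (mem_univ _) h
      rw [h1] at h2
      simp only [map_zero, hAσ, mul_pow] at h2
      have h3 : ((a : E) ^ (2 * L)) ^ l * ∑ z : Fin L × Fin L, σ (ξ z : K) *
          pe (((z.1 : ℕ) : E) * x 0 + ((z.2 : ℕ) : E) * (s * x 0)) ^ l = 0 := by
        rw [h2, Finset.mul_sum]
        apply Finset.sum_congr rfl
        intro z _
        ring
      have h4 := (mul_eq_zero.1 h3).resolve_left (pow_ne_zero _ (pow_ne_zero _ hac))
      rw [← h4]
      apply Finset.sum_congr rfl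
      intro z _
      simp)
  apply hξ0
  funext z
  have h1 := hfin 0 z
  have h2 : ((ξ z : 𝓞 K) : K) = 0 := (map_eq_zero σ).1 h1
  exact_mod_cast h2

/-- **An `ℓ`-adic six exponentials theorem**: if `x 1, x 2, x 3` are linearly independent over the
rational numbers and the exponentials of the `x i` and `s x i` are algebraic, `s` is rational. -/
theorem six (pr : ℕ) [hp : Fact pr.Prime] {E : Type*} [NormedField E] [CompleteSpace E]
    [IsUltrametricDist E] [NormedAlgebra ℚ_[pr] E] [CharZero E] (s : E)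
    (x : Fin 3 → E) (hx : ∀ i, ‖x i‖ * (pr : ℝ) ^ 3 ≤ 1) (hsx : ∀ i, ‖s * x i‖ * (pr : ℝ) ^ 3 ≤ 1)
    (hli : LinearIndependent ℚ x) (h1 : ∀ i, IsAlgebraic ℚ (pe (x i)))
    (h2 : ∀ i, IsAlgebraic ℚ (pe (s * x i))) : ∃ r : ℚ, s = r := by
  classical
  by_contra hcon
  push Not at hcon
  have hpr1 : (1 : ℝ) < pr := by exact_mod_cast hp.out.one_lt
  -- scaling
  obtain ⟨m, hm⟩ : ∃ m : ℕ, ‖(pr : E) ^ m * s‖ ≤ 1 := by
    obtain ⟨m, hm⟩ := pow_unbounded_of_one_lt ‖s‖ hpr1
    refine ⟨m, ?_⟩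
    rw [norm_mul, norm_pow, norm_p pr, inv_pow, inv_mul_le_iff₀ (by positivity), mul_one]
    exact hm.le
  have hpe : (pr : E) ≠ 0 := Nat.cast_ne_zero.2 hp.out.ne_zero
  have h3 : ∀ i, pe ((pr : E) ^ m * s * x i) = pe (s * x i) ^ (pr ^ m) := by
    intro i
    rw [← pe_nat_mul pr (hsx i), mul_assoc]
    push_cast
    rfl
  -- the number field
  set S : Set E := Set.range (fun i => pe (x i)) ∪ Set.range (fun i => pe ((pr : E) ^ m * s * x i))
    with hS
  have hSfin : Finite S := ((Set.finite_range _).union (Set.finite_range _)).to_subtype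
  have hSint : ∀ y ∈ S, IsIntegral ℚ y := by
    intro y hy
    rcases hy with ⟨i, rfl⟩ | ⟨i, rfl⟩
    · exact (h1 i).isIntegral
    · simp only [h3]
      exact ((h2 i).pow _).isIntegral
  have hfd : FiniteDimensional ℚ (IntermediateField.adjoin ℚ S) :=
    IntermediateField.finiteDimensional_adjoin hSint
  have hnf : NumberField (IntermediateField.adjoin ℚ S) :=
    { to_charZero := inferInstance, to_finiteDimensional := hfd }
  set K := IntermediateField.adjoin ℚ S with hK
  have hmem : ∀ y ∈ S, y ∈ K := fun y hy => IntermediateField.subset_adjoin ℚ S hy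
  refine core pr (K := K) (K.val : K →+* E) ((pr : E) ^ m * s) hm x hx hli ?_
    (fun i => ⟨pe (x i), hmem _ (Or.inl ⟨i, rfl⟩)⟩)
    (fun i => ⟨pe ((pr : E) ^ m * s * x i), hmem _ (Or.inr ⟨i, rfl⟩)⟩) (fun i => rfl) fun i => rfl
  intro r hr
  apply hcon (r / (pr : ℚ) ^ m)
  push_cast
  rw [eq_div_iff (pow_ne_zero _ hpe), mul_comm]
  exact hr

end Pool.Agent.Y115.Six
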