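import Mathlib
import Pool.Agent.W571.FM.Frob

set_option autoImplicit false
set_option linter.unusedSectionVars false

/-!
# The absolute Galois group of a number field inside that of `ℚ`, and the primes above `p`
-/

namespace Pool.Agent.Y115.T

open NumberField IsDedekindDomain Pool.Agent.W569.FM Pool.Agent.W571.FM

section setup

variable (F : Type) [Field F] [NumberField F]

theorem isOpen_stab {K : Type} [Field K] (x : AlgebraicClosure K) :
    IsOpen (MulAction.stabilizer (GF K) x : Set (GF K)) :=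
  stabilizer_isOpen_of_isIntegral (K := K) x

theorem exists_e : Nonempty (AlgebraicClosure F ≃+* AlgebraicClosure ℚ) := by
  have h : IsAlgClosure ℚ (AlgebraicClosure F) := IsAlgClosure.ofAlgebraic ℚ F (AlgebraicClosure F)
  have h2 : IsAlgClosure ℚ (AlgebraicClosure ℚ) := by
    have h3 : ∀ (K : Type) [Field K], IsAlgClosure K (AlgebraicClosure K) :=
      fun K _ => inferInstance
    convert h3 ℚ
    · rfl
    · exact Subsingleton.elim _ _
  exact ⟨(IsAlgClosure.equiv ℚ (AlgebraicClosure F) (AlgebraicClosure ℚ)).toRingEquiv⟩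

/-- the identification of the algebraic closures -/
noncomputable def ee : AlgebraicClosure F ≃+* AlgebraicClosure ℚ := (exists_e F).some

/-- the embedding of the field -/
noncomputable def jj : F →+* AlgebraicClosure ℚ :=
  (ee F : AlgebraicClosure F →+* AlgebraicClosure ℚ).comp (algebraMap F (AlgebraicClosure F))

/-- the absolute Galois group of `F` inside that of `ℚ` -/
def HH : Subgroup (GF ℚ) where
  carrier := {g | ∀ x : F, g (jj F x) = jj F x}
  one_mem' := fun _ => rfl
  mul_mem' := by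
    intro a b ha hb x
    show a (b (jj F x)) = jj F x
    rw [hb, ha]
  inv_mem' := by
    intro a ha x
    show a.symm (jj F x) = jj F x
    rw [AlgEquiv.symm_apply_eq]
    exact (ha x).symm

variable {F} in
/-- the element of the absolute Galois group of `F` -/
noncomputable def ccFun (h : HH F) : GF F :=
  AlgEquiv.ofRingEquiv (f := (ee F).trans ((h.1 : AlgebraicClosure ℚ ≃+* AlgebraicClosure ℚ).trans
    (ee F).symm)) (by
      intro x
      show (ee F).symm (h.1 (ee F (algebraMap F _ x))) = _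
      rw [RingEquiv.symm_apply_eq]
      exact h.2 x)

variable {F} in
theorem ee_ccFun (h : HH F) (y : AlgebraicClosure F) : ee F (ccFun h y) = h.1 (ee F y) := by
  show ee F ((ee F).symm (h.1 (ee F y))) = _
  rw [RingEquiv.apply_symm_apply]

/-- the homomorphism to the absolute Galois group of `F` -/
noncomputable def cc : HH F →* GF F where
  toFun := ccFun
  map_one' := by
    apply AlgEquiv.ext
    intro y
    apply (ee F).injective
    rw [ee_ccFun]
    rfl
  map_mul' := by
    intro a b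
    apply AlgEquiv.ext
    intro y
    apply (ee F).injective
    show ee F (ccFun (a * b) y) = ee F (ccFun a (ccFun b y))
    rw [ee_ccFun, ee_ccFun, ee_ccFun]
    rfl

theorem ee_cc (h : HH F) (y : AlgebraicClosure F) : ee F (cc F h y) = h.1 (ee F y) := ee_ccFun h y

theorem isOpen_HH : IsOpen (HH F : Set (GF ℚ)) := by
  let b := Module.finBasis ℚ F
  have h1 : (HH F : Set (GF ℚ)) =
      ⋂ i, (MulAction.stabilizer (GF ℚ) (jj F (b i)) : Set (GF ℚ)) := by
    ext g
    rw [Set.mem_iInter]
    constructor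
    · intro hg i
      exact hg (b i)
    · intro hg x
      have hg' : ∀ i, g (jj F (b i)) = jj F (b i) := hg
      rw [← b.sum_repr x, map_sum, map_sum]
      refine Finset.sum_congr rfl fun i _ => ?_
      rw [Algebra.smul_def, eq_ratCast, map_mul, map_mul, hg' i, map_ratCast, map_ratCast]
  rw [h1]
  exact isOpen_iInter_of_finite fun i => isOpen_stab (K := ℚ) (jj F (b i))

instance finite_quot : Finite (GF ℚ ⧸ HH F) := Subgroup.quotient_finite_of_isOpen _ (isOpen_HH F)

instance finiteIndex : (HH F).FiniteIndex := Subgroup.finiteIndex_of_finite_quotient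

theorem card_quot_le : Nat.card (GF ℚ ⧸ HH F) ≤ Module.finrank ℚ F := by
  classical
  rw [← NumberField.Embeddings.card F (AlgebraicClosure ℚ), ← Nat.card_eq_fintype_card]
  let f : (GF ℚ ⧸ HH F) → (F →+* AlgebraicClosure ℚ) := fun q =>
    ((q.out : AlgebraicClosure ℚ ≃+* AlgebraicClosure ℚ) :
      AlgebraicClosure ℚ →+* AlgebraicClosure ℚ).comp (jj F)
  refine Nat.card_le_card_of_injective f fun a b hab => ?_
  have h1 : ∀ x, a.out (jj F x) = b.out (jj F x) := fun x => DFunLike.congr_fun hab x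
  rw [← QuotientGroup.out_eq' a, ← QuotientGroup.out_eq' b, QuotientGroup.eq]
  intro x
  show a.out.symm (b.out (jj F x)) = _
  rw [← h1, AlgEquiv.symm_apply_apply]

theorem isOpen_core : IsOpen ((HH F).normalCore : Set (GF ℚ)) := by
  have h1 : IsClosed (HH F : Set (GF ℚ)) := Subgroup.isClosed_of_isOpen _ (isOpen_HH F)
  have h2 : IsClosed ((HH F).normalCore : Set (GF ℚ)) := Subgroup.normalCore_isClosed _ h1
  exact Subgroup.isOpen_of_isClosed_of_finiteIndex _ h2

theorem continuous_cc : Continuous (cc F) := by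
  apply continuous_of_continuousAt_one
  rw [ContinuousAt, map_one, Filter.tendsto_def]
  intro s hs
  rw [krullTopology_mem_nhds_one_iff] at hs
  obtain ⟨L, hL, hLs⟩ := hs
  let b := Module.finBasis F L
  have h1 : IsOpen (⋂ i, ((fun h : HH F => (h.1 : GF ℚ)) ⁻¹'
      (MulAction.stabilizer (GF ℚ) (ee F (b i : AlgebraicClosure F)) : Set (GF ℚ)))) :=
    isOpen_iInter_of_finite fun i => (isOpen_stab (K := ℚ) _).preimage
      continuous_subtype_val
  refine Filter.mem_of_superset (h1.mem_nhds ?_) ?_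
  · rw [Set.mem_iInter]
    intro i
    exact (MulAction.stabilizer (GF ℚ) (ee F (b i : AlgebraicClosure F))).one_mem
  · intro h hh
    apply hLs
    rw [Set.mem_iInter] at hh
    have hh' : ∀ i, cc F h (b i : AlgebraicClosure F) = (b i : AlgebraicClosure F) := by
      intro i
      apply (ee F).injective
      rw [ee_cc]
      exact hh i
    rw [SetLike.mem_coe, IntermediateField.mem_fixingSubgroup_iff]
    intro x hx
    have h2 := b.sum_repr ⟨x, hx⟩
    have h3 : x = ∑ i, (b.repr ⟨x, hx⟩ i) • (b i : AlgebraicClosure F) := by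
      have h4 := congrArg (L.val) h2
      rw [map_sum] at h4
      exact h4.symm
    rw [h3, map_sum]
    refine Finset.sum_congr rfl fun i _ => ?_
    rw [Algebra.smul_def, map_mul, hh' i]
    congr 1
    exact (cc F h).commutes _

end setup

section primes

variable {F : Type} [Field F] [NumberField F]

/-- the embedding of the rings of integers -/
noncomputable def eO (F : Type) [Field F] [NumberField F] : OO F ≃+* OO ℚ :=
  RingOfIntegers.mapRingEquiv (ee F)

theorem coe_eO (y : OO F) : ((eO F y : OO ℚ) : AlgebraicClosure ℚ) = ee F (y : AlgebraicClosure F) :=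
  rfl

theorem eO_cc (h : HH F) (y : OO F) : eO F (cc F h • y) = (h : GF ℚ) • eO F y := by
  apply RingOfIntegers.ext
  exact ee_cc F h (y : AlgebraicClosure F)

theorem smul_algebraMap_HH (h : HH F) (x : 𝓞 F) :
    (h : GF ℚ) • eO F (algebraMap (𝓞 F) (OO F) x) = eO F (algebraMap (𝓞 F) (OO F) x) := by
  apply RingOfIntegers.ext
  exact h.2 (x : F)

theorem smul_algebraMap (g : GF F) (x : 𝓞 F) :
    g • algebraMap (𝓞 F) (OO F) x = algebraMap (𝓞 F) (OO F) x := by
  apply RingOfIntegers.ext
  exact g.commutes (x : F)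

/-- the prime of the integers of the algebraic closure of `F` -/
noncomputable def pg (P : Ideal (OO ℚ)) (g : GF ℚ) : Ideal (OO F) :=
  P.comap ((MulSemiringAction.toRingHom (GF ℚ) (OO ℚ) g).comp (eO F : OO F →+* OO ℚ))

theorem mem_pg {P : Ideal (OO ℚ)} {g : GF ℚ} {y : OO F} : y ∈ pg P g ↔ g • eO F y ∈ P := Iff.rfl

theorem pg_prime {P : Ideal (OO ℚ)} (hP : P.IsPrime) (g : GF ℚ) : (pg (F := F) P g).IsPrime :=
  Ideal.comap_isPrime _ _

theorem mem_cm_pg {P : Ideal (OO ℚ)} {g : GF ℚ} {x : 𝓞 F} :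
    x ∈ cm (pg P g) ↔ g • eO F (algebraMap (𝓞 F) (OO F) x) ∈ P := Iff.rfl

theorem cm_pg_mul (P : Ideal (OO ℚ)) (g : GF ℚ) (h : HH F) :
    cm (pg (F := F) P (g * h)) = cm (pg P g) := by
  ext x
  rw [mem_cm_pg, mem_cm_pg, mul_smul, smul_algebraMap_HH]

/-- a Frobenius element stabilises the prime -/
theorem frob_mem {K : Type} [Field K] {q : ℕ} (hq : q ≠ 0) {P : Ideal (OO K)} (hP : P.IsPrime)
    {σ : GF K} (hσ : FrobAt q P σ) (z : OO K) : σ • z ∈ P ↔ z ∈ P := by
  have h1 := hσ z
  constructor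
  · intro h
    have h2 : z ^ q ∈ P := by
      have := P.sub_mem h h1
      rwa [sub_sub_cancel] at this
    exact hP.mem_of_pow_mem q h2
  · intro h
    have h2 : z ^ q ∈ P := P.pow_mem_of_mem h q (Nat.pos_of_ne_zero hq)
    have := P.add_mem h1 h2
    rwa [sub_add_cancel] at this

theorem cm_pg_frob {q : ℕ} (hq : q ≠ 0) {P : Ideal (OO ℚ)} (hP : P.IsPrime) {σ : GF ℚ}
    (hσ : FrobAt q P σ) (g : GF ℚ) : cm (pg (F := F) P (σ * g)) = cm (pg P g) := by
  ext x
  rw [mem_cm_pg, mem_cm_pg, mul_smul, frob_mem hq hP hσ]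

theorem frob_pow {K : Type} [Field K] {q : ℕ} {P : Ideal (OO K)}
    {σ : GF K} (hσ : FrobAt q P σ) (m : ℕ) : FrobAt (q ^ m) P (σ ^ m) := by
  induction m with
  | zero =>
    intro x
    rw [pow_zero, one_smul, pow_zero, pow_one, sub_self]
    exact P.zero_mem
  | succ m ih =>
    intro x
    rw [pow_succ', mul_smul, pow_succ, pow_mul]
    have h1 := hσ (σ ^ m • x)
    have h2 : (σ ^ m • x) ^ q - (x ^ q ^ m) ^ q ∈ P := P.mem_of_dvd (sub_dvd_pow_sub_pow _ _ q)
      (ih x)
    have := P.add_mem h1 h2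
    rwa [sub_add_sub_cancel] at this

/-- two elements with the same Frobenius property differ by inertia -/
theorem frob_inertia {K : Type} [Field K] {q : ℕ} (hq : q ≠ 0) {P : Ideal (OO K)} (hP : P.IsPrime)
    {σ τ : GF K} (hσ : FrobAt q P σ) (hτ : FrobAt q P τ) : InInertia P (σ⁻¹ * τ) := by
  intro x
  rw [← frob_mem hq hP hσ, smul_sub, mul_smul, smul_inv_smul]
  have := P.sub_mem (hτ x) (hσ x)
  rwa [sub_sub_sub_cancel_right] at this

theorem exists_pg {p : ℕ} (hp : p.Prime) {P : Ideal (OO ℚ)} (hP : P.IsMaximal)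
    (hpP : (p : OO ℚ) ∈ P) (v : HeightOneSpectrum (𝓞 F)) (hv : (p : 𝓞 F) ∈ v.asIdeal) :
    ∃ g, cm (pg P g) = v.asIdeal := by
  obtain ⟨Q, -, hQ, hQv, -⟩ := frob_cm v
  set Q' : Ideal (OO ℚ) := Q.comap ((eO F).symm : OO ℚ →+* OO F) with hQ'
  have hmax : Q'.IsMaximal := Ideal.comap_isMaximal_of_equiv (eO F).symm
  have hpQ : (p : OO F) ∈ Q := by
    rw [← natCast_mem_cm, hQv]
    exact hv
  have hpQ' : (p : OO ℚ) ∈ Q' := by
    rw [hQ', Ideal.mem_comap, map_natCast]
    exact hpQ
  have h1 : cm P = cm Q' := by rw [cm_eq hp hP hpP, cm_eq hp hmax hpQ']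
  obtain ⟨g, hg⟩ := exists_smul P Q' hP.isPrime hmax.isPrime h1
  refine ⟨g⁻¹, ?_⟩
  ext x
  rw [mem_cm_pg, ← hg, hQ', Ideal.mem_comap]
  have h2 : ((eO F).symm : OO ℚ →+* OO F) (eO F (algebraMap (𝓞 F) (OO F) x)) =
    algebraMap (𝓞 F) (OO F) x := (eO F).symm_apply_apply _
  rw [h2, ← hQv]
  rfl

end primes

end Pool.Agent.Y115.T
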