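import Pool.Agent.Y115.Tr1

set_option autoImplicit false
set_option linter.unusedSectionVars false
set_option linter.deprecated false

/-!
# Counting the cosets above a place
-/

namespace Pool.Agent.Y115.T

open NumberField IsDedekindDomain Pool.Agent.W569.FM Pool.Agent.W571.FM

variable {F : Type} [Field F] [NumberField F]

/-- the residue field is small if a power of Frobenius is trivial on it -/
theorem absNorm_le {v : HeightOneSpectrum (𝓞 F)} {Q : ℕ} (hQ : 1 < Q)
    (h : ∀ x : 𝓞 F, x - x ^ Q ∈ v.asIdeal) : Ideal.absNorm v.asIdeal ≤ Q := by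
  classical
  have hmax : v.asIdeal.IsMaximal := v.isMaximal
  let _ : Field (𝓞 F ⧸ v.asIdeal) := Ideal.Quotient.field v.asIdeal
  have hfin : Finite (𝓞 F ⧸ v.asIdeal) := Ideal.finiteQuotientOfFreeOfNeBot v.asIdeal v.ne_bot
  let _ : Fintype (𝓞 F ⧸ v.asIdeal) := Fintype.ofFinite _
  rw [Ideal.absNorm_apply, Submodule.cardQuot_apply, Nat.card_eq_fintype_card]
  have h1 : (Polynomial.X ^ Q - Polynomial.X : Polynomial (𝓞 F ⧸ v.asIdeal)) ≠ 0 :=
    FiniteField.X_pow_card_sub_X_ne_zero _ hQ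
  have h2 : (Finset.univ : Finset (𝓞 F ⧸ v.asIdeal)).val ⊆
      (Polynomial.X ^ Q - Polynomial.X : Polynomial (𝓞 F ⧸ v.asIdeal)).roots := by
    intro y _
    rw [Polynomial.mem_roots h1, Polynomial.IsRoot, Polynomial.eval_sub, Polynomial.eval_pow,
      Polynomial.eval_X]
    obtain ⟨x, rfl⟩ := Ideal.Quotient.mk_surjective y
    rw [← map_pow, ← map_sub, Ideal.Quotient.eq_zero_iff_mem]
    have := v.asIdeal.neg_mem (h x)
    rwa [neg_sub] at this
  have h3 := Polynomial.card_le_degree_of_subset_roots h2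
  rw [FiniteField.X_pow_card_sub_X_natDegree_eq _ hQ] at h3
  exact h3

/-- the prime of `F` given by a coset -/
noncomputable def vq (P : Ideal (OO ℚ)) (q : GF ℚ ⧸ HH F) : Ideal (𝓞 F) := cm (pg P q.out)

theorem vq_mk (P : Ideal (OO ℚ)) (g : GF ℚ) :
    vq P (g : GF ℚ ⧸ HH F) = cm (pg P g) := by
  obtain ⟨h, hh⟩ := QuotientGroup.mk_out_eq_mul (HH F) g
  unfold vq
  rw [hh, cm_pg_mul]

theorem fiber_ge {p : ℕ} (hp : p.Prime) {P : Ideal (OO ℚ)} (hP : P.IsMaximal)
    (hpP : (p : OO ℚ) ∈ P) {σ : GF ℚ} (hσ : FrobAt p P σ) (v : HeightOneSpectrum (𝓞 F))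
    (hv : (p : 𝓞 F) ∈ v.asIdeal) {f : ℕ} (hf : Ideal.absNorm v.asIdeal = p ^ f) :
    f ≤ Nat.card {q : GF ℚ ⧸ HH F // vq P q = v.asIdeal} := by
  obtain ⟨g, hg⟩ := exists_pg hp hP hpP v hv
  have hm : ∀ m : ℕ, 0 < m → m < f → ∀ h ∈ HH F, g * h ≠ σ ^ m * g := by
    intro m hm hmf h hh heq'
    have h1 : 1 < p ^ m := Nat.one_lt_pow hm.ne' hp.one_lt
    have h2 : Ideal.absNorm v.asIdeal ≤ p ^ m := by
      apply absNorm_le h1
      intro x
      rw [← hg, mem_cm_pg]
      have h3 := frob_pow hσ m (g • eO F (algebraMap (𝓞 F) (OO F) x))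
      rw [smul_smul, ← heq', mul_smul] at h3
      have h4 := smul_algebraMap_HH (F := F) ⟨h, hh⟩ x
      rw [show h • eO F (algebraMap (𝓞 F) (OO F) x) = eO F (algebraMap (𝓞 F) (OO F) x) from h4]
        at h3
      rw [map_sub, map_sub, smul_sub, map_pow, map_pow, smul_pow']
      exact h3
    rw [hf] at h2
    exact absurd h2 (not_le.2 (Nat.pow_lt_pow_right hp.one_lt hmf))
  have hle : ∀ i : ℕ, vq P ((σ ^ i * g : GF ℚ) : GF ℚ ⧸ HH F) = v.asIdeal := by
    intro i
    rw [vq_mk, cm_pg_frob (pow_ne_zero i hp.ne_zero) hP.isPrime (frob_pow hσ i), hg]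
  let Φ : Fin f → {q : GF ℚ ⧸ HH F // vq P q = v.asIdeal} := fun i =>
    ⟨((σ ^ (i : ℕ) * g : GF ℚ) : GF ℚ ⧸ HH F), hle i⟩
  have hinj : Function.Injective Φ := by
    have key : ∀ i j : Fin f, (i : ℕ) < j → Φ i ≠ Φ j := by
      intro i j hij h
      have h1 : ((σ ^ (i : ℕ) * g : GF ℚ) : GF ℚ ⧸ HH F) = ((σ ^ (j : ℕ) * g : GF ℚ) :
        GF ℚ ⧸ HH F) := congrArg Subtype.val h
      rw [QuotientGroup.eq] at h1
      refine hm (j - i) (by omega) (by omega) _ h1 ?_
      have h2 : (j : ℕ) = i + (j - i) := by omega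
      rw [h2, pow_add, Nat.add_sub_cancel_left]
      group
    intro i j hij
    rcases lt_trichotomy (i : ℕ) j with h | h | h
    · exact absurd hij (key i j h)
    · exact Fin.ext h
    · exact absurd hij.symm (key j i h)
  have h1 := Nat.card_le_card_of_injective Φ hinj
  rwa [Nat.card_fin] at h1

/-- `p` is unramified in `F` -/
def Unram (F : Type) [Field F] [NumberField F] (p : ℕ) : Prop :=
  ∀ v : HeightOneSpectrum (𝓞 F), (p : 𝓞 F) ∈ v.asIdeal → (p : 𝓞 F) ∉ v.asIdeal ^ 2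

theorem sum_deg {p : ℕ} (hp : p.Prime) (hur : Unram F p) (S : Finset (HeightOneSpectrum (𝓞 F)))
    (hS : ∀ v, v ∈ S ↔ (p : 𝓞 F) ∈ v.asIdeal) : ∃ f : HeightOneSpectrum (𝓞 F) → ℕ,
      (∀ v ∈ S, Ideal.absNorm v.asIdeal = p ^ f v) ∧ ∑ v ∈ S, f v = Module.finrank ℚ F := by
  classical
  have hpz : Prime (p : ℤ) := Nat.prime_iff_prime_int.1 hp
  set I : Ideal ℤ := Ideal.span {(p : ℤ)} with hI
  have hIne : I ≠ ⊥ := by
    rw [hI, Ne, Ideal.span_singleton_eq_bot]
    exact hpz.ne_zero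
  have hIp : I.IsPrime := (Ideal.span_singleton_prime hpz.ne_zero).2 hpz
  have hImax : I.IsMaximal := hIp.isMaximal hIne
  have hmap : I.map (algebraMap ℤ (𝓞 F)) = Ideal.span {(p : 𝓞 F)} := by
    rw [hI, Ideal.map_span, Set.image_singleton]
    simp
  have hover : ∀ v : HeightOneSpectrum (𝓞 F), (p : 𝓞 F) ∈ v.asIdeal → v.asIdeal.LiesOver I := by
    intro v hv
    refine ⟨hImax.eq_of_le ?_ ?_⟩
    · intro h
      rw [Ideal.eq_top_iff_one, Ideal.mem_comap, map_one] at h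
      exact v.isPrime.ne_top ((Ideal.eq_top_iff_one _).2 h)
    · rw [hI, Ideal.span_singleton_le_iff_mem, Ideal.mem_comap]
      simpa using hv
  refine ⟨fun v => I.inertiaDeg' v.asIdeal, fun v hv => ?_, ?_⟩
  · have := hover v ((hS v).1 hv)
    exact Ideal.absNorm_eq_pow_inertiaDeg' v.asIdeal hp
  · rw [← Ideal.sum_ramification_inertia (S := 𝓞 F) ℚ F hIne]
    have h1 : IsDedekindDomain.primesOverFinset I (𝓞 F) =
        S.image (fun v : HeightOneSpectrum (𝓞 F) => v.asIdeal) := by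
      ext Q
      rw [IsDedekindDomain.mem_primesOverFinset_iff hIne, Finset.mem_image]
      constructor
      · rintro ⟨hQ, hQo⟩
        have hpQ : (p : 𝓞 F) ∈ Q := by
          have h2 : (p : ℤ) ∈ Q.under ℤ := by
            rw [← hQo.over, hI]
            exact Ideal.mem_span_singleton_self _
          rw [Ideal.under, Ideal.mem_comap] at h2
          simpa using h2
        have hne : Q ≠ ⊥ := by
          intro h
          rw [h, Ideal.mem_bot, Nat.cast_eq_zero] at hpQ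
          exact hp.ne_zero hpQ
        exact ⟨⟨Q, hQ, hne⟩, (hS _).2 hpQ, rfl⟩
      · rintro ⟨v, hv, rfl⟩
        exact ⟨v.isPrime, hover v ((hS v).1 hv)⟩
    rw [h1, Finset.sum_image (fun v _ w _ h => HeightOneSpectrum.ext h)]
    refine Finset.sum_congr rfl fun v hv => ?_
    have h2 : Ideal.ramificationIdx' I v.asIdeal = 1 := by
      apply Ideal.ramificationIdx'_spec
      · rw [hmap, pow_one, Ideal.span_singleton_le_iff_mem]
        exact (hS v).1 hv
      · rw [hmap, Ideal.span_singleton_le_iff_mem]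
        exact hur v ((hS v).1 hv)
    rw [h2, one_mul]

/-- the fibres of the map from the cosets to the places above `p` -/
theorem fibers {p : ℕ} (hp : p.Prime) {P : Ideal (OO ℚ)} (hP : P.IsMaximal)
    (hpP : (p : OO ℚ) ∈ P) {σ : GF ℚ} (hσ : FrobAt p P σ) (hur : Unram F p) :
    ∃ (S : Finset (HeightOneSpectrum (𝓞 F))) (f : HeightOneSpectrum (𝓞 F) → ℕ)
      (V : GF ℚ ⧸ HH F → HeightOneSpectrum (𝓞 F)),
      (∀ v, v ∈ S ↔ (p : 𝓞 F) ∈ v.asIdeal) ∧
      (∀ v ∈ S, Ideal.absNorm v.asIdeal = p ^ f v) ∧ (∀ q, V q ∈ S) ∧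
      (∀ g : GF ℚ, (V (g : GF ℚ ⧸ HH F)).asIdeal = cm (pg P g)) ∧
      (∀ v ∈ S, Nat.card {q // V q = v} = f v) ∧ ∑ v ∈ S, f v = Module.finrank ℚ F := by
  classical
  let _ : Fintype (GF ℚ ⧸ HH F) := Fintype.ofFinite _
  have hV : ∀ q : GF ℚ ⧸ HH F, ∃ v : HeightOneSpectrum (𝓞 F), v.asIdeal = vq P q := by
    intro q
    have h1 : (vq P q).IsPrime := by
      unfold vq cm
      have := pg_prime (F := F) hP.isPrime q.out
      exact Ideal.comap_isPrime _ _
    refine ⟨⟨vq P q, h1, ?_⟩, rfl⟩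
    intro h
    have h2 : (p : 𝓞 F) ∈ vq P q := by
      unfold vq
      rw [mem_cm_pg, map_natCast, map_natCast]
      have h3 : q.out • (p : OO ℚ) = (p : OO ℚ) := by
        apply RingOfIntegers.ext
        exact map_natCast q.out p
      rw [h3]
      exact hpP
    rw [h, Ideal.mem_bot, Nat.cast_eq_zero] at h2
    exact hp.ne_zero h2
  choose V hV using hV
  have hVp : ∀ q, (p : 𝓞 F) ∈ (V q).asIdeal := by
    intro q
    rw [hV]
    unfold vq
    rw [mem_cm_pg, map_natCast, map_natCast]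
    have h3 : q.out • (p : OO ℚ) = (p : OO ℚ) := by
      apply RingOfIntegers.ext
      exact map_natCast q.out p
    rw [h3]
    exact hpP
  set S : Finset (HeightOneSpectrum (𝓞 F)) := Finset.univ.image V with hS
  have hS' : ∀ v, v ∈ S ↔ (p : 𝓞 F) ∈ v.asIdeal := by
    intro v
    rw [hS, Finset.mem_image]
    constructor
    · rintro ⟨q, -, rfl⟩
      exact hVp q
    · intro hv
      obtain ⟨g, hg⟩ := exists_pg hp hP hpP v hv
      refine ⟨(g : GF ℚ ⧸ HH F), Finset.mem_univ _, ?_⟩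
      apply HeightOneSpectrum.ext
      rw [hV, vq_mk, hg]
  obtain ⟨f, hf, hsum⟩ := sum_deg hp hur S hS'
  have hmem : ∀ q, V q ∈ S := fun q => Finset.mem_image_of_mem _ (Finset.mem_univ _)
  have hge : ∀ v ∈ S, f v ≤ Nat.card {q // V q = v} := by
    intro v hv
    have h1 := fiber_ge (F := F) hp hP hpP hσ v ((hS' v).1 hv) (hf v hv)
    refine h1.trans (le_of_eq ?_)
    apply Nat.card_congr
    refine Equiv.subtypeEquivRight fun q => ?_
    rw [← hV, HeightOneSpectrum.ext_iff]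
  have htot : ∑ v ∈ S, Nat.card {q // V q = v} = Nat.card (GF ℚ ⧸ HH F) := by
    rw [Nat.card_eq_fintype_card, ← Finset.card_univ,
      Finset.card_eq_sum_card_fiberwise (f := V) (t := S) (fun q _ => hmem q)]
    refine Finset.sum_congr rfl fun v _ => ?_
    rw [Nat.card_eq_fintype_card, Fintype.card_subtype]
  have hle := card_quot_le F
  have heq : ∑ v ∈ S, f v = ∑ v ∈ S, Nat.card {q // V q = v} := by
    apply le_antisymm (Finset.sum_le_sum hge)
    rw [htot, hsum]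
    exact hle
  have h5 := (Finset.sum_eq_sum_iff_of_le hge).1 heq
  refine ⟨S, f, V, hS', hf, hmem, fun g => ?_, fun v hv => (h5 v hv).symm, hsum⟩
  rw [hV, vq_mk]

end Pool.Agent.Y115.T
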