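import Pool.Agent.Y115.Tr2

set_option autoImplicit false
set_option linter.unusedSectionVars false

/-!
# The transfer of a character, at Frobenius elements
-/

namespace Pool.Agent.Y115.T

open NumberField IsDedekindDomain Pool.Agent.W569.FM Pool.Agent.W571.FM

section group

variable {G : Type*} [Group G] {H : Subgroup G} {A : Type*} [CommGroup A]

theorem core_conj {g : G} (hg : g ∈ H.normalCore) (a : G) : a⁻¹ * g * a ∈ H := by
  have h1 := (H.normalCore_normal).conj_mem g hg a⁻¹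
  rw [inv_inv] at h1
  exact H.normalCore_le h1

/-- the transfer on the normal core -/
theorem transfer_core [H.FiniteIndex] [Fintype (G ⧸ H)] (φ : H →* A) {g : G}
    (hg : g ∈ H.normalCore) :
    MonoidHom.transfer φ g = ∏ q : G ⧸ H, φ ⟨q.out⁻¹ * g * q.out, core_conj hg q.out⟩ := by
  classical
  have hout : ∀ q : G ⧸ H, ((q.out : G) : G ⧸ H) = q := fun q => QuotientGroup.out_eq' q
  let T : H.LeftTransversal := ⟨Set.range (fun q : G ⧸ H => (q.out : G)),
    Subgroup.isComplement_range_left hout⟩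
  have hα : ∀ q : G ⧸ H, ((T.2.leftQuotientEquiv q : T.1) : G) = q.out := fun q =>
    Subgroup.IsComplement.leftQuotientEquiv_apply hout q
  have hβ : ∀ q : G ⧸ H, (((g • T).2.leftQuotientEquiv q : (g • T).1) : G) = g * q.out := by
    intro q
    have h1 := Subgroup.smul_apply_eq_smul_apply_inv_smul g T q
    have h2 : g⁻¹ • q = q := by
      have h3 : g⁻¹ ∈ (MulAction.toPermHom G (G ⧸ H)).ker := by
        rw [← Subgroup.normalCore_eq_ker]
        exact inv_mem hg
      have h4 := Equiv.ext_iff.1 (MonoidHom.mem_ker.1 h3) q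
      exact h4
    rw [h2] at h1
    rw [h1, hα]
    rfl
  rw [MonoidHom.transfer_def φ T g]
  unfold Subgroup.leftTransversals.diff
  simp only
  refine Finset.prod_bij' (fun q _ => q) (fun q _ => q) ?_ ?_ ?_ ?_ ?_
  · intro q _
    exact Finset.mem_univ _
  · intro q _
    exact @Finset.mem_univ _ (_) _
  · intro q _
    rfl
  · intro q _
    rfl
  · intro q _
    congr 1
    apply Subtype.ext
    simp only
    rw [hα, hβ, mul_assoc]

theorem continuous_transfer [TopologicalSpace G] [IsTopologicalGroup G] [TopologicalSpace A]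
    [IsTopologicalGroup A] [H.FiniteIndex] (hcore : IsOpen (H.normalCore : Set G)) (φ : H →* A)
    (hφ : Continuous φ) : Continuous (MonoidHom.transfer φ) := by
  classical
  let _ : Fintype (G ⧸ H) := Fintype.ofFinite _
  apply continuous_of_continuousAt_one
  have h1 : ContinuousOn (MonoidHom.transfer φ) (H.normalCore : Set G) := by
    rw [continuousOn_iff_continuous_domRestrict]
    have h2 : Set.domRestrict (H.normalCore : Set G) (MonoidHom.transfer φ) = fun g =>
        ∏ q : G ⧸ H, φ ⟨q.out⁻¹ * g.1 * q.out, core_conj g.2 q.out⟩ := by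
      funext g
      exact transfer_core φ g.2
    rw [h2]
    refine continuous_finsetProd _ fun q _ => ?_
    refine hφ.comp (Continuous.subtype_mk ?_ _)
    fun_prop
  exact h1.continuousAt (hcore.mem_nhds (H.normalCore).one_mem)

end group

section frob

variable {F : Type} [Field F] [NumberField F]

/-- Frobenius elements exist at every prime -/
theorem exists_frobAt (v : HeightOneSpectrum (𝓞 F)) {Q : Ideal (OO F)} (hQ : Q.IsPrime)
    (hv : cm Q = v.asIdeal) : ∃ φ : GF F, FrobAt (Ideal.absNorm v.asIdeal) Q φ := by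
  obtain ⟨P, σ, hP, hPv, hσ⟩ := frob_cm v
  obtain ⟨g, hg⟩ := exists_smul P Q hP.isPrime hQ (hPv.trans hv.symm)
  refine ⟨g * σ * g⁻¹, fun x => ?_⟩
  rw [hg, smul_sub, smul_pow', smul_smul]
  have h1 := hσ (g⁻¹ • x)
  rw [smul_smul] at h1
  have h2 : g⁻¹ * (g * σ * g⁻¹) = σ * g⁻¹ := by group
  rw [h2]
  exact h1

/-- **The transfer of a character at Frobenius elements.** -/
theorem transfer_frob {A : Type*} [CommGroup A] (ψ : GF F →* A) {p : ℕ} (hp : p.Prime)
    {P : Ideal (OO ℚ)} (hP : P.IsMaximal) (hpP : (p : OO ℚ) ∈ P) {σ : GF ℚ}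
    (hσ : FrobAt p P σ) (hur : Unram F p) (d : HeightOneSpectrum (𝓞 F) → A)
    (hd : ∀ v : HeightOneSpectrum (𝓞 F), (p : 𝓞 F) ∈ v.asIdeal → ∀ Q : Ideal (OO F), Q.IsPrime →
      cm Q = v.asIdeal → (∀ τ, InInertia Q τ → ψ τ = 1) ∧
        ∀ φ, FrobAt (Ideal.absNorm v.asIdeal) Q φ → ψ φ = d v) :
    ∃ (M : ℕ) (S : Finset (HeightOneSpectrum (𝓞 F))), 0 < M ∧
      (∀ v, v ∈ S ↔ (p : 𝓞 F) ∈ v.asIdeal) ∧
      MonoidHom.transfer (ψ.comp (cc F)) σ ^ M = (∏ v ∈ S, d v) ^ M ∧
      ∃ f : HeightOneSpectrum (𝓞 F) → ℕ, (∀ v ∈ S, Ideal.absNorm v.asIdeal = p ^ f v) ∧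
        ∑ v ∈ S, f v = Module.finrank ℚ F := by
  classical
  let _ : Fintype (GF ℚ ⧸ HH F) := Fintype.ofFinite _
  obtain ⟨S, f, V, hS, hf, hVS, hVg, hfib, hsum⟩ := fibers hp hP hpP hσ hur
  have hf0 : ∀ v ∈ S, 0 < f v := by
    intro v hv
    rcases Nat.eq_zero_or_pos (f v) with h | h
    · exfalso
      have h1 := hf v hv
      rw [h, pow_zero, Ideal.absNorm_eq_one_iff] at h1
      exact v.isPrime.ne_top h1
    · exact h
  have hfin : ((HH F).normalCore).FiniteIndex := inferInstance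
  set m₀ := ((HH F).normalCore).index with hm₀
  have hm0 : 0 < m₀ := Nat.pos_of_ne_zero hfin.index_ne_zero
  have hcore : σ ^ m₀ ∈ (HH F).normalCore := Subgroup.pow_index_mem _ σ
  set M := m₀ * ∏ v ∈ S, f v with hM
  have hM0 : 0 < M := Nat.mul_pos hm0 (Finset.prod_pos hf0)
  have hdvd : ∀ v ∈ S, ∃ k, M = f v * k := fun v hv =>
    dvd_mul_of_dvd_right (Finset.dvd_prod_of_mem f hv) m₀
  choose! k hk using hdvd
  have hMcore : σ ^ M ∈ (HH F).normalCore := by
    rw [hM, pow_mul]
    exact Subgroup.pow_mem _ hcore _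
  refine ⟨M, S, hM0, hS, ?_, f, hf, hsum⟩
  rw [← map_pow, transfer_core (ψ.comp (cc F)) hMcore]
  have hval : ∀ q : GF ℚ ⧸ HH F, (ψ.comp (cc F)) ⟨q.out⁻¹ * σ ^ M * q.out,
      core_conj hMcore q.out⟩ = d (V q) ^ k (V q) := by
    intro q
    set a : HH F := ⟨q.out⁻¹ * σ ^ M * q.out, core_conj hMcore q.out⟩ with ha
    set Q : Ideal (OO F) := pg P q.out with hQ
    have hQp : Q.IsPrime := pg_prime hP.isPrime _
    have hQv : cm Q = (V q).asIdeal := by
      rw [hQ, ← hVg, QuotientGroup.out_eq']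
    have hvp : (p : 𝓞 F) ∈ (V q).asIdeal := (hS _).1 (hVS q)
    have haF : FrobAt (p ^ M) Q (cc F a) := by
      intro y
      rw [hQ, mem_pg, map_sub, eO_cc, smul_sub, map_pow, smul_pow', smul_smul]
      have h1 : (q.out : GF ℚ) * (a : GF ℚ) = σ ^ M * q.out := by
        rw [ha]
        group
      rw [h1, mul_smul]
      exact frob_pow hσ M _
    obtain ⟨φ, hφ⟩ := exists_frobAt (V q) hQp hQv
    obtain ⟨hin, hfr⟩ := hd (V q) hvp Q hQp hQv
    have hφk : FrobAt (p ^ M) Q (φ ^ k (V q)) := by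
      have h1 := frob_pow hφ (k (V q))
      rw [hf (V q) (hVS q), ← pow_mul, ← hk (V q) (hVS q)] at h1
      exact h1
    have h2 := hin _ (frob_inertia (pow_ne_zero M hp.ne_zero) hQp hφk haF)
    rw [map_mul, map_inv, map_pow, hfr φ hφ, inv_mul_eq_one] at h2
    exact h2.symm
  rw [Finset.prod_congr rfl fun q _ => hval q, ← Finset.prod_pow]
  rw [← Finset.prod_fiberwise_of_maps_to (s := Finset.univ) (t := S) (g := V)
    (fun q _ => hVS q)]
  refine Finset.prod_congr rfl fun v hv => ?_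
  have h3 : ∀ q ∈ Finset.univ.filter (fun q => V q = v), d (V q) ^ k (V q) = d v ^ k v := by
    intro q hq
    rw [(Finset.mem_filter.1 hq).2]
  rw [Finset.prod_congr rfl h3, Finset.prod_const, ← pow_mul]
  congr 1
  have h4 : (Finset.univ.filter (fun q => V q = v)).card = f v := by
    rw [← hfib v hv, Nat.card_eq_fintype_card, Fintype.card_subtype]
  rw [h4, hk v hv, mul_comm]

end frob

end Pool.Agent.Y115.T
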