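import Mathlib
import Pool.Agent.TH831.OT.Gal

set_option autoImplicit false
set_option linter.unusedSectionVars false

/-!
# Homomorphisms from the absolute Galois group of `ℚ` to the `p`-adic numbers

They are all proportional.
-/

namespace Pool.Agent.Y115.Z

open NumberField Pool.Agent.W569.FM Pool.Agent.W134.FM Pool.Agent.TH831.OT Multiplicative

variable {p : ℕ} [hp : Fact p.Prime]

/-- additive -/
def IsAdd {G A : Type*} [Group G] [AddCommGroup A] (φ : G → A) : Prop :=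
  ∀ g h, φ (g * h) = φ g + φ h

section isadd

variable {G A : Type*} [Group G] [AddCommGroup A] {φ : G → A}

theorem IsAdd.one (h : IsAdd φ) : φ 1 = 0 := by
  have h1 := h 1 1
  rw [mul_one] at h1
  exact left_eq_add.1 h1

theorem IsAdd.inv (h : IsAdd φ) (g : G) : φ g⁻¹ = -φ g := by
  have h1 := h g g⁻¹
  rw [mul_inv_cancel, h.one] at h1
  exact (neg_eq_of_add_eq_zero_right h1.symm).symm

/-- the multiplicative form -/
def IsAdd.hom (h : IsAdd φ) : G →* Multiplicative A where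
  toFun g := ofAdd (φ g)
  map_one' := by rw [h.one, ofAdd_zero]
  map_mul' a b := by rw [h a b, ofAdd_add]

theorem IsAdd.pow (h : IsAdd φ) (g : G) (n : ℕ) : φ (g ^ n) = n • φ g := by
  induction n with
  | zero => rw [pow_zero, h.one, zero_smul]
  | succ n ih => rw [pow_succ, h, ih, succ_nsmul]

end isadd

/-- `ℤ_p` has no nonzero element divisible by all powers of `p` modulo which it vanishes -/
theorem eq_zero_of_toZModPow {x : ℤ_[p]} (h : ∀ n, PadicInt.toZModPow n x = 0) : x = 0 := by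
  apply PadicInt.ext_of_toZModPow.1
  intro n
  rw [h n, map_zero]

theorem isOpen_ker_toZModPow (n : ℕ) : IsOpen {x : ℤ_[p] | PadicInt.toZModPow n x = 0} := by
  have h1 : {x : ℤ_[p] | PadicInt.toZModPow n x = 0} = {x : ℤ_[p] | ‖x‖ ≤ (p : ℝ) ^ (-n : ℤ)} := by
    ext x
    simp only [Set.mem_ofPred_eq]
    rw [PadicInt.norm_le_pow_iff_mem_span_pow, ← PadicInt.ker_toZModPow, RingHom.mem_ker]
  rw [h1]
  have h2 : {x : ℤ_[p] | ‖x‖ ≤ (p : ℝ) ^ (-n : ℤ)} = Metric.closedBall 0 ((p : ℝ) ^ (-n : ℤ)) := by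
    ext x
    simp
  rw [h2]
  exact IsUltrametricDist.isOpen_closedBall _ (zpow_pos (by exact_mod_cast hp.out.pos) _).ne'

theorem isOpen_ker_toZMod : IsOpen {x : ℤ_[p] | PadicInt.toZMod x = 0} := by
  have h1 : {x : ℤ_[p] | PadicInt.toZMod x = 0} = {x : ℤ_[p] | ‖x‖ < 1} := by
    ext x
    simp only [Set.mem_ofPred_eq]
    rw [← RingHom.mem_ker, PadicInt.ker_toZMod, PadicInt.maximalIdeal_eq_span_p,
      ← pow_one (p : ℤ_[p]), ← PadicInt.norm_le_pow_iff_mem_span_pow,
      PadicInt.norm_le_pow_iff_norm_lt_pow_add_one]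
    simp
  rw [h1]
  exact isOpen_lt continuous_norm continuous_const

/-- homomorphisms to `ℤ_p` are unramified outside `p` -/
theorem unram {φ : GF ℚ → ℤ_[p]} (hm : IsAdd φ) (hc : Continuous φ) {l : ℕ} (hl : l.Prime)
    (hlp : l ≠ p) {P : Ideal (OO ℚ)} (hP : P.IsMaximal) (hlP : (l : OO ℚ) ∈ P) {τ : GF ℚ}
    (hτ : InInertia P τ) : φ τ = 0 := by
  have hTAME : S_TAME := Pool.Agent.W327.FM.main Pool.Agent.W258.FM.main
  obtain ⟨σ, hσ⟩ := Pool.Agent.W924.UF.frobp l hl P hP hlP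
  have key : ∀ n : ℕ, PadicInt.toZModPow n (((l - 1 : ℕ) : ℤ_[p]) * φ τ) = 0 := by
    intro n
    have hpn : NeZero (p ^ n) := ⟨pow_ne_zero n hp.out.ne_zero⟩
    have hadd : IsAdd fun g => PadicInt.toZModPow n (φ g) := fun g h => by
      simp only
      rw [hm, map_add]
    set f := hadd.hom with hf
    have hfo : IsOpen (f.ker : Set (GF ℚ)) := by
      have h1 : (f.ker : Set (GF ℚ)) = φ ⁻¹' {x : ℤ_[p] | PadicInt.toZModPow n x = 0} := by
        ext g
        rw [SetLike.mem_coe, MonoidHom.mem_ker]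
        exact ofAdd_eq_one
      rw [h1]
      exact (isOpen_ker_toZModPow n).preimage hc
    have hpg : IsPGroup p (Multiplicative (ZMod (p ^ n))) := by
      intro g
      refine ⟨n, ?_⟩
      apply toAdd.injective
      rw [toAdd_pow, toAdd_one, nsmul_eq_mul, ZMod.natCast_self, zero_mul]
    have h1 := (hTAME p l hp.out hl (Ne.symm hlp) _ hpg f hfo P hP hlP).1 τ hτ σ hσ
    rw [map_mul, map_mul, map_inv, mul_comm (f σ), mul_inv_cancel_right] at h1
    have h2 := congrArg toAdd h1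
    rw [toAdd_pow] at h2
    have h3 : toAdd (f τ) = PadicInt.toZModPow n (φ τ) := rfl
    rw [h3, nsmul_eq_mul] at h2
    rw [map_mul, map_natCast]
    have h4 : ((l - 1 : ℕ) : ZMod (p ^ n)) = (l : ZMod (p ^ n)) - 1 := by
      rw [Nat.cast_sub hl.one_le, Nat.cast_one]
    rw [h4]
    linear_combination -h2
  have h1 := eq_zero_of_toZModPow key
  have h2 : ((l - 1 : ℕ) : ℤ_[p]) ≠ 0 := by
    have := hl.two_le
    exact_mod_cast (by omega : l - 1 ≠ 0)
  exact (mul_eq_zero.1 h1).resolve_left h2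

/-- the arithmetic data -/
theorem exists_primes : ∃ P : ℕ → Ideal (OO ℚ), ∀ l : ℕ, l.Prime →
    (P l).IsMaximal ∧ (l : OO ℚ) ∈ P l := by
  have hFROB : S_FROB := Pool.Agent.W571.FM.main
  have e1 : ∀ l : ℕ, ∃ P : Ideal (OO ℚ), l.Prime → P.IsMaximal ∧ (l : OO ℚ) ∈ P := by
    intro l
    by_cases hl : l.Prime
    · obtain ⟨P, hP, hlP, -⟩ := (hFROB l hl).1
      exact ⟨P, fun _ => ⟨hP, hlP⟩⟩
    · exact ⟨⊥, fun h => absurd h hl⟩
  choose P hP using e1
  exact ⟨P, fun l hl => hP l hl⟩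

/-- a homomorphism trivial on all inertia groups is trivial -/
theorem trivial_of (F : GF ℚ → ZMod p) (hF : IsAdd F) (ho : IsOpen {g | F g = 0})
    (P : ℕ → Ideal (OO ℚ)) (hP : ∀ l : ℕ, l.Prime → (P l).IsMaximal ∧ (l : OO ℚ) ∈ P l)
    (h : ∀ l : ℕ, l.Prime → ∀ τ : GF ℚ, InInertia (P l) τ → F τ = 0) : ∀ g, F g = 0 := by
  have hGEN : S_GEN := Pool.Agent.W215.FM.main
  have hFROB : S_FROB := Pool.Agent.W571.FM.main
  intro g
  have h1 := trivial_of_trivial hGEN hFROB hF.hom (by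
    have e : (hF.hom.ker : Set (GF ℚ)) = {g | F g = 0} := by
      ext g
      rw [SetLike.mem_coe, MonoidHom.mem_ker]
      exact ofAdd_eq_one
    rw [e]
    exact ho) P hP (fun l hl τ hτ => by
      show ofAdd (F τ) = 1
      rw [h l hl τ hτ, ofAdd_zero]) g
  exact ofAdd_eq_one.1 h1

/-- Odd `p`: homomorphisms to `ℤ / p` unramified outside `p` are multiples of one of them. -/
theorem one_dim_odd (hp2 : p ≠ 2) : ∃ ψ : GF ℚ → ZMod p, ∀ F : GF ℚ → ZMod p, IsAdd F →
    IsOpen {g | F g = 0} → (∀ l : ℕ, l.Prime → l ≠ p → ∀ P : Ideal (OO ℚ), P.IsMaximal →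
      (l : OO ℚ) ∈ P → ∀ τ : GF ℚ, InInertia P τ → F τ = 0) →
    ∃ c : ZMod p, ∀ g, F g = c * ψ g := by
  have : NeZero p := ⟨hp.out.ne_zero⟩
  obtain ⟨P, hP⟩ := exists_primes
  obtain ⟨ψp, w, hw, hψo, hψur, hψne, -, hψker⟩ := exists_psi p
  have hGEN : S_GEN := Pool.Agent.W215.FM.main
  have hFROB : S_FROB := Pool.Agent.W571.FM.main
  have hnotmem : ∀ l q : ℕ, l.Prime → q.Prime → q ≠ l → (l : OO ℚ) ∉ P q := fun l q hl hq hne h =>
    hne (char_unique (hP q hq).1 hq hl (hP q hq).2 h)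
  obtain ⟨γ, hγ, hγ1⟩ : ∃ γ : GF ℚ, InInertia (P p) γ ∧ ψp γ = Multiplicative.ofAdd 1 := by
    have h1 : ∃ γ : GF ℚ, InInertia (P p) γ ∧ ψp γ ≠ 1 := by
      by_contra hcon
      push Not at hcon
      obtain ⟨g, hg⟩ := hψne
      apply hg
      refine trivial_of_trivial hGEN hFROB ψp hψo P hP (fun l hl τ hτ => ?_) g
      by_cases hlp : l = p
      · rw [hlp] at hτ
        exact hcon τ hτ
      · exact hψur (P l) (hP l hl).1 (hnotmem p l hp.out hl hlp) τ hτ
    obtain ⟨γ, h1, h2⟩ := h1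
    exact exists_scale h1 h2
  refine ⟨fun g => toAdd (ψp g), fun F hF hFo hFur => ?_⟩
  set c := F γ with hc
  refine ⟨c, ?_⟩
  set F' : GF ℚ → ZMod p := fun g => F g - c * toAdd (ψp g) with hF'
  have hadd : IsAdd F' := fun g h => by
    rw [hF']
    simp only
    rw [hF g h, map_mul, toAdd_mul]
    ring
  have hopen : IsOpen {g | F' g = 0} := by
    have h1 : IsOpen ((hF.hom.ker ⊓ ψp.ker : Subgroup (GF ℚ)) : Set (GF ℚ)) := by
      rw [Subgroup.coe_inf]
      have e : (hF.hom.ker : Set (GF ℚ)) = {g | F g = 0} := by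
        ext g
        rw [SetLike.mem_coe, MonoidHom.mem_ker]
        exact ofAdd_eq_one
      rw [e]
      exact hFo.inter hψo
    have e : (hadd.hom.ker : Set (GF ℚ)) = {g | F' g = 0} := by
      ext g
      rw [SetLike.mem_coe, MonoidHom.mem_ker]
      exact ofAdd_eq_one
    rw [← e]
    refine Subgroup.isOpen_mono ?_ h1
    rintro g ⟨h2, h3⟩
    rw [MonoidHom.mem_ker]
    have h2' : F g = 0 := ofAdd_eq_one.1 h2
    have h3' : ψp g = 1 := h3
    show ofAdd (F g - c * toAdd (ψp g)) = 1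
    rw [h2', h3', toAdd_one, mul_zero, sub_zero, ofAdd_zero]
  have h0 := trivial_of F' hadd hopen P hP (by
    intro l hl t ht
    by_cases hlp : l = p
    · rw [hlp] at ht
      set n := (-toAdd (ψp t)).val with hn
      have h1 : InInertia (P p) (γ ^ n * t) := inertia_mul (inertia_pow hγ n) ht
      have h2 : ψp (γ ^ n * t) = 1 := by
        apply Multiplicative.toAdd.injective
        rw [map_mul, map_pow, hγ1, toAdd_mul, toAdd_pow, toAdd_ofAdd, toAdd_one, nsmul_eq_mul,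
          mul_one, hn, ZMod.natCast_zmod_val]
        ring
      have h3 := hψker _ h2
      have hFo' : IsOpen (hF.hom.ker : Set (GF ℚ)) := by
        have e : (hF.hom.ker : Set (GF ℚ)) = {g | F g = 0} := by
          ext g
          rw [SetLike.mem_coe, MonoidHom.mem_ker]
          exact ofAdd_eq_one
        rw [e]
        exact hFo
      have h4 := kw (hP p hp.out).1 (hP p hp.out).2 hp2 hw hF.hom hFo' (inertia_pow h1 (p - 1)) h3
      have h5 : F ((γ ^ n * t) ^ (p - 1)) = 0 := ofAdd_eq_one.1 h4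
      rw [hF.pow, hF, hF.pow, nsmul_eq_mul, nsmul_eq_mul, hn, ZMod.natCast_zmod_val, ← hc] at h5
      have h6 : ((p - 1 : ℕ) : ZMod p) ≠ 0 := by
        rw [Ne, ZMod.natCast_eq_zero_iff]
        intro h
        have := hp.out.two_le
        have := Nat.le_of_dvd (by omega) h
        omega
      have h7 := (mul_eq_zero.1 h5).resolve_left h6
      show F t - c * toAdd (ψp t) = 0
      linear_combination h7
    · show F t - c * toAdd (ψp t) = 0
      rw [hFur l hl hlp (P l) (hP l hl).1 (hP l hl).2 t ht,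
        hψur (P l) (hP l hl).1 (hnotmem p l hp.out hl hlp) t ht, toAdd_one, mul_zero, sub_zero])
  intro g
  exact sub_eq_zero.1 (h0 g)

section two

/-- the character of conductor four -/
def u4 : (ZMod 8)ˣ →* Multiplicative (ZMod 2) where
  toFun u := if (u : ZMod 8) = 3 ∨ (u : ZMod 8) = 7 then ofAdd 1 else 1
  map_one' := by decide
  map_mul' := by decide

/-- the even character of conductor eight -/
def u8 : (ZMod 8)ˣ →* Multiplicative (ZMod 2) where
  toFun u := if (u : ZMod 8) = 3 ∨ (u : ZMod 8) = 5 then ofAdd 1 else 1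
  map_one' := by decide
  map_mul' := by decide

theorem u_eq_one : ∀ u : (ZMod 8)ˣ, u4 u = 1 → u8 u = 1 → u = 1 := by decide

theorem exists_base {F : Type} [Field F] [CharZero F] {x : AlgebraicClosure F}
    (h : ∀ g : GF F, g x = x) : ∃ q : F, algebraMap F (AlgebraicClosure F) q = x := by
  have h1 : x ∈ (⊥ : IntermediateField F (AlgebraicClosure F)) := by
    rw [InfiniteGalois.mem_bot_iff_fixed]
    exact h
  exact IntermediateField.mem_bot.1 h1

/-- an algebraic integer fixed by the absolute Galois group of `ℚ` is an integer -/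
theorem exists_int {x : OO ℚ} (h : ∀ g : GF ℚ, g • x = x) : ∃ d : ℤ, x = d := by
  obtain ⟨q, hq⟩ := exists_base (F := ℚ) (x := (x : AlgebraicClosure ℚ)) (fun g =>
    congrArg (fun y : OO ℚ => (y : AlgebraicClosure ℚ)) (h g))
  rw [eq_ratCast] at hq
  have h2 : IsIntegral ℤ (algebraMap ℚ (AlgebraicClosure ℚ) q) := by
    rw [eq_ratCast, hq]
    exact x.2
  have h3 : IsIntegral ℤ q := (isIntegral_algebraMap_iff (algebraMap ℚ (AlgebraicClosure ℚ)).injective).1 h2
  obtain ⟨d, hd⟩ := IsIntegrallyClosed.isIntegral_iff.1 h3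
  refine ⟨d, RingOfIntegers.ext ?_⟩
  rw [← hq, ← hd]
  simp

theorem coe_smul (g : GF ℚ) (x : OO ℚ) : ((g • x : OO ℚ) : AlgebraicClosure ℚ) = g x := rfl

/-- the local computation at two -/
theorem two_core {P : Ideal (OO ℚ)} (hP : P.IsMaximal) (h2P : ((2 : ℕ) : OO ℚ) ∈ P) {w : OO ℚ}
    (hw : w ^ 4 = -1) (F : GF ℚ → ZMod 2) (hF : IsAdd F) (hFo : IsOpen {g | F g = 0})
    {τ : GF ℚ} (hτ : InInertia P τ) (hτw : τ • w = w) : F τ = 0 := by
  classical
  by_contra hFτ
  have hFτ1 : F τ = 1 := by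
    have : ∀ x : ZMod 2, x ≠ 0 → x = 1 := by decide
    exact this _ hFτ
  have hz : IsPrimitiveRoot (-1 : OO ℚ) 2 := by
    rw [IsPrimitiveRoot.iff_def]
    refine ⟨by ring, fun l hl => ?_⟩
    rcases Nat.even_or_odd l with h | h
    · exact h.two_dvd
    · rw [h.neg_one_pow] at hl
      exfalso
      have h2 : (2 : OO ℚ) = 0 := by linear_combination -hl
      exact two_ne_zero h2
  have hFo' : IsOpen (hF.hom.ker : Set (GF ℚ)) := by
    have e : (hF.hom.ker : Set (GF ℚ)) = {g | F g = 0} := by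
      ext g
      rw [SetLike.mem_coe, MonoidHom.mem_ker]
      exact ofAdd_eq_one
    rw [e]
    exact hFo
  obtain ⟨β, hβ0, hβ⟩ := exists_beta (p := 2) hz hF.hom hFo' τ (by rw [smul_neg, smul_one])
    (by show ofAdd (F τ) = ofAdd 1; rw [hFτ1])
  have hval : ∀ h : GF ℚ, h • β = β ∨ h • β = -β := by
    intro h
    have h1 := hβ h (by rw [smul_neg, smul_one])
    rcases Nat.even_or_odd (toAdd (hF.hom h)).val with h2 | h2
    · left; rw [h1, h2.neg_one_pow, one_mul]
    · right; rw [h1, h2.neg_one_pow, neg_one_mul]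
  have hτβ : τ • β = -β := by
    have h1 := hβ τ (by rw [smul_neg, smul_one])
    have h2 : toAdd (hF.hom τ) = 1 := hFτ1
    rw [h2] at h1
    have h3 : (1 : ZMod 2).val = 1 := rfl
    rw [h1, h3, pow_one, neg_one_mul]
  obtain ⟨d, hd⟩ := exists_int (x := β ^ 2) (by
    intro g
    rw [smul_pow']
    rcases hval g with h | h
    · rw [h]
    · rw [h, neg_sq])
  have hd0 : d ≠ 0 := by
    rintro rfl
    rw [Int.cast_zero] at hd
    exact hβ0 (pow_eq_zero_iff (two_ne_zero)|>.1 hd)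
  -- the decomposition of `d`
  obtain ⟨a, b, hab, hsq⟩ := Nat.sq_mul_squarefree d.natAbs
  have hb0 : b ≠ 0 := by
    rintro rfl
    apply hd0
    rw [← Int.natAbs_eq_zero, ← hab]
    ring
  obtain ⟨r, m, hr, hm, hdm⟩ : ∃ (r : OO ℚ) (m : ℤ), τ • r = r ∧ (∃ k : ℤ, m = 1 + 4 * k) ∧
      (d : OO ℚ) = (b : OO ℚ) ^ 2 * r ^ 2 * m := by
    have hsgn : ∃ e : ℤ, (e = 1 ∨ e = -1) ∧ d = e * ((b : ℤ) ^ 2 * a) := by
      rcases Int.natAbs_eq d with h | h
      · exact ⟨1, Or.inl rfl, by rw [one_mul, h, ← hab]; push_cast; ring⟩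
      · exact ⟨-1, Or.inr rfl, by rw [h, ← hab]; push_cast; ring⟩
    obtain ⟨e, he, hde⟩ := hsgn
    have ha : ∃ (j : ℕ) (n : ℕ), (j = 0 ∨ j = 1) ∧ n % 2 = 1 ∧ a = 2 ^ j * n := by
      rcases Nat.even_or_odd a with h | h
      · obtain ⟨n, hn⟩ := h.two_dvd
        refine ⟨1, n, Or.inr rfl, ?_, by rw [pow_one]; exact hn⟩
        by_contra hcon
        have h1 : 2 * 2 ∣ a := by
          rw [hn]
          exact Nat.mul_dvd_mul_left 2 (by omega)
        have h2 := hsq 2 h1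
        rw [Nat.isUnit_iff] at h2
        omega
      · exact ⟨0, a, Or.inl rfl, Nat.odd_iff.1 h, by ring⟩
    obtain ⟨j, n, hj, hn, haj⟩ := ha
    have hs : ∃ (s : ℤ) (k : ℤ), (s = 1 ∨ s = -1) ∧ s * n = 1 + 4 * k := by
      have h1 : n % 4 = 1 ∨ n % 4 = 3 := by omega
      rcases h1 with h | h
      · exact ⟨1, (n : ℤ) / 4, Or.inl rfl, by omega⟩
      · exact ⟨-1, -((n : ℤ) / 4) - 1, Or.inr rfl, by omega⟩
    obtain ⟨s, k, hs, hsk⟩ := hs
    have hss : s * s = 1 := by rcases hs with h | h <;> rw [h] <;> norm_num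
    have hes : e * s = 1 ∨ e * s = -1 := by
      rcases hs with h | h <;> rcases he with h' | h' <;> rw [h, h'] <;> norm_num
    have hr : ∃ r : OO ℚ, τ • r = r ∧ r ^ 2 = ((e * s * 2 ^ j : ℤ) : OO ℚ) := by
      rcases hes with h | h <;> rcases hj with h' | h'
      · exact ⟨1, smul_one _, by rw [h, h']; norm_num⟩
      · refine ⟨w - w ^ 3, by rw [smul_sub, smul_pow', hτw], ?_⟩
        rw [h, h']
        push_cast
        linear_combination (w ^ 2 - 2) * hw
      · exact ⟨w ^ 2, by rw [smul_pow', hτw], by rw [h, h', ← pow_mul, hw]; norm_num⟩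
      · refine ⟨w + w ^ 3, by rw [smul_add, smul_pow', hτw], ?_⟩
        rw [h, h']
        push_cast
        linear_combination (w ^ 2 + 2) * hw
    obtain ⟨r, hr1, hr2⟩ := hr
    refine ⟨r, s * n, hr1, ⟨k, hsk⟩, ?_⟩
    rw [hr2, hde, haj]
    push_cast
    have hss' : (s : OO ℚ) * s = 1 := by exact_mod_cast congrArg (fun z : ℤ => (z : OO ℚ)) hss
    linear_combination (-(b : OO ℚ) ^ 2 * e * 2 ^ j * n) * hss'
  obtain ⟨k, hk⟩ := hm
  have hr0 : r ≠ 0 := by
    rintro rfl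
    apply hd0
    have : (d : OO ℚ) = 0 := by rw [hdm]; ring
    exact_mod_cast this
  have hbr : ((b : OO ℚ) * r : OO ℚ) ≠ 0 := mul_ne_zero (Nat.cast_ne_zero.2 hb0) hr0
  -- the element `γ`
  have hcast : ∀ x y : OO ℚ, ((x * y : OO ℚ) : AlgebraicClosure ℚ) = x * y := fun x y =>
    map_mul (algebraMap (OO ℚ) (AlgebraicClosure ℚ)) x y
  have hbrc : (((b : OO ℚ) * r : OO ℚ) : AlgebraicClosure ℚ) ≠ 0 := by
    intro h
    apply hbr
    apply RingOfIntegers.ext
    rw [h]
    exact (map_zero (algebraMap (OO ℚ) (AlgebraicClosure ℚ))).symm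
  have hg2 : ((β : AlgebraicClosure ℚ) / (((b : OO ℚ) * r : OO ℚ) : AlgebraicClosure ℚ)) ^ 2 =
      (m : AlgebraicClosure ℚ) := by
    rw [div_pow, div_eq_iff (pow_ne_zero 2 hbrc)]
    have h1 := congrArg (fun x : OO ℚ => (x : AlgebraicClosure ℚ)) (hd.trans hdm)
    have h2 : ∀ x : OO ℚ, ((x ^ 2 : OO ℚ) : AlgebraicClosure ℚ) = (x : AlgebraicClosure ℚ) ^ 2 :=
      fun x => map_pow (algebraMap (OO ℚ) (AlgebraicClosure ℚ)) x 2
    have h3 : ((m : OO ℚ) : AlgebraicClosure ℚ) = (m : AlgebraicClosure ℚ) :=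
      map_intCast (algebraMap (OO ℚ) (AlgebraicClosure ℚ)) m
    simp only [hcast, h2, h3] at h1
    rw [hcast, h1]
    ring
  have hγi : IsIntegral ℤ ((β : AlgebraicClosure ℚ) / (((b : OO ℚ) * r : OO ℚ) : AlgebraicClosure ℚ)) := by
    apply IsIntegral.of_pow (n := 2) (by norm_num)
    rw [hg2]
    exact isIntegral_algebraMap (R := ℤ) (x := m)
  let γ : OO ℚ := ⟨_, hγi⟩
  have hγβ : (b : OO ℚ) * r * γ = β := by
    apply RingOfIntegers.ext
    rw [hcast]
    exact mul_div_cancel₀ _ hbrc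
  have hγ2 : γ ^ 2 = (m : OO ℚ) := by
    apply RingOfIntegers.ext
    exact (map_pow (algebraMap (OO ℚ) (AlgebraicClosure ℚ)) γ 2).trans
      (hg2.trans (map_intCast (algebraMap (OO ℚ) (AlgebraicClosure ℚ)) m).symm)
  have hτγ : τ • γ = -γ := by
    apply mul_left_cancel₀ hbr
    have h1 : τ • ((b : OO ℚ) * r * γ) = (b : OO ℚ) * r * (τ • γ) := by
      rw [smul_mul', smul_mul', hr, smul_natCast']
    rw [← h1, hγβ, hτβ, mul_neg, hγβ]
  -- the element `δ`
  have h2c : (2 : AlgebraicClosure ℚ) ≠ 0 := two_ne_zero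
  have hδi : IsIntegral ℤ ((1 + (γ : AlgebraicClosure ℚ)) / 2) := by
    refine ⟨Polynomial.X ^ 2 - Polynomial.X - Polynomial.C k, ?_, ?_⟩
    · have h1 : (Polynomial.X ^ 2 - Polynomial.X - Polynomial.C k : Polynomial ℤ) =
          Polynomial.X ^ 2 + (-Polynomial.X - Polynomial.C k) := by ring
      rw [h1]
      apply Polynomial.monic_X_pow_add
      refine lt_of_le_of_lt (b := 1) ?_ (by norm_num)
      compute_degree
    · simp only [Polynomial.eval₂_sub, Polynomial.eval₂_pow, Polynomial.eval₂_X,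
        Polynomial.eval₂_C]
      have h1 : (γ : AlgebraicClosure ℚ) ^ 2 = (m : AlgebraicClosure ℚ) := hg2
      have h2 : (m : AlgebraicClosure ℚ) = 1 + 4 * (k : AlgebraicClosure ℚ) := by
        rw [hk]; push_cast; ring
      rw [eq_intCast]
      field_simp
      linear_combination h1 + h2
  let δ : OO ℚ := ⟨_, hδi⟩
  have hδ : 2 * δ = 1 + γ := by
    apply RingOfIntegers.ext
    have e1 : ((2 * δ : OO ℚ) : AlgebraicClosure ℚ) = 2 * (δ : AlgebraicClosure ℚ) := by
      have := map_mul (algebraMap (OO ℚ) (AlgebraicClosure ℚ)) 2 δ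
      rwa [map_ofNat] at this
    have e2 : ((1 + γ : OO ℚ) : AlgebraicClosure ℚ) = 1 + (γ : AlgebraicClosure ℚ) := by
      have := map_add (algebraMap (OO ℚ) (AlgebraicClosure ℚ)) 1 γ
      rwa [map_one] at this
    rw [e1, e2]
    exact mul_div_cancel₀ _ h2c
  have h20 : (2 : OO ℚ) ≠ 0 := two_ne_zero
  have hτδ : τ • δ - δ = -γ := by
    apply mul_left_cancel₀ h20
    have h1 : τ • (2 * δ) = 2 * (τ • δ) := by
      rw [smul_mul']
      congr 1
      exact smul_natCast' τ 2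
    rw [mul_sub, ← h1, hδ, smul_add, smul_one, hτγ]
    ring
  have h1 : -γ ∈ P := hτδ ▸ hτ δ
  have h2 : γ ^ 2 ∈ P := P.pow_mem_of_mem (by simpa using P.neg_mem h1) 2 (by norm_num)
  rw [hγ2, hk] at h2
  apply hP.ne_top
  rw [Ideal.eq_top_iff_one]
  have h3 : (1 : OO ℚ) = ((1 + 4 * k : ℤ) : OO ℚ) - ((2 * k : ℤ) : OO ℚ) * ((2 : ℕ) : OO ℚ) := by
    push_cast
    ring
  rw [h3]
  exact P.sub_mem h2 (P.mul_mem_left _ h2P)

end two

end Pool.Agent.Y115.Z
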